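import Mathlib

/-! Linear algebra: adjugates of Gram matrices of alternating forms. -/

open Matrix

noncomputable section

set_option linter.unusedSectionVars false

namespace Q169.SI

section adj

variable {N : ℕ}

lemma updateCol_mulVec (P : Matrix (Fin N) (Fin N) ℝ) (j : Fin N) (u z : Fin N → ℝ) :
    (P.updateCol j u).mulVec z = P.mulVec (Function.update z j 0) + z j • u := by
  ext i
  simp only [Matrix.mulVec, dotProduct, Pi.add_apply, Pi.smul_apply, smul_eq_mul]
  rw [← Finset.add_sum_erase _ _ (Finset.mem_univ j),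
    ← Finset.add_sum_erase (a := j) Finset.univ (fun k => P i k * Function.update z j 0 k)
      (Finset.mem_univ j)]
  have h1 : ∀ k ∈ Finset.univ.erase j, P.updateCol j u i k * z k =
      P i k * Function.update z j 0 k := by
    intro k hk
    have hkj : k ≠ j := Finset.ne_of_mem_erase hk
    rw [Matrix.updateCol_apply, if_neg hkj, Function.update_of_ne hkj]
  rw [Finset.sum_congr rfl h1, Matrix.updateCol_apply, if_pos rfl, Function.update_self]
  ring

/-- a kernel of dimension two kills the adjugate -/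
lemma adj_mulVec_zero {P : Matrix (Fin N) (Fin N) ℝ} {a b : Fin N → ℝ} (ha : P.mulVec a = 0)
    (hb : P.mulVec b = 0) (hind : ∀ s t : ℝ, s • a + t • b = 0 → s = 0 ∧ t = 0)
    (u : Fin N → ℝ) : P.adjugate.mulVec u = 0 := by
  rw [← Matrix.cramer_eq_adjugate_mulVec]
  ext j
  rw [Matrix.cramer_apply]
  obtain ⟨z, hz, hPz, hzj⟩ : ∃ z : Fin N → ℝ, z ≠ 0 ∧ P.mulVec z = 0 ∧ z j = 0 := by
    by_cases h : b j = 0
    · refine ⟨b, ?_, hb, h⟩
      rintro rfl
      have := hind 0 1 (by simp)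
      exact one_ne_zero this.2
    · refine ⟨b j • a + (-a j) • b, ?_, ?_, ?_⟩
      · intro h0
        exact h (hind _ _ h0).1
      · rw [Matrix.mulVec_add, Matrix.mulVec_smul, Matrix.mulVec_smul, ha, hb]
        simp
      · simp only [Pi.add_apply, Pi.smul_apply, smul_eq_mul]
        ring
  refine Matrix.exists_mulVec_eq_zero_iff.1 ⟨z, hz, ?_⟩
  rw [updateCol_mulVec, hzj, zero_smul, add_zero]
  have : Function.update z j 0 = z := by
    rw [← hzj]; exact Function.update_eq_self j z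
  rw [this, hPz]

/-- a kernel of dimension one does not kill the adjugate -/
lemma exists_adj_ne {P : Matrix (Fin N) (Fin N) ℝ} {b : Fin N → ℝ} (hb : b ≠ 0)
    (hPb : P.mulVec b = 0) (h1 : ∀ z, P.mulVec z = 0 → ∃ t : ℝ, z = t • b) :
    ∃ u, P.adjugate.mulVec u ≠ 0 := by
  obtain ⟨j, hj⟩ : ∃ j, b j ≠ 0 := by
    by_contra h
    push Not at h
    exact hb (funext h)
  have hninj : ¬ Function.Injective P.mulVecLin := by
    intro h
    apply hb
    apply h
    rw [map_zero]
    exact hPb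
  have hnsurj : ¬ Function.Surjective P.mulVecLin := fun h =>
    hninj (LinearMap.injective_iff_surjective.2 h)
  have : ∃ u, ∀ z, P.mulVec z ≠ u := by
    by_contra h
    push Not at h
    exact hnsurj h
  obtain ⟨u, hu⟩ := this
  refine ⟨u, fun h0 => ?_⟩
  have h2 := congrFun h0 j
  rw [← Matrix.cramer_eq_adjugate_mulVec, Matrix.cramer_apply] at h2
  obtain ⟨z, hz, hz2⟩ := Matrix.exists_mulVec_eq_zero_iff.2 h2
  rw [updateCol_mulVec] at hz2
  by_cases hzj : z j = 0
  · rw [hzj, zero_smul, add_zero] at hz2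
    have e : Function.update z j 0 = z := by
      rw [← hzj]; exact Function.update_eq_self j z
    rw [e] at hz2
    obtain ⟨t, ht⟩ := h1 z hz2
    rw [ht] at hzj
    have ht0 : t = 0 := (mul_eq_zero.1 hzj).resolve_right hj
    rw [ht0, zero_smul] at ht
    exact hz ht
  · apply hu (-((z j)⁻¹ • Function.update z j 0))
    rw [Matrix.mulVec_neg, Matrix.mulVec_smul, eq_neg_of_add_eq_zero_left hz2, smul_neg, neg_neg,
      smul_smul, inv_mul_cancel₀ hzj, one_smul]

end adj

section symp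

variable {V : Type*} [AddCommGroup V] [Module ℝ V] [FiniteDimensional ℝ V] {N : ℕ}

/-- Pointwise contact data. -/
structure PD (β : V →ₗ[ℝ] ℝ) (ω : V →ₗ[ℝ] V →ₗ[ℝ] ℝ) (R : V) : Prop where
  unit : β R = 1
  ker : ∀ v, ω R v = 0
  alt : ∀ u v, ω u v = - ω v u
  nondeg : ∀ u, β u = 0 → (∀ v, ω u v = 0) → u = 0

/-- linear combination -/
def Yc (Y : Fin N → V) (a : Fin N → ℝ) : V := ∑ i, a i • Y i

lemma Yc_smul (Y : Fin N → V) (t : ℝ) (a : Fin N → ℝ) : Yc Y (t • a) = t • Yc Y a := by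
  unfold Yc
  rw [Finset.smul_sum]
  exact Finset.sum_congr rfl fun i _ => by rw [Pi.smul_apply, smul_assoc]

lemma Yc_add (Y : Fin N → V) (a b : Fin N → ℝ) : Yc Y (a + b) = Yc Y a + Yc Y b := by
  unfold Yc
  rw [← Finset.sum_add_distrib]
  exact Finset.sum_congr rfl fun i _ => by rw [Pi.add_apply, add_smul]

/-- Gram matrix -/
def Gm (ω : V →ₗ[ℝ] V →ₗ[ℝ] ℝ) (Y : Fin N → V) : Matrix (Fin N) (Fin N) ℝ :=
  Matrix.of fun i j => ω (Y i) (Y j)

lemma ω_Yc (ω : V →ₗ[ℝ] V →ₗ[ℝ] ℝ) (Y : Fin N → V) (a : Fin N → ℝ) (j : Fin N) :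
    ω (Y j) (Yc Y a) = (Gm ω Y).mulVec a j := by
  unfold Yc
  rw [map_sum]
  simp only [map_smul, smul_eq_mul, Matrix.mulVec, dotProduct, Gm, Matrix.of_apply]
  exact Finset.sum_congr rfl fun i _ => mul_comm _ _

variable {β : V →ₗ[ℝ] ℝ} {ω : V →ₗ[ℝ] V →ₗ[ℝ] ℝ} {R : V}

lemma β_Yc {Y : Fin N → V} (hY : ∀ i, β (Y i) = 0) (a : Fin N → ℝ) : β (Yc Y a) = 0 := by
  unfold Yc
  rw [map_sum]
  exact Finset.sum_eq_zero fun i _ => by rw [map_smul, hY, smul_zero]

lemma Yc_inj {Y : Fin N → V} (hli : LinearIndependent ℝ Y) {a : Fin N → ℝ} (h : Yc Y a = 0) :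
    a = 0 := by
  rw [Fintype.linearIndependent_iff] at hli
  ext i
  exact hli a h i

namespace PD

variable (p : PD β ω R) {Y : Fin N → V} (hY : ∀ i, β (Y i) = 0)

include p hY

/-- the kernel in the independent case -/
lemma exists_ker (hd : Module.finrank ℝ V = N + 2) (hli : LinearIndependent ℝ Y) :
    ∃ a : Fin N → ℝ, a ≠ 0 ∧ (Gm ω Y).mulVec a = 0 ∧
      (∀ v, β v = 0 → (∀ j, ω (Y j) v = 0) → ∃ t : ℝ, v = t • Yc Y a) ∧
      (∀ z, (Gm ω Y).mulVec z = 0 → ∃ t : ℝ, z = t • a) := by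
  -- the map `Φ`
  let Φ : V →ₗ[ℝ] ((Fin N → ℝ) × ℝ) := (LinearMap.pi fun j => ω (Y j)).prod β
  have hΦ : ∀ v, Φ v = (fun j => ω (Y j) v, β v) := fun v => rfl
  -- surjectivity
  have hsurj : Function.Surjective Φ := by
    rw [← LinearMap.range_eq_top]
    by_contra hne
    obtain ⟨g, hg, hg2⟩ := Submodule.exists_le_ker_of_lt_top (LinearMap.range Φ)
      (lt_top_iff_ne_top.2 hne)
    have hg3 : ∀ v, g (Φ v) = 0 := fun v => hg2 (LinearMap.mem_range_self Φ v)
    set b : Fin N → ℝ := fun j => g (Pi.single j 1, 0) with hb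
    set b0 : ℝ := g (0, 1) with hb0
    have hexp : ∀ (y : Fin N → ℝ) (s : ℝ), g (y, s) = ∑ j, y j * b j + s * b0 := by
      intro y s
      have e : ((y, s) : (Fin N → ℝ) × ℝ) =
          ∑ j, y j • ((Pi.single j 1, 0) : (Fin N → ℝ) × ℝ) + s • ((0, 1) : (Fin N → ℝ) × ℝ) := by
        apply Prod.ext
        · ext i
          simp [Prod.fst_sum, Finset.sum_apply, Pi.single_apply]
        · simp [Prod.snd_sum]
      rw [e, map_add, map_sum, map_smul]
      simp only [map_smul, smul_eq_mul]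
      rfl
    have hsum : ∀ v, ω (Yc Y b) v + b0 * β v = 0 := by
      intro v
      have h1 := hg3 v
      rw [hΦ, hexp] at h1
      have h2 : ω (Yc Y b) v = ∑ j, ω (Y j) v * b j := by
        unfold Yc
        rw [map_sum, LinearMap.sum_apply]
        exact Finset.sum_congr rfl fun j _ => by
          rw [map_smul, LinearMap.smul_apply, smul_eq_mul, mul_comm]
      rw [h2]
      linarith
    have h0 : b0 = 0 := by
      have h1 := hsum R
      rw [p.alt, p.ker, neg_zero, zero_add, p.unit, mul_one] at h1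
      exact h1
    have h2 : Yc Y b = 0 := by
      apply p.nondeg _ (β_Yc hY b)
      intro v
      have h1 := hsum v
      rw [h0, zero_mul, add_zero] at h1
      exact h1
    have h3 := Yc_inj hli h2
    apply hg
    refine LinearMap.ext fun y => ?_
    rw [show y = (y.1, y.2) from rfl, hexp, h0, h3]
    simp
  have hrank := LinearMap.finrank_range_add_finrank_ker Φ
  rw [LinearMap.range_eq_top.2 hsurj, finrank_top, Module.finrank_prod, Module.finrank_fin_fun,
    Module.finrank_self, hd] at hrank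
  have hk1 : Module.finrank ℝ (LinearMap.ker Φ) = 1 := by omega
  obtain ⟨⟨e, he⟩, he0, hespan⟩ := finrank_eq_one_iff'.1 hk1
  have he' : (∀ j, ω (Y j) e = 0) ∧ β e = 0 := by
    have h1 : Φ e = 0 := he
    rw [hΦ] at h1
    exact ⟨fun j => congrFun (congrArg Prod.fst h1) j, congrArg Prod.snd h1⟩
  have hK : ∀ v, β v = 0 → (∀ j, ω (Y j) v = 0) → ∃ t : ℝ, v = t • e := by
    intro v hv hv2
    have hvk : v ∈ LinearMap.ker Φ := by
      rw [LinearMap.mem_ker, hΦ]
      apply Prod.ext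
      · ext j; exact hv2 j
      · exact hv
    obtain ⟨t, ht⟩ := hespan ⟨v, hvk⟩
    exact ⟨t, (congrArg Subtype.val ht).symm⟩
  have he00 : e ≠ 0 := fun h => he0 (Subtype.ext h)
  -- the Gram matrix is singular
  have hsing : ∃ a : Fin N → ℝ, a ≠ 0 ∧ (Gm ω Y).mulVec a = 0 := by
    by_contra hno
    push Not at hno
    have hinj : Function.Injective (Gm ω Y).mulVecLin := by
      rw [injective_iff_map_eq_zero]
      intro a ha
      by_contra h
      exact hno a h ha
    have hs := LinearMap.injective_iff_surjective.1 hinj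
    apply he00
    apply p.nondeg e he'.2
    intro v
    obtain ⟨a, ha⟩ := hs (fun j => ω (Y j) v)
    have ha' : (Gm ω Y).mulVec a = fun j => ω (Y j) v := ha
    set v' := v - Yc Y a - (β v) • R with hv'
    have h1 : β v' = 0 := by
      rw [hv', map_sub, map_sub, map_smul, β_Yc hY, p.unit]
      simp
    have h2 : ∀ j, ω (Y j) v' = 0 := by
      intro j
      rw [hv', map_sub, map_sub, map_smul, ω_Yc, ha', p.alt (Y j) R, p.ker]
      simp
    obtain ⟨t, ht⟩ := hK v' h1 h2
    have h3 : v = v' + Yc Y a + (β v) • R := by rw [hv']; abel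
    have h4 : ω e (Yc Y a) = 0 := by
      rw [p.alt]
      unfold Yc
      rw [map_sum, LinearMap.sum_apply]
      rw [neg_eq_zero]
      exact Finset.sum_eq_zero fun j _ => by
        rw [map_smul, LinearMap.smul_apply, he'.1, smul_zero]
    have h5 : ω e v' = 0 := by
      rw [ht, map_smul]
      have : ω e e = 0 := by
        have := p.alt e e
        linarith
      rw [this, smul_zero]
    rw [h3, map_add, map_add, map_smul, h4, h5, p.alt e R, p.ker]
    simp
  obtain ⟨a, ha0, ha⟩ := hsing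
  have hYa : Yc Y a ≠ 0 := fun h => ha0 (Yc_inj hli h)
  obtain ⟨s, hs⟩ := hK (Yc Y a) (β_Yc hY a) (fun j => by rw [ω_Yc, ha]; rfl)
  have hs0 : s ≠ 0 := by
    rintro rfl
    rw [zero_smul] at hs
    exact hYa hs
  have hK' : ∀ v, β v = 0 → (∀ j, ω (Y j) v = 0) → ∃ t : ℝ, v = t • Yc Y a := by
    intro v hv hv2
    obtain ⟨t, ht⟩ := hK v hv hv2
    refine ⟨t * s⁻¹, ?_⟩
    rw [hs, smul_smul, ht]
    congr 1
    field_simp
  refine ⟨a, ha0, ha, hK', fun z hz => ?_⟩
  obtain ⟨t, ht⟩ := hK' (Yc Y z) (β_Yc hY z) (fun j => by rw [ω_Yc, hz]; rfl)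
  refine ⟨t, ?_⟩
  rw [← sub_eq_zero]
  apply Yc_inj hli
  rw [sub_eq_add_neg, Yc_add, ← neg_one_smul ℝ (t • a), Yc_smul, Yc_smul, ht]
  module

/-- the Gram matrix kills its adjugate -/
lemma Gm_adj (hd : Module.finrank ℝ V = N + 2) (u : Fin N → ℝ) :
    (Gm ω Y).mulVec ((Gm ω Y).adjugate.mulVec u) = 0 := by
  have hdet : (Gm ω Y).det = 0 := by
    by_cases hli : LinearIndependent ℝ Y
    · obtain ⟨a, ha0, ha, -⟩ := p.exists_ker hY hd hli
      exact Matrix.exists_mulVec_eq_zero_iff.1 ⟨a, ha0, ha⟩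
    · rw [Fintype.linearIndependent_iff] at hli
      push Not at hli
      obtain ⟨b, hb, i, hi⟩ := hli
      refine Matrix.exists_mulVec_eq_zero_iff.1 ⟨b, fun h => hi (congrFun h i), ?_⟩
      ext j
      rw [← ω_Yc]
      have : Yc Y b = 0 := hb
      rw [this, map_zero]; rfl
  rw [Matrix.mulVec_mulVec, Matrix.mul_adjugate, hdet, zero_smul, Matrix.zero_mulVec]

/-- in the independent case some adjugate vector is nonzero -/
lemma exists_adj (hd : Module.finrank ℝ V = N + 2) (hli : LinearIndependent ℝ Y) :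
    ∃ u, Yc Y ((Gm ω Y).adjugate.mulVec u) ≠ 0 := by
  obtain ⟨a, ha0, ha, -, h4⟩ := p.exists_ker hY hd hli
  obtain ⟨u, hu⟩ := exists_adj_ne ha0 ha h4
  exact ⟨u, fun h => hu (Yc_inj hli h)⟩

omit hY in
/-- a nonzero adjugate vector gives independence -/
lemma indep_of_adj {u : Fin N → ℝ} (h : Yc Y ((Gm ω Y).adjugate.mulVec u) ≠ 0) :
    LinearIndependent ℝ Y := by
  by_contra hli
  rw [Fintype.linearIndependent_iff] at hli
  push Not at hli
  obtain ⟨b, hb, i, hi⟩ := hli
  have hb0 : b ≠ 0 := fun h => hi (congrFun h i)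
  have hYb : Yc Y b = 0 := hb
  have hPb : (Gm ω Y).mulVec b = 0 := by
    ext j
    rw [← ω_Yc, hYb, map_zero]; rfl
  have hdet : (Gm ω Y).det = 0 := Matrix.exists_mulVec_eq_zero_iff.1 ⟨b, hb0, hPb⟩
  set a := (Gm ω Y).adjugate.mulVec u with ha
  have hPa : (Gm ω Y).mulVec a = 0 := by
    rw [ha, Matrix.mulVec_mulVec, Matrix.mul_adjugate, hdet, zero_smul, Matrix.zero_mulVec]
  apply h
  have h2 : a = 0 := by
    rw [ha]
    refine adj_mulVec_zero hPa hPb (fun s t hst => ?_) u
    have h3 : Yc Y (s • a + t • b) = 0 := by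
      rw [hst]
      unfold Yc
      simp
    rw [Yc_add, Yc_smul, Yc_smul, hYb, smul_zero, add_zero] at h3
    have hs : s = 0 := (smul_eq_zero.1 h3).resolve_right h
    rw [hs, zero_smul, zero_add] at hst
    exact ⟨hs, (smul_eq_zero.1 hst).resolve_right hb0⟩
  rw [h2]
  unfold Yc
  simp

end PD

end symp

end Q169.SI
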