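import Mathlib
import Pool.Agent.Q169.SI.Lin
import Pool.Agent.H826R2.Wein.HFlow

/-! First integrals of the Reeb field of a closed contact manifold. -/

open scoped Topology ContDiff Manifold
open Set Metric Bundle Pool.Agent.Helper186 Pool.Agent.H826R2.Wein

noncomputable section

namespace Q169.SI

set_option linter.unusedSectionVars false

universe u

variable {E : Type u} [NormedAddCommGroup E] [NormedSpace ℝ E] [FiniteDimensional ℝ E]
  {M : Type*} [TopologicalSpace M] [ChartedSpace E M] [IsManifold 𝓘(ℝ, E) ∞ M]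

/-- smooth functions -/
abbrev Smf (g : M → ℝ) : Prop := ContMDiff 𝓘(ℝ, E) 𝓘(ℝ, ℝ) ∞ g

/-- smooth first integrals -/
structure RI (R : (x : M) → TangentSpace 𝓘(ℝ, E) x) (g : M → ℝ) : Prop where
  sm : ContMDiff 𝓘(ℝ, E) 𝓘(ℝ, ℝ) ∞ g
  first : ∀ x, dForm 𝓘(ℝ, E) g x (R x) = 0

section sums

lemma smf_sum {ι : Type*} (s : Finset ι) {f : ι → M → ℝ}
    (h : ∀ i ∈ s, ContMDiff 𝓘(ℝ, E) 𝓘(ℝ, ℝ) ∞ (f i)) :
    ContMDiff 𝓘(ℝ, E) 𝓘(ℝ, ℝ) ∞ (fun x => ∑ i ∈ s, f i x) := by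
  classical
  induction s using Finset.induction_on with
  | empty => simpa using contMDiff_const
  | insert i s hi ih =>
    simp only [Finset.sum_insert hi]
    exact (h i (Finset.mem_insert_self i s)).add
      (ih fun j hj => h j (Finset.mem_insert_of_mem hj))

lemma smf_prod {ι : Type*} (s : Finset ι) {f : ι → M → ℝ}
    (h : ∀ i ∈ s, ContMDiff 𝓘(ℝ, E) 𝓘(ℝ, ℝ) ∞ (f i)) :
    ContMDiff 𝓘(ℝ, E) 𝓘(ℝ, ℝ) ∞ (fun x => ∏ i ∈ s, f i x) := by
  classical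
  induction s using Finset.induction_on with
  | empty => simpa using contMDiff_const
  | insert i s hi ih =>
    simp only [Finset.prod_insert hi]
    exact (h i (Finset.mem_insert_self i s)).mul
      (ih fun j hj => h j (Finset.mem_insert_of_mem hj))

lemma smf_det {N : ℕ} {P : M → Matrix (Fin N) (Fin N) ℝ}
    (h : ∀ i j, ContMDiff 𝓘(ℝ, E) 𝓘(ℝ, ℝ) ∞ (fun x => P x i j)) :
    ContMDiff 𝓘(ℝ, E) 𝓘(ℝ, ℝ) ∞ (fun x => (P x).det) := by
  have e : (fun x => (P x).det) = fun x => ∑ σ : Equiv.Perm (Fin N),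
      ((Equiv.Perm.sign σ : ℤ) : ℝ) * ∏ i, P x (σ i) i := by
    ext1 x
    rw [Matrix.det_apply]
    refine Finset.sum_congr rfl fun σ _ => ?_
    rw [Units.smul_def, zsmul_eq_mul]
  rw [e]
  exact smf_sum _ fun σ _ => contMDiff_const.mul (smf_prod _ fun i _ => h _ _)

lemma smf_adj {N : ℕ} {P : M → Matrix (Fin N) (Fin N) ℝ}
    (h : ∀ i j, ContMDiff 𝓘(ℝ, E) 𝓘(ℝ, ℝ) ∞ (fun x => P x i j)) (i j : Fin N) :
    ContMDiff 𝓘(ℝ, E) 𝓘(ℝ, ℝ) ∞ (fun x => (P x).adjugate i j) := by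
  simp only [Matrix.adjugate_apply]
  apply smf_det
  intro k l
  simp only [Matrix.updateRow_apply]
  by_cases hk : k = j
  · simp only [hk, if_true]
    exact contMDiff_const
  · simp only [hk, if_false]
    exact h k l

end sums

/-- conjugation of flows -/
lemma conj_flow [T2Space M] {W W' : (x : M) → TangentSpace 𝓘(ℝ, E) x}
    (hW' : ContMDiff 𝓘(ℝ, E) 𝓘(ℝ, E).tangent ∞
      (fun x => (⟨x, W' x⟩ : TangentBundle 𝓘(ℝ, E) M)))
    {c c' : ℝ → M} (hc : IsMIntegralCurve (I := 𝓘(ℝ, E)) c W)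
    (hc' : IsMIntegralCurve (I := 𝓘(ℝ, E)) c' W') {g : M → M}
    (hg : ContMDiff 𝓘(ℝ, E) 𝓘(ℝ, E) ∞ g)
    (hWW : ∀ t, (mfderiv 𝓘(ℝ, E) 𝓘(ℝ, E) g (c t) (W (c t)) : E) = W' (g (c t)))
    (h0 : g (c 0) = c' 0) (t : ℝ) : g (c t) = c' t := by
  have : IsManifold 𝓘(ℝ, E) 1 M := IsManifold.of_le (n := ∞) (by simp)
  have h1 : IsMIntegralCurve (I := 𝓘(ℝ, E)) (fun t => g (c t)) W' := by
    intro s
    have h2 := HasMFDerivAt.comp s (g := g) (f := c)
      (hg.mdifferentiableAt (by simp)).hasMFDerivAt (hc s)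
    refine h2.congr_mfderiv ?_
    refine ContinuousLinearMap.ext fun (r : ℝ) => ?_
    have h3 := hWW s
    show (mfderiv 𝓘(ℝ, E) 𝓘(ℝ, E) g (c s)) ((r • W (c s) : E)) = r • W' (g (c s))
    have h4 : (mfderiv 𝓘(ℝ, E) 𝓘(ℝ, E) g (c s)) ((r • W (c s) : E)) =
      (r • (mfderiv 𝓘(ℝ, E) 𝓘(ℝ, E) g (c s) (W (c s)) : E) : E) :=
      map_smul (mfderiv 𝓘(ℝ, E) 𝓘(ℝ, E) g (c s)) _ _
    rw [h4]
    exact congrArg (fun w : E => r • w) h3
  have h2 : (fun t => g (c t)) = c' :=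
    isMIntegralCurve_Ioo_eq_of_contMDiff_boundaryless (t₀ := 0) (hW'.of_le (by simp)) h1 hc' h0
  exact congrFun h2 t

variable {β : (x : M) → TangentSpace 𝓘(ℝ, E) x →L[ℝ] ℝ} {R : (x : M) → TangentSpace 𝓘(ℝ, E) x}
  (c : CD β R)

lemma dForm_const (a : ℝ) (x : M) : dForm 𝓘(ℝ, E) (fun _ : M => a) x = 0 := mfderiv_const

lemma X_one (x : M) : c.X (fun _ => 1) x = R x := by
  symm
  apply c.X_unique
  intro v
  rw [HB_apply, c.reeb.unit, c.reeb.kernel, dForm_const]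
  simp

/-- the part of the contact vector field in the contact distribution -/
def Y (g : M → ℝ) (x : M) : TangentSpace 𝓘(ℝ, E) x := c.X g x - g x • R x

lemma β_Y {g : M → ℝ} (hg : RI R g) (x : M) : β x (Y c g x) = 0 := by
  unfold Y
  rw [map_sub, map_smul, c.β_X (hg.first x), c.reeb.unit, smul_eq_mul, mul_one, sub_self]

lemma dβ_Y {g : M → ℝ} (hg : RI R g) (x : M) (v : TangentSpace 𝓘(ℝ, E) x) :
    extDer 𝓘(ℝ, E) β x (Y c g x) v = - dForm 𝓘(ℝ, E) g x v := by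
  have h1 : extDer 𝓘(ℝ, E) β x (Y c g x) v =
      extDer 𝓘(ℝ, E) β x (c.X g x) v - g x * extDer 𝓘(ℝ, E) β x (R x) v := by
    rw [← extDerL_apply, ← extDerL_apply, ← extDerL_apply]
    unfold Y
    rw [map_sub, map_smul]
    rfl
  rw [h1, c.reeb.kernel, c.dβ_X (hg.first x)]
  ring

lemma dForm_Y {g h : M → ℝ} (hh : RI R h) (x : M) :
    dForm 𝓘(ℝ, E) h x (Y c g x) = c.br g h x := by
  unfold Y CD.br
  rw [map_sub, map_smul, hh.first, smul_zero, sub_zero]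

include c in
lemma smooth_R : ContMDiff 𝓘(ℝ, E) 𝓘(ℝ, E).tangent ∞
    (fun x => (⟨x, R x⟩ : TangentBundle 𝓘(ℝ, E) M)) := by
  have h := c.smooth_X (f := fun _ => (1:ℝ)) contMDiff_const
  have e : (fun x => (⟨x, c.X (fun _ => 1) x⟩ : TangentBundle 𝓘(ℝ, E) M)) =
      fun x => (⟨x, R x⟩ : TangentBundle 𝓘(ℝ, E) M) := by
    ext1 x
    rw [X_one]
  rw [e] at h
  exact h

lemma smooth_Y {g : M → ℝ} (hg : RI R g) : ContMDiff 𝓘(ℝ, E) 𝓘(ℝ, E).tangent ∞
    (fun x => (⟨x, Y c g x⟩ : TangentBundle 𝓘(ℝ, E) M)) := by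
  intro x
  have h1 := contMDiffAt_smul_along (f := fun x : M => x) (hg.sm.neg x) (smooth_R c x)
  have h2 := contMDiffAt_add_along (f := fun x : M => x) (c.smooth_X hg.sm x) h1
  refine h2.congr_of_eventuallyEq (Filter.Eventually.of_forall fun y => ?_)
  show (⟨y, Y c g y⟩ : TangentBundle 𝓘(ℝ, E) M) = ⟨y, c.X g y + (- g y) • R y⟩
  congr 1
  unfold Y
  rw [neg_smul, sub_eq_add_neg]

section flow

variable [T2Space M] [CompactSpace M]

/-- the Reeb flow -/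
def RF : HF c (fun _ : M => (1:ℝ)) where
  Fl := fun x => Classical.choose (complete_of_compact (c.smooth_X (f := fun _ => (1:ℝ))
    contMDiff_const) isCompact_univ (fun x hx => absurd (mem_univ x) hx) x)
  zero := fun x => (Classical.choose_spec (complete_of_compact (c.smooth_X (f := fun _ => (1:ℝ))
    contMDiff_const) isCompact_univ (fun x hx => absurd (mem_univ x) hx) x)).1
  int := fun x => (Classical.choose_spec (complete_of_compact (c.smooth_X (f := fun _ => (1:ℝ))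
    contMDiff_const) isCompact_univ (fun x hx => absurd (mem_univ x) hx) x)).2
  smooth := contMDiff_const
  first := fun x => by rw [dForm_const]; rfl

/-- the Reeb flow, time second -/
def φ (x : M) (t : ℝ) : M := (RF c).Fl x t

lemma φ_zero (x : M) : φ c x 0 = x := (RF c).zero x

lemma φ_add (x : M) (s t : ℝ) : φ c x (s + t) = φ c (φ c x s) t := (RF c).add x s t

lemma smooth_φ : ContMDiff (𝓘(ℝ, E).prod 𝓘(ℝ, ℝ)) 𝓘(ℝ, E) ∞
    (fun p : M × ℝ => φ c p.1 p.2) := (RF c).smooth_flow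

lemma smooth_φt (t : ℝ) : ContMDiff 𝓘(ℝ, E) 𝓘(ℝ, E) ∞ (fun x => φ c x t) := (RF c).smooth_t t

lemma φ_strict (t : ℝ) (x : M) (u : TangentSpace 𝓘(ℝ, E) x) :
    β (φ c x t) (mfderiv 𝓘(ℝ, E) 𝓘(ℝ, E) (fun x => φ c x t) x u) = β x u := (RF c).strict t x u

lemma φ_cto (t : ℝ) : Cto β (fun x => φ c x t) (fun x => φ c x (-t)) := (RF c).cto t

lemma φ_int (x : M) : IsMIntegralCurve (I := 𝓘(ℝ, E)) (φ c x) R := by
  have h := (RF c).int x
  have e : c.X (fun _ => 1) = R := by ext1 x; exact X_one c x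
  rw [e] at h
  exact h

lemma RI.inv {g : M → ℝ} (hg : RI R g) (x : M) (t : ℝ) : g (φ c x t) = g x := by
  have h1 : ∀ s, HasDerivAt (fun s => g (φ c x s)) 0 s := by
    intro s
    have h := hasDerivAt_along (W := R) (φ_int c x s) hg.sm
    rw [hg.first] at h
    exact h
  have h2 := is_const_of_deriv_eq_zero (fun s => (h1 s).differentiableAt)
    (fun s => (h1 s).deriv) t 0
  rw [h2, φ_zero]

lemma RI.of_inv {g : M → ℝ} (hg : ContMDiff 𝓘(ℝ, E) 𝓘(ℝ, ℝ) ∞ g)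
    (h : ∀ x t, g (φ c x t) = g x) : RI R g := by
  refine ⟨hg, fun x => ?_⟩
  have h1 := hasDerivAt_along (W := R) (φ_int c x 0) hg
  have h2 : (fun s => g (φ c x s)) = fun _ => g x := by ext1 s; exact h x s
  rw [h2] at h1
  have h3 := h1.unique (hasDerivAt_const (0:ℝ) (g x))
  have e : ∀ z : M, z = x → dForm 𝓘(ℝ, E) g z (R z) = dForm 𝓘(ℝ, E) g x (R x) := by
    rintro _ rfl; rfl
  rw [← e _ (φ_zero c x)]
  exact h3

lemma RI.br {f g : M → ℝ} (hf : RI R f) (hg : RI R g) : RI R (c.br f g) := by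
  apply RI.of_inv c
  · intro x
    exact (smoothForm_dForm hg.sm).comp (c.smooth_X hf.sm x) le_rfl
  · intro x t
    exact (φ_cto c t).br_push c hg.sm (fun x => hg.inv c x t) hf.sm (fun x => hf.inv c x t) x

include c in
/-- maps preserving the contact form preserve the Reeb field -/
lemma push_R {g g' : M → M} (hg : Cto β g g') (x : M) :
    (mfderiv 𝓘(ℝ, E) 𝓘(ℝ, E) g x (R x) : E) = R (g x) := by
  have h := hg.push_X c (h := fun _ => (1:ℝ)) (h' := fun _ => (1:ℝ)) contMDiff_const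
    (fun _ => rfl) x
  rw [X_one, X_one] at h
  exact h

lemma push_Y {g g' : M → M} (hg : Cto β g g') {h : M → ℝ} (hh : RI R h)
    (hhh : ∀ x, h (g x) = h x) (x : M) :
    (mfderiv 𝓘(ℝ, E) 𝓘(ℝ, E) g x (Y c h x) : E) = Y c h (g x) := by
  have h1 := hg.push_X c hh.sm hhh x
  have h2 := push_R c hg x
  unfold Y
  have h3 : (mfderiv 𝓘(ℝ, E) 𝓘(ℝ, E) g x (c.X h x - h x • R x) : E) =
      (mfderiv 𝓘(ℝ, E) 𝓘(ℝ, E) g x (c.X h x) : E) -
        h x • (mfderiv 𝓘(ℝ, E) 𝓘(ℝ, E) g x (R x) : E) := by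
    have := map_sub (mfderiv 𝓘(ℝ, E) 𝓘(ℝ, E) g x) (c.X h x) (h x • R x)
    refine this.trans ?_
    congr 1
    exact map_smul _ _ _
  rw [h3, h1, h2, ← hhh x]

end flow

end Q169.SI
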