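import Mathlib
import Pool.Agent.Q169.SI.Base

/-! Vector fields tangent to the common levels of all first integrals. -/

open scoped Topology ContDiff Manifold
open Set Metric Bundle Pool.Agent.Helper186 Pool.Agent.H826R2.Wein

noncomputable section

namespace Q169.SI

set_option linter.unusedSectionVars false

universe u

variable {E : Type u} [NormedAddCommGroup E] [NormedSpace ℝ E] [FiniteDimensional ℝ E]
  {M : Type*} [TopologicalSpace M] [ChartedSpace E M] [IsManifold 𝓘(ℝ, E) ∞ M]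

lemma smooth_sum {ι : Type*} (s : Finset ι) {W : ι → (x : M) → TangentSpace 𝓘(ℝ, E) x}
    (h : ∀ i ∈ s, ContMDiff 𝓘(ℝ, E) 𝓘(ℝ, E).tangent ∞
      (fun x => (⟨x, W i x⟩ : TangentBundle 𝓘(ℝ, E) M))) :
    ContMDiff 𝓘(ℝ, E) 𝓘(ℝ, E).tangent ∞
      (fun x => (⟨x, ∑ i ∈ s, W i x⟩ : TangentBundle 𝓘(ℝ, E) M)) := by
  classical
  induction s using Finset.induction_on with
  | empty =>
    simp only [Finset.sum_empty]
    exact contMDiff_zeroSection ℝ (TangentSpace 𝓘(ℝ, E))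
  | insert i s hi ih =>
    simp only [Finset.sum_insert hi]
    intro x
    exact contMDiffAt_add_along (f := fun x : M => x) (h i (Finset.mem_insert_self i s) x)
      (ih (fun j hj => h j (Finset.mem_insert_of_mem hj)) x)

variable {β : (x : M) → TangentSpace 𝓘(ℝ, E) x →L[ℝ] ℝ} {R : (x : M) → TangentSpace 𝓘(ℝ, E) x}

/-- A field tangent to the common levels of all first integrals. -/
structure LF (c : CD β R) where
  n : ℕ
  a : Fin n → M → ℝ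
  g : Fin n → M → ℝ
  ha : ∀ i, RI R (a i)
  hg : ∀ i, RI R (g i)
  kill : ∀ h : M → ℝ, RI R h → ∀ x, dForm 𝓘(ℝ, E) h x (∑ i, a i x • Y c (g i) x) = 0

namespace LF

variable {c : CD β R} (L : LF c)

/-- the field -/
def Z (x : M) : TangentSpace 𝓘(ℝ, E) x := ∑ i, L.a i x • Y c (L.g i) x

/-- the one-form dual to the field -/
def mu (x : M) (u : TangentSpace 𝓘(ℝ, E) x) : ℝ := ∑ i, L.a i x * dForm 𝓘(ℝ, E) (L.g i) x u

lemma β_Z (x : M) : β x (L.Z x) = 0 := by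
  unfold Z
  rw [map_sum]
  exact Finset.sum_eq_zero fun i _ => by rw [map_smul, β_Y c (L.hg i), smul_zero]

lemma dβ_Z (x : M) (v : TangentSpace 𝓘(ℝ, E) x) :
    extDer 𝓘(ℝ, E) β x (L.Z x) v = - L.mu x v := by
  have h1 : extDer 𝓘(ℝ, E) β x (L.Z x) v =
      ∑ i, L.a i x * extDer 𝓘(ℝ, E) β x (Y c (L.g i) x) v := by
    rw [← extDerL_apply]
    unfold Z
    rw [map_sum, ContinuousLinearMap.sum_apply]
    refine Finset.sum_congr rfl fun i _ => ?_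
    rw [map_smul, ← extDerL_apply]
    rfl
  rw [h1]
  unfold mu
  rw [← Finset.sum_neg_distrib]
  refine Finset.sum_congr rfl fun i _ => ?_
  rw [dβ_Y c (L.hg i)]
  ring

lemma smooth_Z : ContMDiff 𝓘(ℝ, E) 𝓘(ℝ, E).tangent ∞
    (fun x => (⟨x, L.Z x⟩ : TangentBundle 𝓘(ℝ, E) M)) := by
  apply smooth_sum
  intro i _ x
  exact contMDiffAt_smul_along (f := fun x : M => x) ((L.ha i).sm x) (smooth_Y c (L.hg i) x)

lemma kill' {h : M → ℝ} (hh : RI R h) (x : M) : dForm 𝓘(ℝ, E) h x (L.Z x) = 0 := L.kill h hh x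

lemma Z_zero {x : M} (h : ∀ u, L.mu x u = 0) : L.Z x = 0 := by
  apply c.contact.nondeg x _ (L.β_Z x)
  intro v _
  rw [L.dβ_Z, h, neg_zero]

section flow

variable [T2Space M] [CompactSpace M]

/-- the flow -/
def ψ (x : M) : ℝ → M :=
  Classical.choose (complete_of_compact L.smooth_Z isCompact_univ
    (fun x hx => absurd (mem_univ x) hx) x)

lemma ψ_zero (x : M) : L.ψ x 0 = x :=
  (Classical.choose_spec (complete_of_compact L.smooth_Z isCompact_univ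
    (fun x hx => absurd (mem_univ x) hx) x)).1

lemma ψ_int (x : M) : IsMIntegralCurve (I := 𝓘(ℝ, E)) (L.ψ x) L.Z :=
  (Classical.choose_spec (complete_of_compact L.smooth_Z isCompact_univ
    (fun x hx => absurd (mem_univ x) hx) x)).2

lemma ψ_add (x : M) (s t : ℝ) : L.ψ x (s + t) = L.ψ (L.ψ x s) t := by
  have : IsManifold 𝓘(ℝ, E) 1 M := IsManifold.of_le (n := ∞) (by simp)
  exact flow_add L.smooth_Z L.ψ_zero L.ψ_int x s t

lemma smooth_ψ : ContMDiff (𝓘(ℝ, E).prod 𝓘(ℝ, ℝ)) 𝓘(ℝ, E) ∞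
    (fun p : M × ℝ => L.ψ p.1 p.2) := by
  have : IsManifold 𝓘(ℝ, E) 1 M := IsManifold.of_le (n := ∞) (by simp)
  exact contMDiff_flow L.smooth_Z L.ψ_zero L.ψ_int

lemma smooth_ψt (s : ℝ) : ContMDiff 𝓘(ℝ, E) 𝓘(ℝ, E) ∞ (fun x => L.ψ x s) :=
  L.smooth_ψ.comp (contMDiff_id.prodMk contMDiff_const)

/-- first integrals are constant along the flow -/
lemma inv {h : M → ℝ} (hh : RI R h) (x : M) (s : ℝ) : h (L.ψ x s) = h x := by
  have h1 : ∀ s, HasDerivAt (fun s => h (L.ψ x s)) 0 s := by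
    intro s
    have h2 := hasDerivAt_along (W := L.Z) (L.ψ_int x s) hh.sm
    rw [L.kill' hh] at h2
    exact h2
  have h2 := is_const_of_deriv_eq_zero (fun s => (h1 s).differentiableAt)
    (fun s => (h1 s).deriv) s 0
  rw [h2, L.ψ_zero]

lemma push_Z (x : M) (t : ℝ) :
    (mfderiv 𝓘(ℝ, E) 𝓘(ℝ, E) (fun x => φ c x t) x (L.Z x) : E) = L.Z (φ c x t) := by
  have h1 : (mfderiv 𝓘(ℝ, E) 𝓘(ℝ, E) (fun x => φ c x t) x (L.Z x) : E) =
      ∑ i, L.a i x • (mfderiv 𝓘(ℝ, E) 𝓘(ℝ, E) (fun x => φ c x t) x (Y c (L.g i) x) : E) := by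
    have h2 := map_sum (mfderiv 𝓘(ℝ, E) 𝓘(ℝ, E) (fun x => φ c x t) x)
      (fun i => L.a i x • Y c (L.g i) x) Finset.univ
    refine h2.trans ?_
    refine Finset.sum_congr rfl fun i _ => ?_
    exact map_smul _ _ _
  rw [h1]
  unfold Z
  refine Finset.sum_congr rfl fun i _ => ?_
  rw [push_Y c (φ_cto c t) (L.hg i) (fun x => (L.hg i).inv c x t) x, (L.ha i).inv c x t]

lemma comm (x : M) (s t : ℝ) : φ c (L.ψ x s) t = L.ψ (φ c x t) s := by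
  refine conj_flow L.smooth_Z (L.ψ_int x) (L.ψ_int (φ c x t)) (g := fun x => φ c x t)
    (smooth_φt c t) (fun s => L.push_Z _ t) ?_ s
  show φ c (L.ψ x 0) t = L.ψ (φ c x t) 0
  rw [L.ψ_zero, L.ψ_zero]

/-- the action of the plane -/
def Ξ (x : M) (v : ℝ × ℝ) : M := φ c (L.ψ x v.2) v.1

lemma Ξ_zero (x : M) : L.Ξ x 0 = x := by
  show φ c (L.ψ x 0) 0 = x
  rw [L.ψ_zero, φ_zero]

lemma Ξ_add (x : M) (v w : ℝ × ℝ) : L.Ξ x (v + w) = L.Ξ (L.Ξ x v) w := by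
  show φ c (L.ψ x (v.2 + w.2)) (v.1 + w.1) = φ c (L.ψ (φ c (L.ψ x v.2) v.1) w.2) w.1
  rw [L.ψ_add, φ_add, L.comm]

lemma smooth_Ξ : ContMDiff (𝓘(ℝ, E).prod 𝓘(ℝ, ℝ × ℝ)) 𝓘(ℝ, E) ∞
    (fun p : M × (ℝ × ℝ) => L.Ξ p.1 p.2) := by
  have h1 : ContMDiff (𝓘(ℝ, E).prod 𝓘(ℝ, ℝ × ℝ)) 𝓘(ℝ, ℝ) ∞
      (fun p : M × (ℝ × ℝ) => p.2.1) := contDiff_fst.contMDiff.comp contMDiff_snd
  have h2 : ContMDiff (𝓘(ℝ, E).prod 𝓘(ℝ, ℝ × ℝ)) 𝓘(ℝ, ℝ) ∞
      (fun p : M × (ℝ × ℝ) => p.2.2) := contDiff_snd.contMDiff.comp contMDiff_snd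
  exact (smooth_φ c).comp ((L.smooth_ψ.comp (contMDiff_fst.prodMk h2)).prodMk h1)

lemma inv_Ξ {h : M → ℝ} (hh : RI R h) (x : M) (v : ℝ × ℝ) : h (L.Ξ x v) = h x := by
  show h (φ c (L.ψ x v.2) v.1) = h x
  rw [hh.inv c, L.inv hh]

lemma ψ_const {x : M} (h : L.Z x = 0) (s : ℝ) : L.ψ x s = x := by
  have : IsManifold 𝓘(ℝ, E) 1 M := IsManifold.of_le (n := ∞) (by simp)
  have h1 : IsMIntegralCurve (I := 𝓘(ℝ, E)) (fun _ : ℝ => x) L.Z := by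
    intro t
    have h1 : HasMFDerivAt 𝓘(ℝ, ℝ) 𝓘(ℝ, E) (fun _ : ℝ => x) t (0 : ℝ →L[ℝ] E) :=
      hasMFDerivAt_const x t
    refine h1.congr_mfderiv ?_
    rw [h]
    refine ContinuousLinearMap.ext fun (r : ℝ) => ?_
    show (0:E) = r • (0:E)
    rw [smul_zero]
  have h2 : L.ψ x = fun _ => x :=
    isMIntegralCurve_Ioo_eq_of_contMDiff_boundaryless (t₀ := 0) (L.smooth_Z.of_le (by simp))
      (L.ψ_int x) h1 (L.ψ_zero x)
  rw [h2]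

lemma Z_ψ {x : M} (h : L.Z x ≠ 0) (s : ℝ) : L.Z (L.ψ x s) ≠ 0 := by
  intro h0
  apply h
  have h1 := L.ψ_const h0 (-s)
  rw [← L.ψ_add, add_neg_cancel, L.ψ_zero] at h1
  have h2 : ∀ y, y = x → L.Z y = 0 → L.Z x = 0 := by rintro _ rfl h; exact h
  exact h2 _ h1.symm h0

lemma Z_φ {x : M} (h : L.Z x ≠ 0) (t : ℝ) : L.Z (φ c x t) ≠ 0 := by
  intro h0
  apply h
  have h1 := L.push_Z (φ c x t) (-t)
  rw [h0] at h1
  have h2 : L.Z (φ c (φ c x t) (-t)) = 0 := by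
    refine h1.symm.trans ?_
    exact map_zero _
  have h3 : φ c (φ c x t) (-t) = x := by rw [← φ_add, add_neg_cancel, φ_zero]
  have h4 : ∀ y, y = x → L.Z y = 0 → L.Z x = 0 := by rintro _ rfl h; exact h
  exact h4 _ h3 h2

lemma Z_Ξ {x : M} (h : L.Z x ≠ 0) (v : ℝ × ℝ) : L.Z (L.Ξ x v) ≠ 0 := L.Z_φ (L.Z_ψ h v.2) v.1

/-- pull back of the differential of a first integral -/
lemma dForm_ψ {h : M → ℝ} (hh : RI R h) (x : M) (s : ℝ) (u : TangentSpace 𝓘(ℝ, E) x) :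
    dForm 𝓘(ℝ, E) h (L.ψ x s) (mfderiv 𝓘(ℝ, E) 𝓘(ℝ, E) (fun x => L.ψ x s) x u) =
      dForm 𝓘(ℝ, E) h x u := by
  have h1 : mfderiv 𝓘(ℝ, E) 𝓘(ℝ, ℝ) (h ∘ fun x => L.ψ x s) x =
      (mfderiv 𝓘(ℝ, E) 𝓘(ℝ, ℝ) h (L.ψ x s)).comp
      (mfderiv 𝓘(ℝ, E) 𝓘(ℝ, E) (fun x => L.ψ x s) x) :=
    mfderiv_comp x (hh.sm.mdifferentiableAt (by simp))
      ((L.smooth_ψt s).mdifferentiableAt (by simp))
  have h2 : (h ∘ fun x => L.ψ x s) = h := by ext1 y; exact L.inv hh y s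
  rw [h2] at h1
  exact (DFunLike.congr_fun h1 u).symm

/-- the dual forms are invariant -/
lemma mu_ψ (L' : LF c) (x : M) (s : ℝ) (u : TangentSpace 𝓘(ℝ, E) x) :
    L'.mu (L.ψ x s) (mfderiv 𝓘(ℝ, E) 𝓘(ℝ, E) (fun x => L.ψ x s) x u) = L'.mu x u := by
  unfold mu
  refine Finset.sum_congr rfl fun i _ => ?_
  rw [L.dForm_ψ (L'.hg i), L.inv (L'.ha i)]

/-- the flow with the time variable first -/
def iψ (p : ℝ × M) : M := L.ψ p.2 p.1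

lemma smooth_iψ : ContMDiff (𝓘(ℝ, ℝ).prod 𝓘(ℝ, E)) 𝓘(ℝ, E) ∞ L.iψ :=
  L.smooth_ψ.comp (contMDiff_snd.prodMk contMDiff_fst)

lemma dS_iψ (s : ℝ) (x : M) : dS 𝓘(ℝ, E) L.iψ s x = L.Z (L.ψ x s) := by
  have h := (L.ψ_int x s).mfderiv
  unfold dS
  show (mfderiv 𝓘(ℝ, ℝ) 𝓘(ℝ, E) (fun σ => L.ψ x σ) s) (1:ℝ) = _
  have h2 : (fun σ => L.ψ x σ) = L.ψ x := rfl
  rw [h2, h]
  show (1 : ℝ →L[ℝ] ℝ) 1 • L.Z (L.ψ x s) = _
  simp

/-- **The action of the flow on the contact form.** -/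
lemma pull_β (s : ℝ) (x : M) (u : TangentSpace 𝓘(ℝ, E) x) :
    β (L.ψ x s) (mfderiv 𝓘(ℝ, E) 𝓘(ℝ, E) (fun x => L.ψ x s) x u) = β x u - s * L.mu x u := by
  have hder : ∀ s, HasDerivAt (fun σ => β (L.iψ (σ, x)) (dX 𝓘(ℝ, E) 𝓘(ℝ, E) L.iψ σ x u))
      (- L.mu x u) s := by
    intro s
    have h1 := hasDerivAt_variation (I := 𝓘(ℝ, E)) (J := 𝓘(ℝ, E)) c.contact.smooth isOpen_univ
      L.smooth_iψ.contMDiffOn (mem_univ (s, x)) u
    refine h1.congr_deriv ?_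
    have h2 : (fun x' : M => β (L.iψ (s, x')) (dS 𝓘(ℝ, E) L.iψ s x')) = fun _ => (0:ℝ) := by
      ext1 x'
      rw [L.dS_iψ]
      exact L.β_Z _
    rw [h2]
    have h3 : mfderiv 𝓘(ℝ, E) 𝓘(ℝ, ℝ) (fun _ : M => (0:ℝ)) x = 0 := mfderiv_const
    have h4 : extDer 𝓘(ℝ, E) β (L.iψ (s, x)) (dS 𝓘(ℝ, E) L.iψ s x)
        (dX 𝓘(ℝ, E) 𝓘(ℝ, E) L.iψ s x u) = - L.mu x u := by
      rw [L.dS_iψ]
      have h5 := L.dβ_Z (L.ψ x s) (dX 𝓘(ℝ, E) 𝓘(ℝ, E) L.iψ s x u)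
      refine h5.trans ?_
      rw [neg_inj]
      exact L.mu_ψ L x s u
    rw [h4, h3]
    show - L.mu x u + 0 = - L.mu x u
    ring
  have hconst := is_const_of_deriv_eq_zero
    (f := fun σ => β (L.iψ (σ, x)) (dX 𝓘(ℝ, E) 𝓘(ℝ, E) L.iψ σ x u) + σ * L.mu x u)
    (fun s => ((hder s).add ((hasDerivAt_id s).mul_const _)).differentiableAt)
    (fun s => by
      have := ((hder s).add ((hasDerivAt_id s).mul_const (L.mu x u))).deriv
      refine this.trans ?_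
      ring) s 0
  have h5 : β (L.iψ (0, x)) (dX 𝓘(ℝ, E) 𝓘(ℝ, E) L.iψ 0 x u) = β x u := by
    have e0 : (fun x' : M => L.iψ (0, x')) = id := by ext1 y; exact L.ψ_zero y
    have e1 : (dX 𝓘(ℝ, E) 𝓘(ℝ, E) L.iψ 0 x u : E) = u := by
      unfold dX
      rw [e0, mfderiv_id]
      rfl
    have e2 : ∀ (z : M) (w : E), z = x → w = u → β z w = β x u := by
      rintro _ _ rfl rfl; rfl
    exact e2 _ _ (L.ψ_zero x) e1
  rw [h5] at hconst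
  have h6 : β (L.ψ x s) (mfderiv 𝓘(ℝ, E) 𝓘(ℝ, E) (fun x => L.ψ x s) x u) + s * L.mu x u =
    β x u + 0 * L.mu x u := hconst
  linarith

end flow

end LF

end Q169.SI
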