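import Mathlib

/-! Local structure of families of maps preserving a submersion. -/

open scoped Topology ContDiff Manifold
open Set Metric Bundle

noncomputable section

namespace Q169.SI

set_option linter.unusedSectionVars false

section vec

variable {E : Type*} [NormedAddCommGroup E] [NormedSpace ℝ E] [FiniteDimensional ℝ E]
  {V : Type*} [NormedAddCommGroup V] [NormedSpace ℝ V] [FiniteDimensional ℝ V]

/-- an implicit function -/
lemma solve {Θ : E × V → V} {ξ₀ : E} {v₀ : V} (hΘ : ContDiffAt ℝ ∞ Θ (ξ₀, v₀))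
    (hd : HasFDerivAt (fun v => Θ (ξ₀, v)) (ContinuousLinearMap.id ℝ V) v₀) :
    ∃ g : E × V → V, ContDiffAt ℝ ∞ g (ξ₀, Θ (ξ₀, v₀)) ∧ g (ξ₀, Θ (ξ₀, v₀)) = v₀ ∧
      (∀ᶠ q in 𝓝 (ξ₀, Θ (ξ₀, v₀)), Θ (q.1, g q) = q.2) ∧
      (∀ᶠ q in 𝓝 (ξ₀, v₀), g (q.1, Θ q) = q.2) := by
  set D : E × V →L[ℝ] V := fderiv ℝ Θ (ξ₀, v₀) with hD
  have hΘd : HasFDerivAt Θ D (ξ₀, v₀) := (hΘ.differentiableAt (by simp)).hasFDerivAt
  have hDv : ∀ v : V, D (0, v) = v := by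
    intro v
    have h1 : HasFDerivAt (fun v : V => ((ξ₀, v) : E × V))
        (ContinuousLinearMap.inr ℝ E V) v₀ := hasFDerivAt_prodMk_right ξ₀ v₀
    have h2 := hΘd.comp v₀ h1
    have h3 := h2.unique hd
    have h4 := DFunLike.congr_fun h3 v
    simpa using h4
  have hDs : ∀ (ξ : E) (v : V), D (ξ, v) = D (ξ, 0) + v := by
    intro ξ v
    have : ((ξ, v) : E × V) = (ξ, 0) + (0, v) := by simp
    rw [this, map_add, hDv]
  set Hf : E × V → E × V := fun q => (q.1, Θ q) with hHf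
  have hH : ContDiffAt ℝ ∞ Hf (ξ₀, v₀) := contDiffAt_fst.prodMk hΘ
  have hHd0 : HasFDerivAt Hf ((ContinuousLinearMap.fst ℝ E V).prod D) (ξ₀, v₀) :=
    hasFDerivAt_fst.prodMk hΘd
  let e : (E × V) ≃L[ℝ] (E × V) := ContinuousLinearEquiv.equivOfInverse
    ((ContinuousLinearMap.fst ℝ E V).prod D)
    ((ContinuousLinearMap.fst ℝ E V).prod
      (ContinuousLinearMap.snd ℝ E V - (D.comp (ContinuousLinearMap.inl ℝ E V)).comp
        (ContinuousLinearMap.fst ℝ E V)))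
    (by
      rintro ⟨ξ, v⟩
      ext
      · simp
      · simp [hDs ξ v])
    (by
      rintro ⟨ξ, v⟩
      ext
      · simp
      · simp [hDs ξ (v - D (ξ, 0))])
  have hHd : HasFDerivAt Hf (e : E × V →L[ℝ] E × V) (ξ₀, v₀) := by
    refine hHd0.congr_fderiv ?_
    refine ContinuousLinearMap.ext fun q => rfl
  have hn : (∞ : WithTop ℕ∞) ≠ 0 := by simp
  let φ := hH.toOpenPartialHomeomorph Hf hHd hn
  have hcoe : ∀ q, φ q = Hf q := fun q => rfl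
  have hsrc : (ξ₀, v₀) ∈ φ.source := hH.mem_toOpenPartialHomeomorph_source hHd hn
  have htgt : Hf (ξ₀, v₀) ∈ φ.target := φ.map_source hsrc
  refine ⟨fun q => (φ.symm q).2, ?_, ?_, ?_, ?_⟩
  · have h := hH.to_localInverse hHd hn
    have h2 : ContDiffAt ℝ ∞ φ.symm (Hf (ξ₀, v₀)) := h
    exact contDiffAt_snd.comp _ h2
  · have h := φ.left_inv hsrc
    exact congrArg Prod.snd h
  · have h1 : φ.target ∈ 𝓝 (ξ₀, Θ (ξ₀, v₀)) := φ.open_target.mem_nhds htgt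
    filter_upwards [h1] with q hq
    have h2 : Hf (φ.symm q) = q := φ.right_inv hq
    have h3 : (φ.symm q).1 = q.1 := (congrArg Prod.fst h2 : (Hf (φ.symm q)).1 = q.1)
    have h4 : Θ (φ.symm q) = q.2 := (congrArg Prod.snd h2 : (Hf (φ.symm q)).2 = q.2)
    have h5 : (q.1, (φ.symm q).2) = φ.symm q := by rw [← h3]
    show Θ (q.1, (φ.symm q).2) = q.2
    rw [h5, h4]
  · have h1 : φ.source ∈ 𝓝 (ξ₀, v₀) := φ.open_source.mem_nhds hsrc
    filter_upwards [h1] with q hq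
    have h2 : φ.symm (Hf q) = q := φ.left_inv hq
    show (φ.symm (Hf q)).2 = q.2
    rw [h2]

end vec

universe u

variable {E : Type u} [NormedAddCommGroup E] [NormedSpace ℝ E] [FiniteDimensional ℝ E]
  {M : Type*} [TopologicalSpace M] [ChartedSpace E M] [IsManifold 𝓘(ℝ, E) ∞ M]
  {K : Type*} [NormedAddCommGroup K] [NormedSpace ℝ K] [FiniteDimensional ℝ K]
  {V : Type*} [NormedAddCommGroup V] [NormedSpace ℝ V] [FiniteDimensional ℝ V]

/-- **Local solution lemma.** -/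
theorem local_solve {F : M → K} {Ξ : M → V → M} {x₀ : M} {v₀ : V}
    (hΞ : ContMDiff (𝓘(ℝ, E).prod 𝓘(ℝ, V)) 𝓘(ℝ, E) ∞ (fun p : M × V => Ξ p.1 p.2))
    (hF : ContMDiff 𝓘(ℝ, E) 𝓘(ℝ, K) ∞ F) (hFΞ : ∀ x v, F (Ξ x v) = F x) (h0 : Ξ x₀ v₀ = x₀)
    (hs : ∀ k : K, ∃ w : E, (mfderiv 𝓘(ℝ, E) 𝓘(ℝ, K) F x₀ w : K) = k)
    (hi : ∀ w : V, (mfderiv 𝓘(ℝ, V) 𝓘(ℝ, E) (Ξ x₀) v₀ w : E) = 0 → w = 0)
    (hd : Module.finrank ℝ E = Module.finrank ℝ K + Module.finrank ℝ V) :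
    ∃ vh : M × M → V, ContMDiffAt (𝓘(ℝ, E).prod 𝓘(ℝ, E)) 𝓘(ℝ, V) ∞ vh (x₀, x₀) ∧
      vh (x₀, x₀) = v₀ ∧
      (∀ᶠ q in 𝓝 (x₀, x₀), F q.1 = F q.2 → Ξ q.1 (vh q) = q.2) ∧
      (∀ᶠ q in 𝓝 (x₀, v₀), vh (q.1, Ξ q.1 q.2) = q.2) := by
  set χ := extChartAt 𝓘(ℝ, E) x₀ with hχ
  set ξ₀ := χ x₀ with hξ₀
  have hsrc : x₀ ∈ χ.source := mem_extChartAt_source x₀
  have hsrc_n : χ.source ∈ 𝓝 x₀ := extChartAt_source_mem_nhds x₀
  have hsymm0 : χ.symm ξ₀ = x₀ := χ.left_inv hsrc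
  have hχs : ContMDiffAt 𝓘(ℝ, E) 𝓘(ℝ, E) ∞ χ x₀ := contMDiffAt_extChartAt
  have htgt_n : χ.target ∈ 𝓝 ξ₀ := extChartAt_target_mem_nhds x₀
  have hχi : ContMDiffAt 𝓘(ℝ, E) 𝓘(ℝ, E) ∞ χ.symm ξ₀ :=
    (contMDiffOn_extChartAt_symm x₀).contMDiffAt htgt_n
  have hΞx : ContMDiff 𝓘(ℝ, V) 𝓘(ℝ, E) ∞ (Ξ x₀) :=
    hΞ.comp (contMDiff_const.prodMk contMDiff_id)
  -- the derivative in `v`
  have hχs' : ContMDiffAt 𝓘(ℝ, E) 𝓘(ℝ, E) ∞ χ (Ξ x₀ v₀) := by rw [h0]; exact hχs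
  let D1 : E →L[ℝ] E := mfderiv 𝓘(ℝ, E) 𝓘(ℝ, E) χ (Ξ x₀ v₀)
  let D2 : V →L[ℝ] E := mfderiv 𝓘(ℝ, V) 𝓘(ℝ, E) (Ξ x₀) v₀
  have hAd : HasFDerivAt (𝕜 := ℝ) (E := V) (F := E) (fun v => χ (Ξ x₀ v)) (D1.comp D2) v₀ :=
    hasMFDerivAt_iff_hasFDerivAt.mp
      (((hχs'.mdifferentiableAt (by simp)).hasMFDerivAt).comp v₀
        ((hΞx v₀).mdifferentiableAt (by simp)).hasMFDerivAt)
  have hD1 : Function.Injective D1 := by
    have hi' := isInvertible_mfderiv_extChartAt (I := 𝓘(ℝ, E)) (x := x₀) (y := Ξ x₀ v₀)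
      (by rw [h0]; exact mem_extChartAt_source x₀)
    obtain ⟨e, he⟩ := hi'
    intro a b hab
    apply e.injective
    have h1 : ∀ w : E, e w = D1 w := fun w => DFunLike.congr_fun he w
    rw [h1, h1, hab]
  set A : V →L[ℝ] E := D1.comp D2 with hA
  have hAinj : ∀ w, A w = 0 → w = 0 := by
    intro w hw
    exact hi w (hD1 (hw.trans (map_zero D1).symm))
  obtain ⟨p0, hp0⟩ := LinearMap.exists_leftInverse_of_injective (A : V →ₗ[ℝ] E)
    (LinearMap.ker_eq_bot'.2 hAinj)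
  let p : E →L[ℝ] V := LinearMap.toContinuousLinearMap p0
  have hpA : ∀ w, p (A w) = w := fun w => LinearMap.congr_fun hp0 w
  -- the map `Θ`
  set Θ : E × V → V := fun q => p (χ (Ξ (χ.symm q.1) q.2)) with hΘ
  have hΞc : ContMDiffAt 𝓘(ℝ, E × V) 𝓘(ℝ, E) ∞ (fun q : E × V => Ξ (χ.symm q.1) q.2)
      (ξ₀, v₀) := by
    have h1 : ContMDiffAt 𝓘(ℝ, E × V) 𝓘(ℝ, E) ∞ (fun q : E × V => χ.symm q.1) (ξ₀, v₀) :=
      ContMDiffAt.comp (ξ₀, v₀) (g := χ.symm) (f := fun q : E × V => q.1) hχi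
        (contDiff_fst.contMDiff _)
    have h2 : ContMDiffAt 𝓘(ℝ, E × V) 𝓘(ℝ, V) ∞ (fun q : E × V => q.2) (ξ₀, v₀) :=
      contDiff_snd.contMDiff _
    exact ContMDiffAt.comp (ξ₀, v₀) (g := fun r : M × V => Ξ r.1 r.2)
      (f := fun q : E × V => (χ.symm q.1, q.2)) (hΞ _) (h1.prodMk h2)
  have hval : Ξ (χ.symm ξ₀) v₀ = x₀ := by rw [hsymm0, h0]
  have hΘs : ContDiffAt ℝ ∞ Θ (ξ₀, v₀) := by
    have h1 : ContMDiffAt 𝓘(ℝ, E × V) 𝓘(ℝ, E) ∞ (fun q : E × V => χ (Ξ (χ.symm q.1) q.2))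
        (ξ₀, v₀) := by
      refine ContMDiffAt.comp (ξ₀, v₀) (g := χ) (f := fun q : E × V => Ξ (χ.symm q.1) q.2) ?_ hΞc
      show ContMDiffAt 𝓘(ℝ, E) 𝓘(ℝ, E) ∞ χ (Ξ (χ.symm ξ₀) v₀)
      rw [hval]; exact hχs
    exact p.contDiff.contDiffAt.comp _ (contMDiffAt_iff_contDiffAt.1 h1)
  have hΘd : HasFDerivAt (fun v => Θ (ξ₀, v)) (ContinuousLinearMap.id ℝ V) v₀ := by
    have h1 : HasFDerivAt (fun v => p (χ (Ξ x₀ v))) (p.comp A) v₀ :=
      p.hasFDerivAt.comp v₀ hAd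
    have h2 : (fun v => Θ (ξ₀, v)) = fun v => p (χ (Ξ x₀ v)) := by
      ext1 v
      show p (χ (Ξ (χ.symm ξ₀) v)) = _
      rw [hsymm0]
    rw [h2]
    refine h1.congr_fderiv ?_
    exact ContinuousLinearMap.ext fun w => hpA w
  have hΘ0 : Θ (ξ₀, v₀) = p ξ₀ := by
    show p (χ (Ξ (χ.symm ξ₀) v₀)) = _
    rw [hval]
  obtain ⟨g, hg1, hg2, hg3, hg4⟩ := solve hΘs hΘd
  rw [hΘ0] at hg1 hg2 hg3
  -- the function
  set vh : M × M → V := fun q => g (χ q.1, p (χ q.2)) with hvh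
  have hc1 : ContMDiffAt (𝓘(ℝ, E).prod 𝓘(ℝ, E)) 𝓘(ℝ, E × V) ∞
      (fun q : M × M => ((χ q.1, p (χ q.2)) : E × V)) (x₀, x₀) := by
    have h1 : ContMDiffAt (𝓘(ℝ, E).prod 𝓘(ℝ, E)) 𝓘(ℝ, E) ∞ (fun q : M × M => χ q.1) (x₀, x₀) :=
      ContMDiffAt.comp (x₀, x₀) (g := χ) (f := fun q : M × M => q.1) hχs contMDiffAt_fst
    have h2 : ContMDiffAt (𝓘(ℝ, E).prod 𝓘(ℝ, E)) 𝓘(ℝ, E) ∞ (fun q : M × M => χ q.2) (x₀, x₀) :=
      ContMDiffAt.comp (x₀, x₀) (g := χ) (f := fun q : M × M => q.2) hχs contMDiffAt_snd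
    have h3 : ContMDiffAt (𝓘(ℝ, E).prod 𝓘(ℝ, E)) 𝓘(ℝ, V) ∞ (fun q : M × M => p (χ q.2))
        (x₀, x₀) :=
      ContMDiffAt.comp (x₀, x₀) (g := p) (f := fun q : M × M => χ q.2)
        p.contDiff.contMDiff.contMDiffAt h2
    exact h1.prodMk_space h3
  have hvs : ContMDiffAt (𝓘(ℝ, E).prod 𝓘(ℝ, E)) 𝓘(ℝ, V) ∞ vh (x₀, x₀) :=
    ContMDiffAt.comp (x₀, x₀) (g := g) (f := fun q : M × M => ((χ q.1, p (χ q.2)) : E × V))
      hg1.contMDiffAt hc1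
  have hv0 : vh (x₀, x₀) = v₀ := hg2
  refine ⟨vh, hvs, hv0, ?_, ?_⟩
  · -- the injectivity of `G`
    set Ft : E → K := fun ξ => F (χ.symm ξ) with hFt
    have hFts : ContMDiffAt 𝓘(ℝ, E) 𝓘(ℝ, K) ∞ Ft ξ₀ :=
      ContMDiffAt.comp ξ₀ (g := F) (f := χ.symm) (hF _) hχi
    have hFts' : ContDiffAt ℝ ∞ Ft ξ₀ := contMDiffAt_iff_contDiffAt.1 hFts
    set B : E →L[ℝ] K := fderiv ℝ Ft ξ₀ with hB
    have hFd : HasFDerivAt Ft B ξ₀ := (hFts'.differentiableAt (by simp)).hasFDerivAt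
    have hBs : Function.Surjective B := by
      intro k
      obtain ⟨w, hw⟩ := hs k
      have h1 : HasMFDerivAt 𝓘(ℝ, E) 𝓘(ℝ, K) (Ft ∘ χ) x₀
          (B.comp (mfderiv 𝓘(ℝ, E) 𝓘(ℝ, E) χ x₀)) :=
        HasMFDerivAt.comp x₀ (g := Ft) (f := χ) hFd.hasMFDerivAt
          (hχs.mdifferentiableAt (by simp)).hasMFDerivAt
      have h2 : F =ᶠ[𝓝 x₀] Ft ∘ χ := by
        filter_upwards [hsrc_n] with y hy
        show F y = F (χ.symm (χ y))
        rw [χ.left_inv hy]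
      have h3 := (h1.congr_of_eventuallyEq h2).mfderiv
      refine ⟨(mfderiv 𝓘(ℝ, E) 𝓘(ℝ, E) χ x₀ w : E), ?_⟩
      rw [← hw, h3]
      rfl
    have hBA : ∀ w, B (A w) = 0 := by
      intro w
      have h1 : HasFDerivAt (fun v => Ft (χ (Ξ x₀ v))) (B.comp A) v₀ := by
        have h2 : HasFDerivAt Ft B (χ (Ξ x₀ v₀)) := by rw [h0]; exact hFd
        exact h2.comp v₀ hAd
      have h2 : (fun v => Ft (χ (Ξ x₀ v))) =ᶠ[𝓝 v₀] fun _ => F x₀ := by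
        have h3 : ∀ᶠ v in 𝓝 v₀, Ξ x₀ v ∈ χ.source := by
          have h4 : ContinuousAt (Ξ x₀) v₀ := hΞx.continuous.continuousAt
          apply h4.eventually_mem
          rw [h0]
          exact hsrc_n
        filter_upwards [h3] with v hv
        show F (χ.symm (χ (Ξ x₀ v))) = F x₀
        rw [χ.left_inv hv, hFΞ]
      have h3 := (h1.congr_of_eventuallyEq h2.symm).unique (hasFDerivAt_const (F x₀) v₀)
      exact DFunLike.congr_fun h3 w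
    set G : E → K × V := fun ξ => (Ft ξ, p ξ) with hG
    have hGs : ContDiffAt ℝ ∞ G ξ₀ := hFts'.prodMk p.contDiff.contDiffAt
    have hGd : HasFDerivAt G (B.prod p) ξ₀ := hFd.prodMk p.hasFDerivAt
    -- kernel of `B`
    have hrange : LinearMap.range (A : V →ₗ[ℝ] E) = LinearMap.ker (B : E →ₗ[ℝ] K) := by
      apply Submodule.eq_of_le_of_finrank_eq
      · rintro _ ⟨w, rfl⟩
        exact hBA w
      · have h1 := LinearMap.finrank_range_add_finrank_ker (B : E →ₗ[ℝ] K)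
        rw [LinearMap.range_eq_top.2 hBs, finrank_top] at h1
        have h2 := LinearMap.finrank_range_of_inj (f := (A : V →ₗ[ℝ] E))
          (LinearMap.ker_eq_bot.1 (LinearMap.ker_eq_bot'.2 hAinj))
        rw [h2]
        omega
    have hGinj : Function.Injective (B.prod p) := by
      intro a b hab
      rw [← sub_eq_zero]
      have h1 : (B.prod p) (a - b) = 0 := by rw [map_sub, hab, sub_self]
      have h2 : B (a - b) = 0 := congrArg Prod.fst h1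
      have h3 : p (a - b) = 0 := congrArg Prod.snd h1
      have h4 : a - b ∈ LinearMap.ker (B : E →ₗ[ℝ] K) := h2
      rw [← hrange] at h4
      obtain ⟨w, hw⟩ := h4
      have hw' : A w = a - b := hw
      rw [← hw', hpA] at h3
      rw [← hw', h3, map_zero]
    have hGsurj : Function.Surjective (B.prod p) := by
      have h1 : Module.finrank ℝ E = Module.finrank ℝ (K × V) := by
        rw [Module.finrank_prod]; exact hd
      exact (LinearMap.injective_iff_surjective_of_finrank_eq_finrank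
        (f := ((B.prod p : E →L[ℝ] K × V) : E →ₗ[ℝ] K × V)) h1).1 hGinj
    let eG : E ≃L[ℝ] (K × V) := ContinuousLinearEquiv.ofBijective (B.prod p)
      (LinearMap.ker_eq_bot.2 hGinj) (LinearMap.range_eq_top.2 hGsurj)
    have hGd' : HasStrictFDerivAt G (eG : E →L[ℝ] K × V) ξ₀ := by
      have h1 := hGs.hasStrictFDerivAt (by simp)
      have h2 : fderiv ℝ G ξ₀ = (eG : E →L[ℝ] K × V) := by
        rw [hGd.fderiv]
        exact ContinuousLinearMap.ext fun q => rfl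
      rw [h2] at h1
      exact h1
    have hloc := hGd'.eventually_left_inverse
    -- continuity of the two points
    have hcv : ContinuousAt vh (x₀, x₀) := hvs.continuousAt
    have hca : ContinuousAt (fun q : M × M => Ξ q.1 (vh q)) (x₀, x₀) := by
      have h1 : ContinuousAt (fun q : M × M => ((q.1, vh q) : M × V)) (x₀, x₀) :=
        continuousAt_fst.prodMk hcv
      exact ContinuousAt.comp (g := fun r : M × V => Ξ r.1 r.2) hΞ.continuous.continuousAt h1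
    have hca0 : Ξ x₀ (vh (x₀, x₀)) = x₀ := by rw [hv0, h0]
    have e1 : ∀ᶠ q in 𝓝 ((x₀, x₀) : M × M), Ξ q.1 (vh q) ∈ χ.source := by
      apply hca.eventually_mem
      show χ.source ∈ 𝓝 (Ξ x₀ (vh (x₀, x₀)))
      rw [hca0]; exact hsrc_n
    have hct : Filter.Tendsto (fun q : M × M => χ (Ξ q.1 (vh q))) (𝓝 (x₀, x₀)) (𝓝 ξ₀) := by
      have h1 : Filter.Tendsto χ (𝓝 x₀) (𝓝 ξ₀) := hχs.continuousAt
      have h2 : Filter.Tendsto (fun q : M × M => Ξ q.1 (vh q)) (𝓝 (x₀, x₀)) (𝓝 x₀) := by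
        have h3 : Filter.Tendsto (fun q : M × M => Ξ q.1 (vh q)) (𝓝 (x₀, x₀))
          (𝓝 (Ξ x₀ (vh (x₀, x₀)))) := hca
        rwa [hca0] at h3
      exact h1.comp h2
    have e2 := hct.eventually hloc
    have e3 : ∀ᶠ q in 𝓝 ((x₀, x₀) : M × M), q.1 ∈ χ.source ∧ q.2 ∈ χ.source :=
      (continuousAt_fst.eventually_mem hsrc_n).and (continuousAt_snd.eventually_mem hsrc_n)
    have hc2 : Filter.Tendsto (fun q : M × M => χ q.2) (𝓝 (x₀, x₀)) (𝓝 ξ₀) := by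
      have h1 : Filter.Tendsto χ (𝓝 x₀) (𝓝 ξ₀) := hχs.continuousAt
      have h2 : Filter.Tendsto (fun q : M × M => q.2) (𝓝 (x₀, x₀)) (𝓝 x₀) := continuousAt_snd
      exact h1.comp h2
    have e4 := hc2.eventually hloc
    have hc3 : Filter.Tendsto (fun q : M × M => ((χ q.1, p (χ q.2)) : E × V)) (𝓝 (x₀, x₀))
        (𝓝 (ξ₀, p ξ₀)) := hc1.continuousAt
    have e5 := hc3.eventually hg3
    filter_upwards [e1, e2, e3, e4, e5] with q h1 h2 h3 h4 h5 h6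
    have k1 : G (χ (Ξ q.1 (vh q))) = G (χ q.2) := by
      apply Prod.ext
      · show F (χ.symm (χ (Ξ q.1 (vh q)))) = F (χ.symm (χ q.2))
        rw [χ.left_inv h1, χ.left_inv h3.2, hFΞ, h6]
      · show p (χ (Ξ q.1 (vh q))) = p (χ q.2)
        have h7 : p (χ (Ξ (χ.symm (χ q.1)) (g (χ q.1, p (χ q.2))))) = p (χ q.2) := h5
        rw [χ.left_inv h3.1] at h7
        exact h7
    have k2 : χ (Ξ q.1 (vh q)) = χ q.2 := by
      rw [← h2, ← h4, k1]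
    exact χ.injOn h1 h3.2 k2
  · have hc : Filter.Tendsto (fun q : M × V => ((χ q.1, q.2) : E × V)) (𝓝 (x₀, v₀))
        (𝓝 (ξ₀, v₀)) := by
      have h1 : Filter.Tendsto χ (𝓝 x₀) (𝓝 ξ₀) := hχs.continuousAt
      have h2 : Filter.Tendsto (fun q : M × V => q.1) (𝓝 (x₀, v₀)) (𝓝 x₀) := continuousAt_fst
      exact (h1.comp h2).prodMk_nhds continuousAt_snd
    have e1 := hc.eventually hg4
    have e2 : ∀ᶠ q in 𝓝 ((x₀, v₀) : M × V), q.1 ∈ χ.source :=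
      continuousAt_fst.eventually_mem hsrc_n
    filter_upwards [e1, e2] with q h1 h2
    have h3 : g (χ q.1, p (χ (Ξ (χ.symm (χ q.1)) q.2))) = q.2 := h1
    rw [χ.left_inv h2] at h3
    exact h3

end Q169.SI
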