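import Mathlib
import Pool.Agent.Q169.SI.Leaf
import Pool.Agent.Q169.SI.Local

/-! Existence and uniqueness of fields tangent to the levels of the first integrals. -/

open scoped Topology ContDiff Manifold
open Set Metric Bundle Pool.Agent.Helper186 Pool.Agent.H826R2.Wein

noncomputable section

namespace Q169.SI

set_option linter.unusedSectionVars false

universe u

variable {E : Type u} [NormedAddCommGroup E] [NormedSpace ℝ E] [FiniteDimensional ℝ E]
  {M : Type*} [TopologicalSpace M] [ChartedSpace E M] [IsManifold 𝓘(ℝ, E) ∞ M]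

/-- the differential of a function as a covector -/
def dl (h : M → ℝ) (x : M) : E →L[ℝ] ℝ := dForm 𝓘(ℝ, E) h x

variable {β : (x : M) → TangentSpace 𝓘(ℝ, E) x →L[ℝ] ℝ} {R : (x : M) → TangentSpace 𝓘(ℝ, E) x}

/-- the form at a point -/
def bL (β : (x : M) → TangentSpace 𝓘(ℝ, E) x →L[ℝ] ℝ) (x : M) : E →ₗ[ℝ] ℝ :=
  ((show E →L[ℝ] ℝ from β x) : E →ₗ[ℝ] ℝ)

/-- a bilinear form from a continuous one -/
def oL₀ (Ω : E →L[ℝ] E →L[ℝ] ℝ) : E →ₗ[ℝ] E →ₗ[ℝ] ℝ :=
  LinearMap.mk₂ ℝ (fun u v => Ω u v)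
    (fun a b c => by simp) (fun a b c => by simp) (fun a b c => by simp) (fun a b c => by simp)

/-- the exterior derivative at a point -/
def oL (β : (x : M) → TangentSpace 𝓘(ℝ, E) x →L[ℝ] ℝ) (x : M) : E →ₗ[ℝ] E →ₗ[ℝ] ℝ :=
  oL₀ (extDerL 𝓘(ℝ, E) β x)

lemma oL_apply (x : M) (u v : E) : oL β x u v = extDer 𝓘(ℝ, E) β x u v := extDerL_apply β x u v

lemma oL_smul (x : M) (r : ℝ) (u v : E) :
    extDer 𝓘(ℝ, E) β x (r • u) v = r * extDer 𝓘(ℝ, E) β x u v := by
  have h1 : oL β x (r • u) v = r * oL β x u v := by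
    rw [map_smul, LinearMap.smul_apply, smul_eq_mul]
  rw [oL_apply, oL_apply] at h1
  exact h1

/-- Standing hypotheses: at each point there are `N` independent first integrals, and never more. -/
structure Hyp (c : CD β R) (N : ℕ) : Prop where
  dim : Module.finrank ℝ E = N + 2
  rank : ∀ x : M, ∃ I : Fin N → M → ℝ, (∀ i, RI R (I i)) ∧
    LinearIndependent ℝ (fun i => dl (E := E) (I i) x)
  top : ∀ (x : M) (J : Fin (N + 1) → M → ℝ), (∀ i, RI R (J i)) →
    ¬ LinearIndependent ℝ (fun i => dl (E := E) (J i) x)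

variable (c : CD β R)

include c in
lemma pd (x : M) : PD (bL β x) (oL β x) (R x : E) where
  unit := c.reeb.unit x
  ker := fun v => (oL_apply (E := E) x (show E from R x) v).trans (c.reeb.kernel x v)
  alt := fun u v => (oL_apply x u v).trans ((extDer_antisymm x u v).trans
    (congrArg Neg.neg (oL_apply x v u).symm))
  nondeg := fun u hu h => by
    apply c.contact.nondeg x u hu
    intro v _
    exact (oL_apply x u v).symm.trans (h v)

/-- the fields at a point -/
def Yf {N : ℕ} (I : Fin N → M → ℝ) (x : M) : Fin N → E := fun i => (Y c (I i) x : E)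

lemma bL_Yf {N : ℕ} {I : Fin N → M → ℝ} (hI : ∀ i, RI R (I i)) (x : M) (i : Fin N) :
    bL β x (Yf c I x i) = 0 := β_Y c (hI i) x

lemma oL_Yf {N : ℕ} {I : Fin N → M → ℝ} (hI : ∀ i, RI R (I i)) (x : M) (i : Fin N) (v : E) :
    oL β x (Yf c I x i) v = - dl (E := E) (I i) x v := by
  rw [oL_apply]; exact dβ_Y c (hI i) x v

lemma indep_Yf {N : ℕ} {I : Fin N → M → ℝ} (hI : ∀ i, RI R (I i)) (x : M) :
    LinearIndependent ℝ (Yf c I x) ↔ LinearIndependent ℝ (fun i => dl (E := E) (I i) x) := by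
  rw [Fintype.linearIndependent_iff, Fintype.linearIndependent_iff]
  have key : ∀ b : Fin N → ℝ, (∑ i, b i • Yf c I x i = 0) ↔
      (∑ i, b i • dl (E := E) (I i) x = 0) := by
    intro b
    have h1 : ∀ v, oL β x (∑ i, b i • Yf c I x i) v = - (∑ i, b i • dl (E := E) (I i) x) v := by
      intro v
      rw [map_sum, LinearMap.sum_apply, ContinuousLinearMap.sum_apply, ← Finset.sum_neg_distrib]
      refine Finset.sum_congr rfl fun i _ => ?_
      rw [map_smul, LinearMap.smul_apply, oL_Yf c hI, ContinuousLinearMap.smul_apply, smul_neg]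
    constructor
    · intro h
      refine ContinuousLinearMap.ext fun v => ?_
      have h2 := h1 v
      rw [h, map_zero] at h2
      have h3 : (0:ℝ) = - (∑ i, b i • dl (E := E) (I i) x) v := h2
      rw [eq_comm, neg_eq_zero] at h3
      exact h3
    · intro h
      apply (pd c x).nondeg _ (β_Yc (bL_Yf c hI x) b)
      intro v
      have h2 := h1 v
      rw [h] at h2
      refine h2.trans ?_
      simp
  constructor
  · intro h b hb
    exact h b ((key b).2 hb)
  · intro h b hb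
    exact h b ((key b).1 hb)

/-- the Gram matrix -/
def Pm {N : ℕ} (I : Fin N → M → ℝ) (x : M) : Matrix (Fin N) (Fin N) ℝ :=
  Gm (oL β x) (Yf c I x)

lemma Pm_apply {N : ℕ} {I : Fin N → M → ℝ} (hI : ∀ i, RI R (I i)) (x : M) (i j : Fin N) :
    Pm c I x i j = - c.br (I j) (I i) x := by
  show oL β x (Yf c I x i) (Yf c I x j) = _
  rw [oL_Yf c hI]
  congr 1
  exact dForm_Y c (hI i) x

section

variable [T2Space M] [CompactSpace M]

namespace Hyp

variable {c} {N : ℕ} (H : Hyp c N)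

include H

/-- all first integrals depend on independent ones -/
lemma dl_zero {I : Fin N → M → ℝ} (hI : ∀ i, RI R (I i)) {x : M}
    (hli : LinearIndependent ℝ (fun i => dl (E := E) (I i) x)) {h : M → ℝ} (hh : RI R h) {v : E}
    (hv : ∀ i, dl (E := E) (I i) x v = 0) : dl (E := E) h x v = 0 := by
  have h1 := H.top x (Fin.cons h I) (fun i => by
    refine Fin.cases ?_ (fun i => ?_) i
    · exact hh
    · exact hI i)
  have e : (fun i => dl (E := E) ((Fin.cons h I : Fin (N + 1) → M → ℝ) i) x) =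
      Fin.cons (dl (E := E) h x) (fun i => dl (E := E) (I i) x) := by
    ext1 i
    refine Fin.cases ?_ (fun i => ?_) i
    · rfl
    · rfl
  rw [e, linearIndependent_finCons] at h1
  have h2 : dl (E := E) h x ∈ Submodule.span ℝ (range fun i => dl (E := E) (I i) x) := by
    by_contra hn
    exact h1 ⟨hli, hn⟩
  rw [Submodule.mem_span_range_iff_exists_fun] at h2
  obtain ⟨b, hb⟩ := h2
  rw [← hb, ContinuousLinearMap.sum_apply]
  refine Finset.sum_eq_zero fun i _ => ?_
  rw [ContinuousLinearMap.smul_apply, hv, smul_zero]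

/-- the field defined by an adjugate matrix -/
def lf {I : Fin N → M → ℝ} (hI : ∀ i, RI R (I i)) (u : Fin N → ℝ) : LF c where
  n := N
  a := fun i x => ((Pm c I x).adjugate.mulVec u) i
  g := I
  ha := fun i => by
    apply RI.of_inv c
    · have h1 : ∀ i j, ContMDiff 𝓘(ℝ, E) 𝓘(ℝ, ℝ) ∞ (fun x => Pm c I x i j) := by
        intro i j
        have e : (fun x => Pm c I x i j) = fun x => - c.br (I j) (I i) x := by
          ext1 x; exact Pm_apply c hI x i j
        rw [e]
        exact ((hI j).br c (hI i)).sm.neg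
      have e : (fun x => ((Pm c I x).adjugate.mulVec u) i) =
          fun x => ∑ j, (Pm c I x).adjugate i j * u j := by
        ext1 x; rfl
      rw [e]
      exact smf_sum _ fun j _ => (smf_adj h1 i j).mul contMDiff_const
    · intro x t
      have h1 : Pm c I (φ c x t) = Pm c I x := by
        ext i j
        rw [Pm_apply c hI, Pm_apply c hI, ((hI j).br c (hI i)).inv c]
      rw [h1]
  hg := hI
  kill := fun h hh x => by
    set a : Fin N → ℝ := (Pm c I x).adjugate.mulVec u with ha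
    have e : (∑ i, ((Pm c I x).adjugate.mulVec u) i • Y c (I i) x : E) = Yc (Yf c I x) a := rfl
    refine (congrArg (fun w : E => dForm 𝓘(ℝ, E) h x w) e).trans ?_
    by_cases h0 : Yc (Yf c I x) a = 0
    · rw [h0]
      exact map_zero (dl (E := E) h x)
    · have h1 := (pd c x).indep_of_adj (Y := Yf c I x) h0
      rw [indep_Yf c hI] at h1
      refine H.dl_zero hI h1 hh (v := Yc (Yf c I x) a) fun i => ?_
      have h2 := oL_Yf c hI x i (Yc (Yf c I x) a)
      rw [ω_Yc] at h2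
      have h3 := congrFun ((pd c x).Gm_adj (bL_Yf c hI x) H.dim u) i
      have h4 : (Gm (oL β x) (Yf c I x)).mulVec a i = 0 := h3
      rw [h4] at h2
      linarith

lemma lf_Z {I : Fin N → M → ℝ} (hI : ∀ i, RI R (I i)) (u : Fin N → ℝ) (x : M) :
    ((H.lf hI u).Z x : E) = Yc (Yf c I x) ((Pm c I x).adjugate.mulVec u) := rfl

/-- **Existence of a field which does not vanish at a given point.** -/
lemma exists_LF (x : M) : ∃ L : LF c, L.Z x ≠ 0 := by
  obtain ⟨I, hI, hli⟩ := H.rank x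
  obtain ⟨u, hu⟩ := (pd c x).exists_adj (bL_Yf c hI x) H.dim ((indep_Yf c hI x).2 hli)
  exact ⟨H.lf hI u, hu⟩

/-- the tangent vectors in the contact plane killed by all first integrals form a line -/
lemma line (x : M) {v v' : E} (hv : bL β x v = 0) (hv' : bL β x v' = 0)
    (h : ∀ h : M → ℝ, RI R h → dl (E := E) h x v = 0)
    (h' : ∀ h : M → ℝ, RI R h → dl (E := E) h x v' = 0) (hne : v ≠ 0) : ∃ ρ : ℝ, v' = ρ • v := by
  obtain ⟨I, hI, hli⟩ := H.rank x
  obtain ⟨a, ha0, ha, h3, -⟩ := (pd c x).exists_ker (bL_Yf c hI x) H.dim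
    ((indep_Yf c hI x).2 hli)
  obtain ⟨t, ht⟩ := h3 v hv (fun j => by rw [oL_Yf c hI, h _ (hI j), neg_zero])
  obtain ⟨t', ht'⟩ := h3 v' hv' (fun j => by rw [oL_Yf c hI, h' _ (hI j), neg_zero])
  have ht0 : t ≠ 0 := by
    rintro rfl
    rw [zero_smul] at ht
    exact hne ht
  refine ⟨t' / t, ?_⟩
  rw [ht, ht', smul_smul, div_mul_cancel₀ _ ht0]

lemma Z_line (L L' : LF c) (x : M) (h : L.Z x ≠ 0) :
    ∃ ρ : ℝ, (L'.Z x : E) = ρ • (L.Z x : E) :=
  H.line x (L.β_Z x) (L'.β_Z x) (fun _ hh => L.kill' hh x) (fun _ hh => L'.kill' hh x) h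

/-- **Two fields have proportional flows.** -/
lemma scale (L L' : LF c) {x : M} (hx : L.Z x ≠ 0) :
    ∃ ρ : ℝ, (L'.Z x : E) = ρ • (L.Z x : E) ∧ ∀ s, L'.ψ x s = L.ψ x (ρ * s) := by
  have : IsManifold 𝓘(ℝ, E) 1 M := IsManifold.of_le (n := ∞) (by simp)
  obtain ⟨u, hu⟩ : ∃ u, L.mu x u ≠ 0 := by
    by_contra hno
    push Not at hno
    exact hx (L.Z_zero hno)
  set ρ := L'.mu x u / L.mu x u with hρ
  have key : ∀ s, (L'.Z (L.ψ x s) : E) = ρ • (L.Z (L.ψ x s) : E) := by
    intro s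
    obtain ⟨r, hr⟩ := H.Z_line L L' (L.ψ x s) (L.Z_ψ hx s)
    have h1 : ∀ w : TangentSpace 𝓘(ℝ, E) (L.ψ x s),
        L'.mu (L.ψ x s) w = r * L.mu (L.ψ x s) w := by
      intro w
      have h2 := L'.dβ_Z (L.ψ x s) w
      have h3 := L.dβ_Z (L.ψ x s) w
      have h4 : extDer 𝓘(ℝ, E) β (L.ψ x s) (L'.Z (L.ψ x s)) w =
          r * extDer 𝓘(ℝ, E) β (L.ψ x s) (L.Z (L.ψ x s)) w := by
        refine (congrArg (fun z : E => extDer 𝓘(ℝ, E) β (L.ψ x s) z w) hr).trans ?_
        exact oL_smul (β := β) (L.ψ x s) r (L.Z (L.ψ x s)) w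
      rw [h2, h3] at h4
      linarith
    have h2 := h1 (mfderiv 𝓘(ℝ, E) 𝓘(ℝ, E) (fun x => L.ψ x s) x u)
    rw [L.mu_ψ L', L.mu_ψ L] at h2
    have h3 : ρ = r := by
      rw [hρ, h2, mul_div_assoc, div_self hu, mul_one]
    rw [h3]
    exact hr
  have h0 := key 0
  have h0' : (L'.Z x : E) = ρ • (L.Z x : E) := by
    have e : ∀ y, y = x → (L'.Z y : E) = ρ • (L.Z y : E) → (L'.Z x : E) = ρ • (L.Z x : E) := by
      rintro _ rfl h; exact h
    exact e _ (L.ψ_zero x) h0
  refine ⟨ρ, h0', fun s => ?_⟩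
  have h1 : IsMIntegralCurve (I := 𝓘(ℝ, E)) (fun s => L.ψ x (ρ * s)) L'.Z := by
    intro s
    have h2 : HasMFDerivAt 𝓘(ℝ, ℝ) 𝓘(ℝ, ℝ) (fun s : ℝ => ρ * s) s
        ((1 : ℝ →L[ℝ] ℝ).smulRight ρ) := by
      have h3 : HasDerivAt (fun s : ℝ => ρ * s) ρ s := by
        simpa using (hasDerivAt_id s).const_mul ρ
      exact h3.hasFDerivAt.hasMFDerivAt
    have h3 := HasMFDerivAt.comp s (g := L.ψ x) (f := fun s : ℝ => ρ * s) (L.ψ_int x (ρ * s)) h2
    refine h3.congr_mfderiv ?_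
    refine ContinuousLinearMap.ext fun (r : ℝ) => ?_
    show ((r * ρ) • L.Z (L.ψ x (ρ * s)) : E) = r • (L'.Z (L.ψ x (ρ * s)) : E)
    rw [key, smul_smul]
  have h2 : L'.ψ x = fun s => L.ψ x (ρ * s) :=
    isMIntegralCurve_Ioo_eq_of_contMDiff_boundaryless (t₀ := 0) (L'.smooth_Z.of_le (by simp))
      (L'.ψ_int x) h1 (by
        show L'.ψ x 0 = L.ψ x (ρ * 0)
        rw [mul_zero, L.ψ_zero, L'.ψ_zero])
  rw [h2]

end Hyp

end

end Q169.SI
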