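import Mathlib
import Pool.Agent.Q169.SI.Hyp

/-! Critical values of systems of first integrals and periodic orbits. -/

open scoped Topology ContDiff Manifold
open Set Metric Bundle Pool.Agent.Helper186 Pool.Agent.H826R2.Wein MeasureTheory

noncomputable section

namespace Q169.SI

set_option linter.unusedSectionVars false

universe u

section vec

variable {E : Type u} [NormedAddCommGroup E] [NormedSpace ℝ E] [FiniteDimensional ℝ E]

/-- independent functionals define a surjective map -/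
lemma surj_of_indep {k : ℕ} {l : Fin k → E →L[ℝ] ℝ} (h : LinearIndependent ℝ l) (b : Fin k → ℝ) :
    ∃ w : E, ∀ i, l i w = b i := by
  set T : E →ₗ[ℝ] (Fin k → ℝ) := LinearMap.pi (fun i => ((l i : E →L[ℝ] ℝ) : E →ₗ[ℝ] ℝ)) with hT
  by_contra hno
  have hlt : LinearMap.range T < ⊤ := by
    rw [lt_top_iff_ne_top]
    intro htop
    apply hno
    obtain ⟨w, hw⟩ := LinearMap.range_eq_top.1 htop b
    exact ⟨w, fun i => congrFun hw i⟩
  obtain ⟨f, hf0, hf⟩ := Submodule.exists_le_ker_of_lt_top _ hlt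
  have hfe : ∀ v : Fin k → ℝ, f v = ∑ i, v i * f (Pi.single i 1) := by
    intro v
    conv_lhs => rw [← Finset.univ_sum_single v]
    rw [map_sum]
    refine Finset.sum_congr rfl fun i _ => ?_
    have h1 : (Pi.single i (v i) : Fin k → ℝ) = v i • Pi.single i 1 := by
      rw [← Pi.single_smul, smul_eq_mul, mul_one]
    rw [h1, map_smul, smul_eq_mul]
  rw [Fintype.linearIndependent_iff] at h
  have h2 := h (fun i => f (Pi.single i 1)) (by
    refine ContinuousLinearMap.ext fun w => ?_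
    have h3 : f (T w) = 0 := hf ⟨w, rfl⟩
    rw [hfe] at h3
    rw [sum_apply]
    refine Eq.trans (Finset.sum_congr rfl fun i _ => ?_) h3
    show f (Pi.single i 1) * l i w = l i w * _
    ring)
  apply hf0
  refine LinearMap.ext fun v => ?_
  rw [hfe]
  exact Finset.sum_eq_zero fun i _ => by rw [h2 i, mul_zero]

/-- **Equidimensional Sard theorem** between different spaces. -/
lemma null_image {W : Type*} [NormedAddCommGroup W] [NormedSpace ℝ W] [FiniteDimensional ℝ W]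
    [MeasurableSpace W] [BorelSpace W] (μ : Measure W) [μ.IsAddHaarMeasure]
    (hd : Module.finrank ℝ E = Module.finrank ℝ W) {G : E → W} {S : Set E}
    (hG : ∀ ξ ∈ S, DifferentiableAt ℝ G ξ)
    (hns : ∀ ξ ∈ S, ¬ Function.Surjective (fderiv ℝ G ξ)) : μ (G '' S) = 0 := by
  let e : E ≃L[ℝ] W := ContinuousLinearEquiv.ofFinrankEq hd
  have h1 : G '' S = (fun w => G (e.symm w)) '' (e '' S) := by
    rw [Set.image_image]
    simp
  rw [h1]
  refine addHaar_image_eq_zero_of_det_fderivWithin_eq_zero μ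
    (f' := fun w => (fderiv ℝ G (e.symm w)).comp (e.symm : W →L[ℝ] E)) ?_ ?_
  · rintro _ ⟨ξ, hξ, rfl⟩
    have h2 : HasFDerivAt G (fderiv ℝ G ξ) (e.symm (e ξ)) := by
      rw [e.symm_apply_apply]; exact (hG ξ hξ).hasFDerivAt
    have h3 := h2.comp (e ξ) e.symm.hasFDerivAt
    have h4 := h3.hasFDerivWithinAt (s := e '' S)
    rw [e.symm_apply_apply]
    exact h4
  · rintro _ ⟨ξ, hξ, rfl⟩
    by_contra hne
    apply hns ξ hξ
    rw [e.symm_apply_apply] at hne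
    have h2 : LinearMap.det (((fderiv ℝ G ξ).comp (e.symm : W →L[ℝ] E) : W →L[ℝ] W) :
      W →ₗ[ℝ] W) ≠ 0 := hne
    intro w
    obtain ⟨v, hv⟩ := (LinearMap.equivOfDetNeZero _ h2).surjective w
    exact ⟨e.symm v, hv⟩

end vec

variable {E : Type u} [NormedAddCommGroup E] [NormedSpace ℝ E] [FiniteDimensional ℝ E]
  {M : Type*} [TopologicalSpace M] [ChartedSpace E M] [IsManifold 𝓘(ℝ, E) ∞ M]
  {β : (x : M) → TangentSpace 𝓘(ℝ, E) x →L[ℝ] ℝ} {R : (x : M) → TangentSpace 𝓘(ℝ, E) x}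
  (c : CD β R)

/-- the map given by a family of functions -/
def Fm {k : ℕ} (J : Fin k → M → ℝ) (x : M) : Fin k → ℝ := fun i => J i x

lemma smooth_Fm {k : ℕ} {J : Fin k → M → ℝ} (hJ : ∀ i, ContMDiff 𝓘(ℝ, E) 𝓘(ℝ, ℝ) ∞ (J i)) :
    ContMDiff 𝓘(ℝ, E) 𝓘(ℝ, Fin k → ℝ) ∞ (Fm J) := contMDiff_pi_space.2 hJ

lemma mfderiv_Fm {k : ℕ} {J : Fin k → M → ℝ} (hJ : ∀ i, ContMDiff 𝓘(ℝ, E) 𝓘(ℝ, ℝ) ∞ (J i))
    (x : M) (w : E) (i : Fin k) :
    (mfderiv 𝓘(ℝ, E) 𝓘(ℝ, Fin k → ℝ) (Fm J) x w : Fin k → ℝ) i = dl (E := E) (J i) x w := by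
  let p : (Fin k → ℝ) →L[ℝ] ℝ := ContinuousLinearMap.proj i
  have h1 : mfderiv 𝓘(ℝ, E) 𝓘(ℝ, ℝ) (p ∘ Fm J) x =
      (mfderiv 𝓘(ℝ, Fin k → ℝ) 𝓘(ℝ, ℝ) p (Fm J x)).comp
        (mfderiv 𝓘(ℝ, E) 𝓘(ℝ, Fin k → ℝ) (Fm J) x) :=
    mfderiv_comp x ((p.contDiff (n := ∞)).contMDiff.mdifferentiableAt (by simp))
      ((smooth_Fm hJ).mdifferentiableAt (by simp))
  have h2 : mfderiv 𝓘(ℝ, Fin k → ℝ) 𝓘(ℝ, ℝ) p (Fm J x) = p := by
    rw [mfderiv_eq_fderiv]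
    exact p.fderiv
  have h3 := DFunLike.congr_fun h1 w
  rw [h2] at h3
  exact h3.symm

lemma surj_Fm {k : ℕ} {J : Fin k → M → ℝ} (hJ : ∀ i, ContMDiff 𝓘(ℝ, E) 𝓘(ℝ, ℝ) ∞ (J i))
    {x : M} (h : LinearIndependent ℝ (fun i => dl (E := E) (J i) x)) (b : Fin k → ℝ) :
    ∃ w : E, (mfderiv 𝓘(ℝ, E) 𝓘(ℝ, Fin k → ℝ) (Fm J) x w : Fin k → ℝ) = b := by
  obtain ⟨w, hw⟩ := surj_of_indep h b
  refine ⟨w, ?_⟩
  funext i
  rw [mfderiv_Fm hJ, hw]

/-- the critical set -/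
def Crit {k : ℕ} (J : Fin k → M → ℝ) : Set M :=
  {x | ¬ ∀ b : Fin k → ℝ, ∃ w : E, (mfderiv 𝓘(ℝ, E) 𝓘(ℝ, Fin k → ℝ) (Fm J) x w : Fin k → ℝ) = b}

section flow

variable [T2Space M] [CompactSpace M]

/-- derivative of the Reeb flow in time -/
lemma dφ_t (x : M) (t : ℝ) (r : ℝ) :
    (mfderiv 𝓘(ℝ, ℝ) 𝓘(ℝ, E) (φ c x) t r : E) = r • R (φ c x t) := by
  rw [(φ_int c x t).mfderiv]
  rfl

lemma R_ne_zero (c : CD β R) (x : M) : (R x : E) ≠ 0 := by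
  intro h
  have h1 := c.reeb.unit x
  have h2 : β x (R x) = β x (0 : TangentSpace 𝓘(ℝ, E) x) := congrArg (fun v : E => β x v) h
  rw [h2, map_zero] at h1
  exact zero_ne_one h1

/-- the critical set is invariant under the Reeb flow -/
lemma Crit_inv {k : ℕ} {J : Fin k → M → ℝ} (hJ : ∀ i, RI R (J i)) {y : M}
    (hy : y ∈ Crit (E := E) J) (t : ℝ) : φ c y t ∈ Crit (E := E) J := by
  intro h
  apply hy
  intro b
  obtain ⟨w, hw⟩ := h b
  have h1 : (Fm J) ∘ (fun z => φ c z (-t)) = Fm J := by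
    funext z i
    exact (hJ i).inv c z (-t)
  have h2 : mfderiv 𝓘(ℝ, E) 𝓘(ℝ, Fin k → ℝ) (Fm J ∘ (fun z => φ c z (-t))) (φ c y t) =
      (mfderiv 𝓘(ℝ, E) 𝓘(ℝ, Fin k → ℝ) (Fm J) (φ c (φ c y t) (-t))).comp
        (mfderiv 𝓘(ℝ, E) 𝓘(ℝ, E) (fun z => φ c z (-t)) (φ c y t)) :=
    mfderiv_comp _ ((smooth_Fm fun i => (hJ i).sm).mdifferentiableAt (by simp))
      ((smooth_φt c (-t)).mdifferentiableAt (by simp))
  rw [h1] at h2
  have h3 : φ c (φ c y t) (-t) = y := by rw [← φ_add, add_neg_cancel, φ_zero]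
  have h4 := DFunLike.congr_fun h2 w
  refine ⟨(mfderiv 𝓘(ℝ, E) 𝓘(ℝ, E) (fun z => φ c z (-t)) (φ c y t) w : E), ?_⟩
  have h5 : ∀ (z : M) (v : E), z = y →
      (mfderiv 𝓘(ℝ, E) 𝓘(ℝ, Fin k → ℝ) (Fm J) z v : Fin k → ℝ) =
      (mfderiv 𝓘(ℝ, E) 𝓘(ℝ, Fin k → ℝ) (Fm J) y v : Fin k → ℝ) := by
    rintro _ v rfl; rfl
  exact (h5 _ _ h3).symm.trans (h4.symm.trans hw)

include c in
/-- **Critical values form a null set, locally.** -/
lemma null_local {k : ℕ} (hk : Module.finrank ℝ E = k + 1) {J : Fin k → M → ℝ}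
    (hJ : ∀ i, RI R (J i)) (x : M) :
    ∃ O ∈ 𝓝 x, (volume : Measure (Fin k → ℝ)) (Fm J '' (Crit (E := E) J ∩ O)) = 0 := by
  set χ := extChartAt 𝓘(ℝ, E) x with hχ
  have hsrc : x ∈ χ.source := mem_extChartAt_source x
  have hsrc_n : χ.source ∈ 𝓝 x := extChartAt_source_mem_nhds x
  have hχs : ContMDiffAt 𝓘(ℝ, E) 𝓘(ℝ, E) ∞ χ x := contMDiffAt_extChartAt
  -- the functional
  have hi' := isInvertible_mfderiv_extChartAt (I := 𝓘(ℝ, E)) (x := x) (y := x) hsrc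
  have hDr : (mfderiv 𝓘(ℝ, E) 𝓘(ℝ, E) χ x (R x) : E) ≠ 0 := by
    obtain ⟨e, he⟩ := hi'
    intro h
    apply R_ne_zero c x
    have h1 : e (R x) = 0 := (DFunLike.congr_fun he (R x)).trans h
    exact (map_eq_zero_iff e e.injective).1 h1
  have hsd : ∀ r : E, r ≠ 0 → ∃ f : E →L[ℝ] ℝ, f r = 1 := fun r hr =>
    SeparatingDual.exists_eq_one hr
  obtain ⟨p, hp⟩ := hsd (mfderiv 𝓘(ℝ, E) 𝓘(ℝ, E) χ x (R x)) hDr
  -- the curve
  have hφx : ContMDiff 𝓘(ℝ, ℝ) 𝓘(ℝ, E) ∞ (φ c x) :=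
    (smooth_φ c).comp (contMDiff_const.prodMk contMDiff_id)
  have hder : HasDerivAt (fun t => p (χ (φ c x t))) 1 0 := by
    have hχs' : MDifferentiableAt 𝓘(ℝ, E) 𝓘(ℝ, E) χ (φ c x 0) := by
      rw [φ_zero]; exact hχs.mdifferentiableAt (by simp)
    have h1 : HasMFDerivAt 𝓘(ℝ, ℝ) 𝓘(ℝ, E) (χ ∘ φ c x) 0
        ((mfderiv 𝓘(ℝ, E) 𝓘(ℝ, E) χ (φ c x 0)).comp
          (mfderiv 𝓘(ℝ, ℝ) 𝓘(ℝ, E) (φ c x) 0)) :=
      (hχs'.hasMFDerivAt).comp 0 ((hφx 0).mdifferentiableAt (by simp)).hasMFDerivAt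
    have h2 := p.hasFDerivAt.comp 0 (hasMFDerivAt_iff_hasFDerivAt.mp h1)
    have h3 := h2.hasDerivAt
    refine h3.congr_deriv ?_
    show p (mfderiv 𝓘(ℝ, E) 𝓘(ℝ, E) χ (φ c x 0) (mfderiv 𝓘(ℝ, ℝ) 𝓘(ℝ, E) (φ c x) 0 (1:ℝ))) = 1
    have h4 : (mfderiv 𝓘(ℝ, ℝ) 𝓘(ℝ, E) (φ c x) 0 (1:ℝ) : E) = R (φ c x 0) := by
      rw [dφ_t]
      exact one_smul _ _
    have h5 : ∀ (z : M), z = x → p (mfderiv 𝓘(ℝ, E) 𝓘(ℝ, E) χ z (R z)) =
        p (mfderiv 𝓘(ℝ, E) 𝓘(ℝ, E) χ x (R x)) := by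
      rintro _ rfl; rfl
    refine (congrArg (fun w : E => p (mfderiv 𝓘(ℝ, E) 𝓘(ℝ, E) χ (φ c x 0) w)) h4).trans ?_
    rw [h5 _ (φ_zero c x), hp]
  -- a tube
  have hev : ∀ᶠ q in 𝓝 ((x, (0:ℝ)) : M × ℝ), φ c q.1 q.2 ∈ χ.source := by
    have h1 : ContinuousAt (fun q : M × ℝ => φ c q.1 q.2) (x, 0) :=
      (smooth_φ c).continuous.continuousAt
    apply h1.eventually_mem
    show χ.source ∈ 𝓝 (φ c x 0)
    rw [φ_zero]; exact hsrc_n
  rw [nhds_prod_eq] at hev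
  obtain ⟨O₁, hO₁, T₁, hT₁, hOT⟩ := Filter.mem_prod_iff.1 hev
  obtain ⟨ε₀, hε₀, hball⟩ := Metric.mem_nhds_iff.1 hT₁
  obtain ⟨ε, hε, hεε, hup⟩ : ∃ ε : ℝ, 0 < ε ∧ ε < ε₀ ∧ p (χ (φ c x 0)) < p (χ (φ c x ε)) := by
    have h1 := (hasDerivAt_iff_tendsto_slope.1 hder).eventually (lt_mem_nhds one_half_lt_one)
    rw [eventually_nhdsWithin_iff, Metric.eventually_nhds_iff] at h1
    obtain ⟨δ, hδ, h1⟩ := h1
    refine ⟨min δ ε₀ / 2, by positivity, ?_, ?_⟩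
    · have := min_le_right δ ε₀
      linarith
    · have hm : 0 < min δ ε₀ := lt_min hδ hε₀
      have h2 := h1 (y := min δ ε₀ / 2) (by
        rw [Real.dist_eq, sub_zero, abs_of_pos (by positivity)]
        have := min_le_left δ ε₀
        linarith) (by
        rw [mem_compl_iff, mem_singleton_iff]
        exact (half_pos hm).ne')
      rw [slope_def_field, sub_zero, lt_div_iff₀ (half_pos hm)] at h2
      nlinarith
  set u₀ := p (χ (φ c x 0)) with hu₀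
  set u₁ := p (χ (φ c x ε)) with hu₁
  have hcu : ∀ t, |t| < ε₀ → ContinuousAt (fun y => p (χ (φ c y t))) x := by
    intro t ht
    have h0 : φ c x t ∈ χ.source := hOT (show (x, t) ∈ O₁ ×ˢ T₁ from
      ⟨mem_of_mem_nhds hO₁, hball (by rw [Metric.mem_ball, Real.dist_eq, sub_zero]; exact ht)⟩)
    have h1 : ContinuousAt χ (φ c x t) :=
      (continuousOn_extChartAt x).continuousAt ((isOpen_extChartAt_source x).mem_nhds h0)
    have h2 : ContinuousAt (fun y => φ c y t) x := (smooth_φt c t).continuous.continuousAt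
    exact p.continuous.continuousAt.comp (ContinuousAt.comp (g := χ) h1 h2)
  have hO₂ : ∀ᶠ y in 𝓝 x, p (χ (φ c y 0)) < (2 * u₀ + u₁) / 3 :=
    (hcu 0 (by rw [abs_zero]; exact hε₀)).eventually_lt continuousAt_const (by
      show u₀ < _
      linarith)
  have hO₃ : ∀ᶠ y in 𝓝 x, (u₀ + 2 * u₁) / 3 < p (χ (φ c y ε)) :=
    continuousAt_const.eventually_lt (hcu ε (by rw [abs_of_pos hε]; exact hεε)) (by
      show _ < u₁
      linarith)
  refine ⟨O₁ ∩ ({y | p (χ (φ c y 0)) < (2 * u₀ + u₁) / 3} ∩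
    {y | (u₀ + 2 * u₁) / 3 < p (χ (φ c y ε))}), Filter.inter_mem hO₁ (Filter.inter_mem hO₂ hO₃), ?_⟩
  -- the map
  set G : E → (Fin k → ℝ) × ℝ := fun ξ => (Fm J (χ.symm ξ), p ξ) with hG
  set S : Set E := {ξ | ξ ∈ χ.target ∧ χ.symm ξ ∈ Crit (E := E) J} with hS
  have hnull : (volume : Measure ((Fin k → ℝ) × ℝ)) (G '' S) = 0 := by
    have hFs : ∀ ξ ∈ χ.target, DifferentiableAt ℝ (fun ξ => Fm J (χ.symm ξ)) ξ := by
      intro ξ hξ
      have h1 : ContMDiffAt 𝓘(ℝ, E) 𝓘(ℝ, E) ∞ χ.symm ξ :=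
        (contMDiffOn_extChartAt_symm x).contMDiffAt ((isOpen_extChartAt_target x).mem_nhds hξ)
      have h2 : ContMDiffAt 𝓘(ℝ, E) 𝓘(ℝ, Fin k → ℝ) ∞ (fun ξ => Fm J (χ.symm ξ)) ξ :=
        ContMDiffAt.comp ξ (g := Fm J) (f := χ.symm) (smooth_Fm (fun i => (hJ i).sm) _) h1
      exact (contMDiffAt_iff_contDiffAt.1 h2).differentiableAt (by simp)
    have : (volume : Measure ((Fin k → ℝ) × ℝ)).IsAddHaarMeasure := by
      rw [Measure.volume_eq_prod]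
      infer_instance
    refine null_image (W := (Fin k → ℝ) × ℝ) volume ?_ ?_ ?_
    · rw [Module.finrank_prod, Module.finrank_fin_fun, Module.finrank_self]
      exact hk
    · intro ξ hξ
      exact (hFs ξ hξ.1).prodMk p.differentiableAt
    · intro ξ hξ hsurj
      apply hξ.2
      intro b
      obtain ⟨v, hv⟩ := hsurj (b, 0)
      have h1 : fderiv ℝ G ξ = (fderiv ℝ (fun ξ => Fm J (χ.symm ξ)) ξ).prod p :=
        ((hFs ξ hξ.1).hasFDerivAt.prodMk p.hasFDerivAt).fderiv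
      rw [h1] at hv
      have h2 : fderiv ℝ (fun ξ => Fm J (χ.symm ξ)) ξ v = b := congrArg Prod.fst hv
      have h3 : ContMDiffAt 𝓘(ℝ, E) 𝓘(ℝ, E) ∞ χ.symm ξ :=
        (contMDiffOn_extChartAt_symm x).contMDiffAt ((isOpen_extChartAt_target x).mem_nhds hξ.1)
      have h4 : mfderiv 𝓘(ℝ, E) 𝓘(ℝ, Fin k → ℝ) (Fm J ∘ χ.symm) ξ =
          (mfderiv 𝓘(ℝ, E) 𝓘(ℝ, Fin k → ℝ) (Fm J) (χ.symm ξ)).comp
            (mfderiv 𝓘(ℝ, E) 𝓘(ℝ, E) χ.symm ξ) :=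
        mfderiv_comp ξ ((smooth_Fm fun i => (hJ i).sm).mdifferentiableAt (by simp))
          (h3.mdifferentiableAt (by simp))
      rw [mfderiv_eq_fderiv] at h4
      refine ⟨(mfderiv 𝓘(ℝ, E) 𝓘(ℝ, E) χ.symm ξ v : E), ?_⟩
      rw [← h2]
      exact (DFunLike.congr_fun h4 v).symm
  have hsub : (Fm J '' (Crit (E := E) J ∩ (O₁ ∩ ({y | p (χ (φ c y 0)) < (2 * u₀ + u₁) / 3} ∩
      {y | (u₀ + 2 * u₁) / 3 < p (χ (φ c y ε))})))) ×ˢ
      Ioo ((2 * u₀ + u₁) / 3) ((u₀ + 2 * u₁) / 3) ⊆ G '' S := by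
    rintro ⟨v, r⟩ ⟨⟨y, ⟨hyC, hy1, hy2, hy3⟩, rfl⟩, hr1, hr2⟩
    have hin : ∀ t ∈ Icc 0 ε, φ c y t ∈ χ.source := by
      intro t ht
      refine hOT (show (y, t) ∈ O₁ ×ˢ T₁ from ⟨hy1, hball ?_⟩)
      rw [Metric.mem_ball, Real.dist_eq, sub_zero, abs_of_nonneg ht.1]
      exact lt_of_le_of_lt ht.2 hεε
    have hcont : ContinuousOn (fun t => p (χ (φ c y t))) (Icc 0 ε) := by
      have h1 : ContinuousOn (φ c y) (Icc 0 ε) :=
        ((smooth_φ c).continuous.comp (continuous_const.prodMk continuous_id)).continuousOn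
      exact p.continuous.comp_continuousOn ((continuousOn_extChartAt x).comp h1 hin)
    obtain ⟨t, ht, htr⟩ := intermediate_value_Icc hε.le hcont
      (show r ∈ Icc (p (χ (φ c y 0))) (p (χ (φ c y ε))) from
        ⟨(hy2.trans hr1).le, (hr2.trans hy3).le⟩)
    refine ⟨χ (φ c y t), ⟨χ.map_source (hin t ht), ?_⟩, ?_⟩
    · rw [χ.left_inv (hin t ht)]
      exact Crit_inv c hJ hyC t
    · show (Fm J (χ.symm (χ (φ c y t))), p (χ (φ c y t))) = (Fm J y, r)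
      rw [χ.left_inv (hin t ht)]
      refine Prod.ext ?_ htr
      funext i
      exact (hJ i).inv c y t
  have h0 := measure_mono_null hsub hnull
  rw [Measure.volume_eq_prod, Measure.prod_prod, mul_eq_zero] at h0
  rcases h0 with h0 | h0
  · exact h0
  · exfalso
    rw [Real.volume_Ioo, ENNReal.ofReal_eq_zero] at h0
    linarith

include c in
/-- **Critical values form a null set.** -/
lemma null_crit {k : ℕ} (hk : Module.finrank ℝ E = k + 1) {J : Fin k → M → ℝ}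
    (hJ : ∀ i, RI R (J i)) :
    (volume : Measure (Fin k → ℝ)) (Fm J '' (Crit (E := E) J)) = 0 := by
  have h := isCompact_univ (X := M).induction_on
    (p := fun s => (volume : Measure (Fin k → ℝ)) (Fm J '' (Crit (E := E) J ∩ s)) = 0)
    (by simp)
    (fun s t hst ht => measure_mono_null (image_mono (inter_subset_inter_right _ hst)) ht)
    (fun s t hs ht => by
      rw [inter_union_distrib_left, image_union]
      exact measure_union_null hs ht)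
    (fun x _ => by
      obtain ⟨O, hO, h⟩ := null_local c hk hJ x
      exact ⟨O, mem_nhdsWithin_of_mem_nhds hO, h⟩)
  rwa [inter_univ] at h

end flow

end Q169.SI
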