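import Mathlib
import Pool.Agent.Q169.SI.Sard

/-! Many first integrals: uncountably many periodic orbits. -/

open scoped Topology ContDiff Manifold
open Set Metric Bundle Pool.Agent.Helper186 Pool.Agent.H826R2.Wein MeasureTheory

noncomputable section

namespace Q169.SI

set_option linter.unusedSectionVars false

universe u

variable {E : Type u} [NormedAddCommGroup E] [NormedSpace ℝ E] [FiniteDimensional ℝ E]
  {M : Type*} [TopologicalSpace M] [ChartedSpace E M] [IsManifold 𝓘(ℝ, E) ∞ M]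
  {β : (x : M) → TangentSpace 𝓘(ℝ, E) x →L[ℝ] ℝ} {R : (x : M) → TangentSpace 𝓘(ℝ, E) x}
  (c : CD β R) [T2Space M] [CompactSpace M]

/-- the set of periodic orbits -/
def PS : Set (Set M) := {O | ∃ x T, 0 < T ∧ φ c x T = x ∧ O = range (φ c x)}

lemma dΞφ {x : M} {w : ℝ} (h : (mfderiv 𝓘(ℝ, ℝ) 𝓘(ℝ, E) (φ c x) 0 w : E) = 0) : w = 0 := by
  rw [dφ_t] at h
  rcases smul_eq_zero.1 h with h | h
  · exact h
  · exact absurd h (R_ne_zero c _)

lemma periodic_of_regular {k : ℕ} (hk : Module.finrank ℝ E = k + 1) {J : Fin k → M → ℝ}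
    (hJ : ∀ i, RI R (J i)) {y z : M} (hz : z ∉ Crit (E := E) J)
    (hyz : MapClusterPt z Filter.atTop (fun n : ℕ => φ c y n)) : ∃ T, 0 < T ∧ φ c y T = y := by
  have hz' : ∀ b : Fin k → ℝ, ∃ w : E,
      (mfderiv 𝓘(ℝ, E) 𝓘(ℝ, Fin k → ℝ) (Fm J) z w : Fin k → ℝ) = b := by
    by_contra h
    exact hz h
  obtain ⟨vh, hv1, hv2, hv3, -⟩ := local_solve (E := E) (K := Fin k → ℝ) (V := ℝ) (F := Fm J)
    (Ξ := φ c) (x₀ := z) (v₀ := 0) (smooth_φ c) (smooth_Fm fun i => (hJ i).sm)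
    (fun x t => by funext i; exact (hJ i).inv c x t) (φ_zero c z) hz' (fun w h => dΞφ c h)
    (by rw [Module.finrank_fin_fun, Module.finrank_self]; exact hk)
  have hv4 : ∀ᶠ q in 𝓝 (z, z), |vh q| < 1 / 2 := by
    have h1 : ContinuousAt (fun q => |vh q|) (z, z) := hv1.continuousAt.abs
    have h2 : |vh (z, z)| < 1 / 2 := by rw [hv2, abs_zero]; norm_num
    exact h1.eventually_lt continuousAt_const h2
  have hall := hv3.and hv4
  rw [nhds_prod_eq] at hall
  obtain ⟨U, hU, hUU⟩ := Filter.mem_prod_self_iff.1 hall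
  have hf := hyz.frequently hU
  obtain ⟨n, hn⟩ := hf.exists
  obtain ⟨m, hm, hnm⟩ := (hf.and_eventually (Filter.eventually_gt_atTop n)).exists
  have h1 := hUU (show (φ c y n, φ c y m) ∈ U ×ˢ U from ⟨hn, hm⟩)
  have h2 : Fm J (φ c y n) = Fm J (φ c y m) := by
    funext i
    show J i _ = J i _
    rw [(hJ i).inv c, (hJ i).inv c]
  have h3 := h1.1 h2
  have h4 := (abs_lt.1 h1.2)
  set s := vh (φ c y n, φ c y m) with hs
  have h3' : φ c (φ c y n) s = φ c y m := h3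
  rw [← φ_add] at h3'
  have hnm' : (n:ℝ) + 1 ≤ m := by exact_mod_cast hnm
  refine ⟨m - (n + s), by linarith [h4.2], ?_⟩
  have h5 : φ c (φ c y m) (-(n + s)) = y := by
    rw [← h3', ← φ_add, add_neg_cancel, φ_zero]
  rw [← φ_add] at h5
  rw [sub_eq_add_neg]
  exact h5

/-- a system of independent first integrals of maximal length gives uncountably many periodic
orbits -/
theorem uncountable_of_regular {k : ℕ} (hk : Module.finrank ℝ E = k + 1) (hk0 : 0 < k)
    {J : Fin k → M → ℝ} (hJ : ∀ i, RI R (J i)) {x₀ : M}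
    (hli : LinearIndependent ℝ (fun i => dl (E := E) (J i) x₀)) : ¬ (PS c).Countable := by
  intro hcount
  have hnc := null_crit c hk hJ
  -- the image contains an open set
  have hop : Fm J '' univ ∈ 𝓝 (Fm J x₀) := by
    set χ := extChartAt 𝓘(ℝ, E) x₀ with hχ
    have hsrc : x₀ ∈ χ.source := mem_extChartAt_source x₀
    have hsymm0 : χ.symm (χ x₀) = x₀ := χ.left_inv hsrc
    have hχs : ContMDiffAt 𝓘(ℝ, E) 𝓘(ℝ, E) ∞ χ x₀ := contMDiffAt_extChartAt
    have hχi : ContMDiffAt 𝓘(ℝ, E) 𝓘(ℝ, E) ∞ χ.symm (χ x₀) :=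
      (contMDiffOn_extChartAt_symm x₀).contMDiffAt (extChartAt_target_mem_nhds x₀)
    have hFt : ContMDiffAt 𝓘(ℝ, E) 𝓘(ℝ, Fin k → ℝ) ∞ (fun ξ => Fm J (χ.symm ξ)) (χ x₀) :=
      ContMDiffAt.comp _ (g := Fm J) (f := χ.symm) (smooth_Fm (fun i => (hJ i).sm) _) hχi
    have hFt' := contMDiffAt_iff_contDiffAt.1 hFt
    have hst := hFt'.hasStrictFDerivAt (by simp)
    have hsurj : LinearMap.range ((fderiv ℝ (fun ξ => Fm J (χ.symm ξ)) (χ x₀) :
        E →L[ℝ] (Fin k → ℝ)) : E →ₗ[ℝ] (Fin k → ℝ)) = ⊤ := by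
      rw [LinearMap.range_eq_top]
      intro b
      obtain ⟨w, hw⟩ := surj_Fm (fun i => (hJ i).sm) hli b
      have h1 : HasMFDerivAt 𝓘(ℝ, E) 𝓘(ℝ, Fin k → ℝ) ((fun ξ => Fm J (χ.symm ξ)) ∘ χ) x₀
          ((fderiv ℝ (fun ξ => Fm J (χ.symm ξ)) (χ x₀)).comp
            (mfderiv 𝓘(ℝ, E) 𝓘(ℝ, E) χ x₀)) :=
        HasMFDerivAt.comp x₀ (g := fun ξ => Fm J (χ.symm ξ)) (f := χ)
          hst.hasFDerivAt.hasMFDerivAt (hχs.mdifferentiableAt (by simp)).hasMFDerivAt
      have h2 : Fm J =ᶠ[𝓝 x₀] (fun ξ => Fm J (χ.symm ξ)) ∘ χ := by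
        filter_upwards [extChartAt_source_mem_nhds (I := 𝓘(ℝ, E)) x₀] with y hy
        show Fm J y = Fm J (χ.symm (χ y))
        rw [χ.left_inv hy]
      have h3 := (h1.congr_of_eventuallyEq h2).mfderiv
      refine ⟨(mfderiv 𝓘(ℝ, E) 𝓘(ℝ, E) χ x₀ w : E), ?_⟩
      rw [← hw, h3]
      rfl
    have hmap := hst.map_nhds_eq_of_surj hsurj
    have h1 : Fm J '' univ ∈ Filter.map (fun ξ => Fm J (χ.symm ξ)) (𝓝 (χ x₀)) := by
      rw [Filter.mem_map]
      exact Filter.Eventually.of_forall fun ξ => ⟨χ.symm ξ, mem_univ _, rfl⟩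
    rw [hmap, hsymm0] at h1
    exact h1
  obtain ⟨O, hOsub, hOo, hOx⟩ := _root_.mem_nhds_iff.1 hop
  -- the set of regular values is uncountable
  have hpos : 0 < (volume : Measure (Fin k → ℝ)) (O \ Fm J '' (Crit (E := E) J)) := by
    rw [measure_diff_null hnc]
    exact hOo.measure_pos volume ⟨_, hOx⟩
  -- periodic orbits
  have hper : ∀ v ∈ O \ Fm J '' (Crit (E := E) J), ∃ P ∈ PS c, ∀ z ∈ P, Fm J z = v := by
    rintro v ⟨hvO, hvC⟩
    obtain ⟨y, -, hy⟩ := hOsub hvO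
    obtain ⟨z, hz⟩ := exists_clusterPt_of_compactSpace
      (Filter.map (fun n : ℕ => φ c y n) Filter.atTop)
    have hz' : MapClusterPt z Filter.atTop (fun n : ℕ => φ c y n) := hz
    have hzv : Fm J z = v := by
      have hcl : IsClosed {z | Fm J z = v} :=
        isClosed_eq (smooth_Fm fun i => (hJ i).sm).continuous continuous_const
      have h1 : z ∈ closure {z | Fm J z = v} := by
        rw [mem_closure_iff_nhds]
        intro U hU
        obtain ⟨n, hn⟩ := (hz'.frequently hU).exists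
        refine ⟨_, hn, ?_⟩
        show Fm J (φ c y n) = v
        rw [← hy]
        funext i
        exact (hJ i).inv c y n
      rwa [hcl.closure_eq] at h1
    have hzC : z ∉ Crit (E := E) J := fun h => hvC ⟨z, h, hzv⟩
    obtain ⟨T, hT, hT2⟩ := periodic_of_regular c hk hJ hzC hz'
    refine ⟨range (φ c y), ⟨y, T, hT, hT2, rfl⟩, ?_⟩
    rintro _ ⟨t, rfl⟩
    rw [← hy]
    funext i
    exact (hJ i).inv c y t
  -- conclusion
  have hcnt : (O \ Fm J '' (Crit (E := E) J)).Countable := by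
    choose! P hP hPv using hper
    have hinj : Set.InjOn P (O \ Fm J '' (Crit (E := E) J)) := by
      intro v hv w hw h
      obtain ⟨x, T, -, -, hx⟩ := hP v hv
      have h1 : x ∈ P v := by rw [hx]; exact ⟨0, φ_zero c x⟩
      rw [← hPv v hv x h1, ← hPv w hw x (h ▸ h1)]
    exact MapsTo.countable_of_injOn (fun v hv => hP v hv) hinj hcount
  have : Nonempty (Fin k) := ⟨⟨0, hk0⟩⟩
  have h0 := hcnt.measure_zero (volume : Measure (Fin k → ℝ))
  rw [h0] at hpos
  exact lt_irrefl _ hpos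

end Q169.SI
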