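import Mathlib
import Pool.Agent.Q169.SI.PerA

/-! Period lattices of the leaves. -/

open scoped Topology ContDiff Manifold
open Set Metric Bundle Pool.Agent.Helper186 Pool.Agent.H826R2.Wein

noncomputable section

namespace Q169.SI

set_option linter.unusedSectionVars false

universe u

variable {E : Type u} [NormedAddCommGroup E] [NormedSpace ℝ E] [FiniteDimensional ℝ E]
  {M : Type*} [TopologicalSpace M] [ChartedSpace E M] [IsManifold 𝓘(ℝ, E) ∞ M]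
  {β : (x : M) → TangentSpace 𝓘(ℝ, E) x →L[ℝ] ℝ} {R : (x : M) → TangentSpace 𝓘(ℝ, E) x}
  {c : CD β R} [T2Space M] [CompactSpace M]

namespace LF

variable (L : LF c)

lemma smooth_Ξx (x : M) : ContMDiff 𝓘(ℝ, ℝ × ℝ) 𝓘(ℝ, E) ∞ (L.Ξ x) :=
  L.smooth_Ξ.comp (contMDiff_const.prodMk contMDiff_id)

lemma smooth_Ξv (v : ℝ × ℝ) : ContMDiff 𝓘(ℝ, E) 𝓘(ℝ, E) ∞ (fun x => L.Ξ x v) :=
  L.smooth_Ξ.comp (contMDiff_id.prodMk contMDiff_const)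

lemma Ξ_comm (x : M) (v : ℝ × ℝ) : L.Ξ x v = L.ψ (φ c x v.1) v.2 := L.comm x v.2 v.1

/-- derivative of the action in the group variable -/
lemma dΞ (x : M) (v w : ℝ × ℝ) :
    (mfderiv 𝓘(ℝ, ℝ × ℝ) 𝓘(ℝ, E) (L.Ξ x) v w : E) =
      w.1 • (R (L.Ξ x v) : E) + w.2 • (L.Z (L.Ξ x v) : E) := by
  have hd : HasMFDerivAt 𝓘(ℝ, ℝ × ℝ) 𝓘(ℝ, E) (L.Ξ x) v
      (mfderiv 𝓘(ℝ, ℝ × ℝ) 𝓘(ℝ, E) (L.Ξ x) v) :=
    ((L.smooth_Ξx x v).mdifferentiableAt (by simp)).hasMFDerivAt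
  -- the first direction
  have h1 : (mfderiv 𝓘(ℝ, ℝ × ℝ) 𝓘(ℝ, E) (L.Ξ x) v ((1, 0) : ℝ × ℝ) : E) = R (L.Ξ x v) := by
    have e1 : HasFDerivAt (fun t : ℝ => ((t, v.2) : ℝ × ℝ)) (ContinuousLinearMap.inl ℝ ℝ ℝ) v.1 :=
      hasFDerivAt_prodMk_left v.1 v.2
    have e2 := HasMFDerivAt.comp v.1 (g := L.Ξ x) (f := fun t : ℝ => ((t, v.2) : ℝ × ℝ))
      (show HasMFDerivAt 𝓘(ℝ, ℝ × ℝ) 𝓘(ℝ, E) (L.Ξ x) (v.1, v.2) _ from hd) e1.hasMFDerivAt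
    have e3 : (L.Ξ x) ∘ (fun t : ℝ => ((t, v.2) : ℝ × ℝ)) = φ c (L.ψ x v.2) := rfl
    rw [e3] at e2
    have e4 := hasMFDerivAt_unique e2 (φ_int c (L.ψ x v.2) v.1)
    have e5 := DFunLike.congr_fun e4 (1:ℝ)
    refine Eq.trans ?_ (e5.trans ?_)
    · rfl
    · exact one_smul ℝ (R (L.Ξ x v) : E)
  have h2 : (mfderiv 𝓘(ℝ, ℝ × ℝ) 𝓘(ℝ, E) (L.Ξ x) v ((0, 1) : ℝ × ℝ) : E) = L.Z (L.Ξ x v) := by
    have e1 : HasFDerivAt (fun t : ℝ => ((v.1, t) : ℝ × ℝ)) (ContinuousLinearMap.inr ℝ ℝ ℝ) v.2 :=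
      hasFDerivAt_prodMk_right v.1 v.2
    have e2 := HasMFDerivAt.comp v.2 (g := L.Ξ x) (f := fun t : ℝ => ((v.1, t) : ℝ × ℝ))
      (show HasMFDerivAt 𝓘(ℝ, ℝ × ℝ) 𝓘(ℝ, E) (L.Ξ x) (v.1, v.2) _ from hd) e1.hasMFDerivAt
    have e3 : (L.Ξ x) ∘ (fun t : ℝ => ((v.1, t) : ℝ × ℝ)) = L.ψ (φ c x v.1) := by
      funext t
      exact L.Ξ_comm x (v.1, t)
    rw [e3] at e2
    have e4 := hasMFDerivAt_unique e2 (L.ψ_int (φ c x v.1) v.2)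
    have e5 := DFunLike.congr_fun e4 (1:ℝ)
    refine Eq.trans ?_ (e5.trans ?_)
    · rfl
    · refine (one_smul ℝ (L.Z (L.ψ (φ c x v.1) v.2) : E)).trans ?_
      have e6 : ∀ y z : M, y = z → (L.Z y : E) = L.Z z := by rintro _ _ rfl; rfl
      exact e6 _ _ (L.Ξ_comm x v).symm
  have h3 : w = w.1 • ((1, 0) : ℝ × ℝ) + w.2 • ((0, 1) : ℝ × ℝ) := by
    ext <;> simp
  have h4 := map_add (mfderiv 𝓘(ℝ, ℝ × ℝ) 𝓘(ℝ, E) (L.Ξ x) v) (w.1 • ((1, 0) : ℝ × ℝ))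
    (w.2 • ((0, 1) : ℝ × ℝ))
  have h5 := map_smul (mfderiv 𝓘(ℝ, ℝ × ℝ) 𝓘(ℝ, E) (L.Ξ x) v) w.1 ((1, 0) : ℝ × ℝ)
  have h6 := map_smul (mfderiv 𝓘(ℝ, ℝ × ℝ) 𝓘(ℝ, E) (L.Ξ x) v) w.2 ((0, 1) : ℝ × ℝ)
  have h7 : (mfderiv 𝓘(ℝ, ℝ × ℝ) 𝓘(ℝ, E) (L.Ξ x) v w : E) =
      (mfderiv 𝓘(ℝ, ℝ × ℝ) 𝓘(ℝ, E) (L.Ξ x) v
        (w.1 • ((1, 0) : ℝ × ℝ) + w.2 • ((0, 1) : ℝ × ℝ)) : E) :=
    congrArg (fun w : ℝ × ℝ => (mfderiv 𝓘(ℝ, ℝ × ℝ) 𝓘(ℝ, E) (L.Ξ x) v w : E)) h3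
  refine h7.trans (h4.trans ?_)
  refine (congrArg₂ (fun a b : E => a + b) h5 h6).trans ?_
  refine (congrArg₂ (fun a b : E => w.1 • a + w.2 • b) h1 h2)

/-- the action is locally free -/
lemma dΞ_inj {x : M} (hx : L.Z x ≠ 0) (v : ℝ × ℝ) {w : ℝ × ℝ}
    (h : (mfderiv 𝓘(ℝ, ℝ × ℝ) 𝓘(ℝ, E) (L.Ξ x) v w : E) = 0) : w = 0 := by
  rw [L.dΞ] at h
  have h1 : β (L.Ξ x v) (w.1 • R (L.Ξ x v) + w.2 • L.Z (L.Ξ x v)) = 0 := by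
    have := congrArg (fun z : E => β (L.Ξ x v) z) h
    exact this.trans (map_zero (β (L.Ξ x v)))
  rw [map_add, map_smul, map_smul, c.reeb.unit, L.β_Z, smul_zero, add_zero, smul_eq_mul,
    mul_one] at h1
  rw [h1, zero_smul, zero_add] at h
  rcases smul_eq_zero.1 h with h2 | h2
  · exact Prod.ext h1 h2
  · exact absurd h2 (L.Z_Ξ hx v)

/-- the periods -/
def Λ (x : M) : AddSubgroup (ℝ × ℝ) where
  carrier := {v | L.Ξ x v = x}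
  zero_mem' := L.Ξ_zero x
  add_mem' := fun {v w} hv hw => by
    show L.Ξ x (v + w) = x
    rw [L.Ξ_add, show L.Ξ x v = x from hv]
    exact hw
  neg_mem' := fun {v} hv => by
    show L.Ξ x (-v) = x
    have h : L.Ξ x v = x := hv
    have h1 := L.Ξ_add x v (-v)
    rw [add_neg_cancel, L.Ξ_zero, h] at h1
    exact h1.symm

lemma mem_Λ {x : M} {v : ℝ × ℝ} : v ∈ L.Λ x ↔ L.Ξ x v = x := Iff.rfl

lemma sub_mem_Λ {x : M} {v w : ℝ × ℝ} (h : L.Ξ x v = L.Ξ x w) : v - w ∈ L.Λ x := by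
  rw [mem_Λ, sub_eq_add_neg, L.Ξ_add, h, ← L.Ξ_add, add_neg_cancel, L.Ξ_zero]

lemma closed_Λ (x : M) : IsClosed (L.Λ x : Set (ℝ × ℝ)) :=
  isClosed_eq (L.smooth_Ξx x).continuous continuous_const

/-- determinant -/
def det (v w : ℝ × ℝ) : ℝ := v.1 * w.2 - v.2 * w.1

end LF

namespace Hyp

variable {N : ℕ} (H : Hyp c N)

include H

/-- the local solution lemma for the action of the plane -/
lemma solve (L : LF c) {x : M} (hx : L.Z x ≠ 0) {v₀ : ℝ × ℝ} (hv₀ : L.Ξ x v₀ = x) :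
    ∃ I : Fin N → M → ℝ, (∀ i, RI R (I i)) ∧ ∃ vh : M × M → ℝ × ℝ,
      ContMDiffAt (𝓘(ℝ, E).prod 𝓘(ℝ, E)) 𝓘(ℝ, ℝ × ℝ) ∞ vh (x, x) ∧ vh (x, x) = v₀ ∧
      (∀ᶠ q in 𝓝 (x, x), Fm I q.1 = Fm I q.2 → L.Ξ q.1 (vh q) = q.2) ∧
      (∀ᶠ q in 𝓝 (x, v₀), vh (q.1, L.Ξ q.1 q.2) = q.2) := by
  obtain ⟨I, hI, hli⟩ := H.rank x
  refine ⟨I, hI, ?_⟩
  exact local_solve (E := E) (K := Fin N → ℝ) (V := ℝ × ℝ) (F := Fm I)
    (Ξ := L.Ξ) (x₀ := x) (v₀ := v₀) L.smooth_Ξ (smooth_Fm fun i => (hI i).sm)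
    (fun x t => by funext i; exact L.inv_Ξ (hI i) x t) hv₀ (surj_Fm (fun i => (hI i).sm) hli)
    (fun w h => L.dΞ_inj hx v₀ h)
    (by rw [Module.finrank_fin_fun, Module.finrank_prod, Module.finrank_self]; exact H.dim)

/-- **Continuation of periods.** -/
lemma cont (L : LF c) {x : M} (hx : L.Z x ≠ 0) {v₀ : ℝ × ℝ} (hv₀ : v₀ ∈ L.Λ x) :
    ∃ T : M → ℝ × ℝ, ContMDiffAt 𝓘(ℝ, E) 𝓘(ℝ, ℝ × ℝ) ∞ T x ∧ T x = v₀ ∧
      (∀ᶠ y in 𝓝 x, T y ∈ L.Λ y) ∧ (∀ᶠ q in 𝓝 (x, v₀), q.2 ∈ L.Λ q.1 → q.2 = T q.1) := by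
  obtain ⟨I, hI, vh, h1, h2, h3, h4⟩ := H.solve L hx hv₀
  refine ⟨fun y => vh (y, y), ?_, h2, ?_, ?_⟩
  · exact ContMDiffAt.comp x (g := vh) (f := fun y : M => (y, y)) h1
      (contMDiffAt_id.prodMk contMDiffAt_id)
  · have h5 : Filter.Tendsto (fun y : M => (y, y)) (𝓝 x) (𝓝 (x, x)) :=
      (continuous_id.prodMk continuous_id).tendsto x
    filter_upwards [h5.eventually h3] with y hy
    exact hy rfl
  · filter_upwards [h4] with q hq hm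
    rw [LF.mem_Λ] at hm
    rw [hm] at hq
    exact hq.symm

/-- periods are discrete -/
lemma discrete (L : LF c) {x : M} (hx : L.Z x ≠ 0) :
    ∃ ε > 0, ∀ v ∈ L.Λ x, ‖v‖ < ε → v = 0 := by
  obtain ⟨T, h1, h2, h3, h4⟩ := H.cont L hx (L.Λ x).zero_mem
  have h5 : Filter.Tendsto (fun v : ℝ × ℝ => (x, v)) (𝓝 0) (𝓝 (x, 0)) :=
    (continuous_const.prodMk continuous_id).tendsto 0
  have h6 := h5.eventually h4
  rw [Metric.eventually_nhds_iff] at h6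
  obtain ⟨ε, hε, h6⟩ := h6
  refine ⟨ε, hε, fun v hv hn => ?_⟩
  have h7 := h6 (y := v) (by rwa [dist_zero_right]) hv
  rw [h2] at h7
  exact h7

lemma finite_ball (L : LF c) {x : M} (hx : L.Z x ≠ 0) (r : ℝ) :
    (closedBall (0 : ℝ × ℝ) r ∩ (L.Λ x : Set (ℝ × ℝ))).Finite := by
  obtain ⟨ε, hε, h⟩ := H.discrete L hx
  have hd : IsOpen ({0} : Set (L.Λ x)) := by
    rw [Metric.isOpen_iff]
    intro y hy
    rw [mem_singleton_iff] at hy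
    subst hy
    refine ⟨ε, hε, fun z hz => ?_⟩
    rw [mem_singleton_iff]
    rw [Metric.mem_ball, dist_zero_right] at hz
    exact Subtype.ext (h z z.2 hz)
  have hdt : DiscreteTopology (L.Λ x) := discreteTopology_of_isOpen_singleton_zero hd
  exact Metric.finite_isBounded_inter_isClosed ⟨hdt⟩ Metric.isBounded_closedBall (L.closed_Λ x)

lemma countable_Λ (L : LF c) {x : M} (hx : L.Z x ≠ 0) : (L.Λ x : Set (ℝ × ℝ)).Countable := by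
  have h : (L.Λ x : Set (ℝ × ℝ)) ⊆ ⋃ n : ℕ, closedBall (0 : ℝ × ℝ) n ∩ (L.Λ x : Set (ℝ × ℝ)) := by
    intro v hv
    obtain ⟨n, hn⟩ := exists_nat_ge ‖v‖
    exact mem_iUnion.2 ⟨n, by rwa [mem_closedBall, dist_zero_right], hv⟩
  exact (countable_iUnion fun n : ℕ => (H.finite_ball L hx n).countable).mono h

/-- leaves are closed -/
lemma closed_leaf (L : LF c) {x : M} (hx : L.Z x ≠ 0) : IsClosed (range (L.Ξ x)) := by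
  rw [← closure_subset_iff_isClosed]
  intro y hy
  obtain ⟨L', hL'⟩ := H.exists_LF y
  obtain ⟨I, hI, vh, h1, h2, h3, -⟩ := H.solve L' hL' (L'.Ξ_zero y)
  have h4 : Filter.Tendsto (fun z : M => (z, y)) (𝓝 y) (𝓝 (y, y)) :=
    (continuous_id.prodMk continuous_const).tendsto y
  obtain ⟨z, hz, v, rfl⟩ := mem_closure_iff_nhds.1 hy _ (h4.eventually h3)
  have hF : Fm I y = Fm I x := by
    have hcl : IsClosed {z | Fm I z = Fm I x} :=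
      isClosed_eq (smooth_Fm fun i => (hI i).sm).continuous continuous_const
    have : closure (range (L.Ξ x)) ⊆ {z | Fm I z = Fm I x} := by
      apply hcl.closure_subset_iff.2
      rintro _ ⟨v, rfl⟩
      funext i
      exact L.inv_Ξ (hI i) x v
    exact this hy
  have h5 : L'.Ξ (L.Ξ x v) (vh (L.Ξ x v, y)) = y := by
    apply hz
    show Fm I (L.Ξ x v) = Fm I y
    rw [hF]
    funext i
    exact L.inv_Ξ (hI i) x v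
  obtain ⟨ρ, -, hρ⟩ := H.scale L L' (L.Z_Ξ hx v)
  set w := vh (L.Ξ x v, y) with hw
  refine ⟨v + (w.1, ρ * w.2), ?_⟩
  rw [L.Ξ_add, ← h5]
  show φ c (L.ψ (L.Ξ x v) (ρ * w.2)) w.1 = φ c (L'.ψ (L.Ξ x v) w.2) w.1
  rw [hρ]

/-- periods are cocompact -/
lemma cover (L : LF c) {x : M} (hx : L.Z x ≠ 0) :
    ∃ C : ℝ, ∀ v : ℝ × ℝ, ∃ l ∈ L.Λ x, ‖v - l‖ ≤ C := by
  have hK : IsCompact (range (L.Ξ x)) := (H.closed_leaf L hx).isCompact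
  have h := hK.induction_on
    (p := fun s => ∃ C : ℝ, ∀ v : ℝ × ℝ, L.Ξ x v ∈ s → ∃ l ∈ L.Λ x, ‖v - l‖ ≤ C)
    ⟨0, fun v hv => absurd hv (notMem_empty _)⟩
    (fun s t hst ⟨C, ht⟩ => ⟨C, fun v hv => ht v (hst hv)⟩)
    (fun s t ⟨C, hs⟩ ⟨C', ht⟩ => ⟨max C C', fun v hv => by
      rcases hv with hv | hv
      · obtain ⟨l, hl, hlC⟩ := hs v hv
        exact ⟨l, hl, hlC.trans (le_max_left _ _)⟩
      · obtain ⟨l, hl, hlC⟩ := ht v hv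
        exact ⟨l, hl, hlC.trans (le_max_right _ _)⟩⟩)
    (fun y hy => by
      obtain ⟨v₁, rfl⟩ := hy
      obtain ⟨I, hI, vh, h1, h2, h3, -⟩ := H.solve L (L.Z_Ξ hx v₁) (L.Ξ_zero (L.Ξ x v₁))
      have h4 : Filter.Tendsto (fun z : M => (L.Ξ x v₁, z)) (𝓝 (L.Ξ x v₁))
          (𝓝 (L.Ξ x v₁, L.Ξ x v₁)) :=
        (continuous_const.prodMk continuous_id).tendsto _
      have h5 : ∀ᶠ z in 𝓝 (L.Ξ x v₁), ‖vh (L.Ξ x v₁, z)‖ < 1 := by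
        have h6 : ContinuousAt (fun q => ‖vh q‖) (L.Ξ x v₁, L.Ξ x v₁) := h1.continuousAt.norm
        have h7 : Filter.Tendsto (fun z : M => ‖vh (L.Ξ x v₁, z)‖) (𝓝 (L.Ξ x v₁))
          (𝓝 ‖vh (L.Ξ x v₁, L.Ξ x v₁)‖) := Filter.Tendsto.comp (g := fun q => ‖vh q‖) h6 h4
        rw [h2, norm_zero] at h7
        exact h7.eventually (gt_mem_nhds one_pos)
      refine ⟨_, mem_nhdsWithin_of_mem_nhds (Filter.inter_mem (h4.eventually h3) h5),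
        ‖v₁‖ + 1, ?_⟩
      rintro v ⟨hv1, hv2⟩
      have h6 : L.Ξ (L.Ξ x v₁) (vh (L.Ξ x v₁, L.Ξ x v)) = L.Ξ x v := by
        apply hv1
        funext i
        show I i (L.Ξ x v₁) = I i (L.Ξ x v)
        rw [L.inv_Ξ (hI i), L.inv_Ξ (hI i)]
      rw [← L.Ξ_add] at h6
      refine ⟨_, L.sub_mem_Λ h6.symm, ?_⟩
      rw [sub_sub_cancel]
      refine (norm_add_le _ _).trans ?_
      have : ‖vh (L.Ξ x v₁, L.Ξ x v)‖ < 1 := hv2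
      linarith)
  obtain ⟨C, hC⟩ := h
  exact ⟨C, fun v => hC v ⟨v, rfl⟩⟩

/-- the periods are not contained in the kernel of a functional -/
lemma exists_ne (L : LF c) {x : M} (hx : L.Z x ≠ 0) (f : ℝ × ℝ →L[ℝ] ℝ) (hf : f ≠ 0) :
    ∃ l ∈ L.Λ x, f l ≠ 0 := by
  by_contra hno
  push Not at hno
  obtain ⟨C, hC⟩ := H.cover L hx
  obtain ⟨v, hv⟩ : ∃ v, f v ≠ 0 := by
    by_contra h
    push Not at h
    exact hf (ContinuousLinearMap.ext h)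
  obtain ⟨n, hn⟩ := exists_nat_gt (‖f‖ * C / |f v|)
  obtain ⟨l, hl, hlC⟩ := hC ((n:ℝ) • v)
  have h1 : f ((n:ℝ) • v - l) = n * f v := by
    rw [map_sub, map_smul, hno l hl, sub_zero, smul_eq_mul]
  have h2 : |(n:ℝ) * f v| ≤ ‖f‖ * C := by
    rw [← h1]
    exact (f.le_opNorm _).trans (mul_le_mul_of_nonneg_left hlC (norm_nonneg _))
  rw [div_lt_iff₀ (abs_pos.2 hv)] at hn
  rw [abs_mul, Nat.abs_cast] at h2
  linarith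

/-- independent periods -/
lemma exists_indep (L : LF c) {x : M} (hx : L.Z x ≠ 0) :
    ∃ v ∈ L.Λ x, ∃ w ∈ L.Λ x, LF.det v w ≠ 0 := by
  obtain ⟨v, hv, hv0⟩ := H.exists_ne L hx (ContinuousLinearMap.fst ℝ ℝ ℝ) (by
    intro h
    have := DFunLike.congr_fun h ((1, 0) : ℝ × ℝ)
    simp at this)
  have hv1 : v.1 ≠ 0 := hv0
  obtain ⟨w, hw, hw0⟩ := H.exists_ne L hx
    (v.1 • ContinuousLinearMap.snd ℝ ℝ ℝ - v.2 • ContinuousLinearMap.fst ℝ ℝ ℝ) (by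
    intro h
    have := DFunLike.congr_fun h ((0, 1) : ℝ × ℝ)
    simp at this
    exact hv1 this)
  exact ⟨v, hv, w, hw, hw0⟩

/-- any period is a rational combination of two independent ones -/
lemma rational (L : LF c) {x : M} (hx : L.Z x ≠ 0) {v₁ v₂ : ℝ × ℝ} (h₁ : v₁ ∈ L.Λ x)
    (h₂ : v₂ ∈ L.Λ x) (hd : LF.det v₁ v₂ ≠ 0) {v : ℝ × ℝ} (hv : v ∈ L.Λ x) :
    ∃ a b : ℚ, v = (a : ℝ) • v₁ + (b : ℝ) • v₂ := by
  -- coordinates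
  set A : ℝ := LF.det v v₂ / LF.det v₁ v₂ with hA
  set B : ℝ := LF.det v₁ v / LF.det v₁ v₂ with hB
  have hAB : v = A • v₁ + B • v₂ := by
    have hd' : v₁.1 * v₂.2 - v₁.2 * v₂.1 ≠ 0 := hd
    ext
    · simp only [hA, hB, LF.det, Prod.fst_add, Prod.smul_fst, smul_eq_mul]
      rw [div_mul_eq_mul_div, div_mul_eq_mul_div, ← add_div, eq_div_iff hd']
      ring
    · simp only [hA, hB, LF.det, Prod.snd_add, Prod.smul_snd, smul_eq_mul]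
      rw [div_mul_eq_mul_div, div_mul_eq_mul_div, ← add_div, eq_div_iff hd']
      ring
  -- reduction modulo the sublattice
  let u : ℕ → ℝ × ℝ := fun k => (k:ℤ) • v - ⌊(k:ℝ) * A⌋ • v₁ - ⌊(k:ℝ) * B⌋ • v₂
  have hu : ∀ k, u k = (Int.fract ((k:ℝ) * A)) • v₁ + (Int.fract ((k:ℝ) * B)) • v₂ := by
    intro k
    show (k:ℤ) • v - ⌊(k:ℝ) * A⌋ • v₁ - ⌊(k:ℝ) * B⌋ • v₂ = _
    rw [← Int.cast_smul_eq_zsmul ℝ, ← Int.cast_smul_eq_zsmul ℝ, ← Int.cast_smul_eq_zsmul ℝ]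
    conv_lhs => rw [hAB]
    unfold Int.fract
    rw [Int.cast_natCast, smul_add, smul_smul, smul_smul, sub_smul, sub_smul]
    abel
  have humem : ∀ k, u k ∈ closedBall (0 : ℝ × ℝ) (‖v₁‖ + ‖v₂‖) ∩ (L.Λ x : Set (ℝ × ℝ)) := by
    intro k
    refine ⟨?_, ?_⟩
    · rw [mem_closedBall, dist_zero_right, hu]
      refine (norm_add_le _ _).trans ?_
      rw [norm_smul, norm_smul, Real.norm_of_nonneg (Int.fract_nonneg _),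
        Real.norm_of_nonneg (Int.fract_nonneg _)]
      have h3 := Int.fract_lt_one ((k:ℝ) * A)
      have h4 := Int.fract_lt_one ((k:ℝ) * B)
      have h5 := norm_nonneg v₁
      have h6 := norm_nonneg v₂
      nlinarith
    · exact (L.Λ x).sub_mem ((L.Λ x).sub_mem ((L.Λ x).zsmul_mem hv _)
        ((L.Λ x).zsmul_mem h₁ _)) ((L.Λ x).zsmul_mem h₂ _)
  have hfin := (H.finite_ball L hx (‖v₁‖ + ‖v₂‖)).to_subtype
  obtain ⟨k, l, hkl, he⟩ := Finite.exists_ne_map_eq_of_infinite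
    (fun k : ℕ => (⟨u k, humem k⟩ :
      (closedBall (0 : ℝ × ℝ) (‖v₁‖ + ‖v₂‖) ∩ (L.Λ x : Set (ℝ × ℝ)) : Set (ℝ × ℝ))))
  have he' : u k = u l := congrArg Subtype.val he
  have hkl' : ((k:ℝ) - l) ≠ 0 := by
    rw [sub_ne_zero]
    exact_mod_cast hkl
  have he2 : ((k:ℝ) - l) • v = ((⌊(k:ℝ) * A⌋ : ℝ) - ⌊(l:ℝ) * A⌋) • v₁ +
      ((⌊(k:ℝ) * B⌋ : ℝ) - ⌊(l:ℝ) * B⌋) • v₂ := by
    have h3 : (k:ℤ) • v - ⌊(k:ℝ) * A⌋ • v₁ - ⌊(k:ℝ) * B⌋ • v₂ =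
      (l:ℤ) • v - ⌊(l:ℝ) * A⌋ • v₁ - ⌊(l:ℝ) * B⌋ • v₂ := he'
    rw [← Int.cast_smul_eq_zsmul ℝ, ← Int.cast_smul_eq_zsmul ℝ, ← Int.cast_smul_eq_zsmul ℝ,
      ← Int.cast_smul_eq_zsmul ℝ, ← Int.cast_smul_eq_zsmul ℝ, ← Int.cast_smul_eq_zsmul ℝ,
      Int.cast_natCast, Int.cast_natCast] at h3
    rw [sub_smul, sub_smul, sub_smul]
    have h4 : (k:ℝ) • v = (l:ℝ) • v - (⌊(l:ℝ) * A⌋ : ℝ) • v₁ - (⌊(l:ℝ) * B⌋ : ℝ) • v₂ +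
        (⌊(k:ℝ) * A⌋ : ℝ) • v₁ + (⌊(k:ℝ) * B⌋ : ℝ) • v₂ := by
      rw [← h3]; abel
    rw [h4]; abel
  refine ⟨((⌊(k:ℝ) * A⌋ : ℚ) - ⌊(l:ℝ) * A⌋) / ((k:ℚ) - l),
    ((⌊(k:ℝ) * B⌋ : ℚ) - ⌊(l:ℝ) * B⌋) / ((k:ℚ) - l), ?_⟩
  have h5 : v = ((k:ℝ) - l)⁻¹ • (((k:ℝ) - l) • v) := by
    rw [smul_smul, inv_mul_cancel₀ hkl', one_smul]
  rw [h5, he2, smul_add, smul_smul, smul_smul]
  push_cast
  congr 2
  · rw [div_eq_inv_mul]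
  · rw [div_eq_inv_mul]

end Hyp

end Q169.SI
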