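import Mathlib
import Pool.Agent.Q169.SI.Latt

/-! No closed orbits on the leaves, derivatives of the periods. -/

open scoped Topology ContDiff Manifold
open Set Metric Bundle Pool.Agent.Helper186 Pool.Agent.H826R2.Wein

noncomputable section

namespace Q169.SI

set_option linter.unusedSectionVars false

universe u

variable {E : Type u} [NormedAddCommGroup E] [NormedSpace ℝ E] [FiniteDimensional ℝ E]
  {M : Type*} [TopologicalSpace M] [ChartedSpace E M] [IsManifold 𝓘(ℝ, E) ∞ M]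
  {β : (x : M) → TangentSpace 𝓘(ℝ, E) x →L[ℝ] ℝ} {R : (x : M) → TangentSpace 𝓘(ℝ, E) x}
  {c : CD β R} [T2Space M] [CompactSpace M]

namespace Hyp

variable {N : ℕ} (H : Hyp c N)

include H

lemma no_pos (hcount : (PS c).Countable) (L : LF c) {x : M} (hx : L.Z x ≠ 0) {T : ℝ} (hT : 0 < T)
    (h : ((T, 0) : ℝ × ℝ) ∈ L.Λ x) : False := by
  have h0 : φ c x T = x := by
    have h1 : φ c (L.ψ x 0) T = x := h
    rwa [L.ψ_zero] at h1
  have h1 : ∀ s, φ c (L.ψ x s) T = L.ψ x s := by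
    intro s
    rw [L.comm, h0]
  have hcnt : (⋃ O ∈ PS c, {s : ℝ | L.ψ x s ∈ O}).Countable := by
    refine hcount.biUnion fun O hO => ?_
    rcases Set.eq_empty_or_nonempty {s : ℝ | L.ψ x s ∈ O} with he | ⟨s₀, hs₀⟩
    · rw [he]; exact countable_empty
    · obtain ⟨y, T', -, -, rfl⟩ := hO
      obtain ⟨t₀, ht₀⟩ := hs₀
      have h2 : {s : ℝ | L.ψ x s ∈ range (φ c y)} ⊆
          (fun l : ℝ × ℝ => s₀ - l.2) '' (L.Λ x : Set (ℝ × ℝ)) := by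
        rintro s ⟨t, ht⟩
        have h3 : L.Ξ x (t - t₀, s₀) = L.Ξ x (0, s) := by
          show φ c (L.ψ x s₀) (t - t₀) = φ c (L.ψ x s) 0
          rw [φ_zero, ← ht, ← ht₀, ← φ_add]
          congr 1
          ring
        refine ⟨_, L.sub_mem_Λ h3, ?_⟩
        show s₀ - (s₀ - s) = s
        ring
      exact ((H.countable_Λ L hx).image _).mono h2
  apply Set.not_countable_univ (α := ℝ)
  refine hcnt.mono fun s _ => ?_
  exact mem_biUnion (show range (φ c (L.ψ x s)) ∈ PS c from ⟨_, T, hT, h1 s, rfl⟩)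
    ⟨0, φ_zero c _⟩

lemma no_T0 (hcount : (PS c).Countable) (L : LF c) {x : M} (hx : L.Z x ≠ 0) {v : ℝ × ℝ}
    (h : v ∈ L.Λ x) (h0 : v.2 = 0) : v = 0 := by
  rcases lt_trichotomy v.1 0 with h1 | h1 | h1
  · exfalso
    refine H.no_pos hcount L hx (T := - v.1) (by linarith) ?_
    have h2 := (L.Λ x).neg_mem h
    have h3 : -v = (-v.1, 0) := by
      ext
      · rfl
      · show - v.2 = 0
        rw [h0, neg_zero]
    rwa [h3] at h2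
  · exact Prod.ext h1 h0
  · exfalso
    refine H.no_pos hcount L hx (T := v.1) h1 ?_
    have h3 : v = (v.1, 0) := by
      ext
      · rfl
      · exact h0
    rwa [h3] at h

lemma snd_ne (hcount : (PS c).Countable) (L : LF c) {x : M} (hx : L.Z x ≠ 0) {v w : ℝ × ℝ}
    (hv : v ∈ L.Λ x) (hd : LF.det v w ≠ 0) : v.2 ≠ 0 := by
  intro h
  apply hd
  rw [H.no_T0 hcount L hx hv h]
  simp [LF.det]

/-- the slopes are irrational -/
lemma irr (hcount : (PS c).Countable) (L : LF c) {x : M} (hx : L.Z x ≠ 0) {v w : ℝ × ℝ}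
    (hv : v ∈ L.Λ x) (hw : w ∈ L.Λ x) (hd : LF.det v w ≠ 0) : Irrational (v.2 / w.2) := by
  have hw2 : w.2 ≠ 0 := by
    refine H.snd_ne hcount L hx (v := w) (w := v) hw ?_
    intro h
    apply hd
    unfold LF.det at h ⊢
    linarith
  rintro ⟨q, hq⟩
  have h1 : (q.den : ℤ) • v - q.num • w ∈ L.Λ x :=
    (L.Λ x).sub_mem ((L.Λ x).zsmul_mem hv _) ((L.Λ x).zsmul_mem hw _)
  have hden : (q.den : ℝ) ≠ 0 := by exact_mod_cast q.den_nz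
  have h2 : ((q.den : ℤ) • v - q.num • w).2 = 0 := by
    rw [Prod.snd_sub, Prod.smul_snd, Prod.smul_snd, zsmul_eq_mul, zsmul_eq_mul]
    have h3 : (q:ℝ) * w.2 = v.2 := by rw [hq, div_mul_cancel₀ _ hw2]
    have h4 : (q:ℝ) = q.num / q.den := by exact_mod_cast (Rat.num_div_den q).symm
    rw [h4] at h3
    rw [← h3]
    push_cast
    field_simp
    ring
  have h3 := H.no_T0 hcount L hx h1 h2
  apply hd
  have h4 : (q.den : ℝ) * v.1 = q.num * w.1 := by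
    have := congrArg Prod.fst h3
    rw [Prod.fst_sub, Prod.smul_fst, Prod.smul_fst, zsmul_eq_mul, zsmul_eq_mul] at this
    have h5 : ((q.den : ℤ) : ℝ) * v.1 - q.num * w.1 = 0 := this
    push_cast at h5
    linarith
  have h5 : (q.den : ℝ) * v.2 = q.num * w.2 := by
    have := congrArg Prod.snd h3
    rw [Prod.snd_sub, Prod.smul_snd, Prod.smul_snd, zsmul_eq_mul, zsmul_eq_mul] at this
    have h5 : ((q.den : ℤ) : ℝ) * v.2 - q.num * w.2 = 0 := this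
    push_cast at h5
    linarith
  unfold LF.det
  apply mul_left_cancel₀ hden
  rw [mul_zero, mul_sub, ← mul_assoc, ← mul_assoc, h4, h5]
  ring

end Hyp

namespace LF

variable (L : LF c)

lemma Ξ_pull (v : ℝ × ℝ) (x : M) (u : TangentSpace 𝓘(ℝ, E) x) :
    β (L.Ξ x v) (mfderiv 𝓘(ℝ, E) 𝓘(ℝ, E) (fun x => L.Ξ x v) x u) = β x u - v.2 * L.mu x u := by
  have h1 : mfderiv 𝓘(ℝ, E) 𝓘(ℝ, E) ((fun y => φ c y v.1) ∘ fun x => L.ψ x v.2) x =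
      (mfderiv 𝓘(ℝ, E) 𝓘(ℝ, E) (fun y => φ c y v.1) (L.ψ x v.2)).comp
      (mfderiv 𝓘(ℝ, E) 𝓘(ℝ, E) (fun x => L.ψ x v.2) x) :=
    mfderiv_comp x ((smooth_φt c v.1).mdifferentiableAt (by simp))
      ((L.smooth_ψt v.2).mdifferentiableAt (by simp))
  have h2 := DFunLike.congr_fun h1 u
  have h3 := φ_strict c v.1 (L.ψ x v.2) (mfderiv 𝓘(ℝ, E) 𝓘(ℝ, E) (fun x => L.ψ x v.2) x u)
  have h4 := L.pull_β v.2 x u
  have h5 : β (L.Ξ x v) (mfderiv 𝓘(ℝ, E) 𝓘(ℝ, E) (fun x => L.Ξ x v) x u) =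
      β (φ c (L.ψ x v.2) v.1) (mfderiv 𝓘(ℝ, E) 𝓘(ℝ, E) (fun y => φ c y v.1) (L.ψ x v.2)
        (mfderiv 𝓘(ℝ, E) 𝓘(ℝ, E) (fun x => L.ψ x v.2) x u)) :=
    congrArg (fun w : E => β (L.Ξ x v) w) h2
  rw [h5, h3, h4]

/-- **The derivative of a period.** -/
lemma deriv_period {T : M → ℝ × ℝ} {y : M}
    (hT : MDifferentiableAt 𝓘(ℝ, E) 𝓘(ℝ, ℝ × ℝ) T y) (hΛ : ∀ᶠ z in 𝓝 y, T z ∈ L.Λ z)
    (u : TangentSpace 𝓘(ℝ, E) y) :
    (mfderiv 𝓘(ℝ, E) 𝓘(ℝ, ℝ × ℝ) T y u : ℝ × ℝ).1 = (T y).2 * L.mu y u := by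
  have hy : L.Ξ y (T y) = y := hΛ.self_of_nhds
  have hS : (fun z => L.Ξ z (T z)) =ᶠ[𝓝 y] id := hΛ.mono fun z hz => hz
  have h1 : (mfderiv 𝓘(ℝ, E) 𝓘(ℝ, E) (fun z => L.Ξ z (T z)) y u : E) = u := by
    rw [hS.mfderiv_eq]
    rw [mfderiv_id]
    rfl
  have hΞ : MDifferentiableAt (𝓘(ℝ, E).prod 𝓘(ℝ, ℝ × ℝ)) 𝓘(ℝ, E)
      (fun p : M × (ℝ × ℝ) => L.Ξ p.1 p.2) (y, T y) := L.smooth_Ξ.mdifferentiableAt (by simp)
  have hpair : HasMFDerivAt 𝓘(ℝ, E) (𝓘(ℝ, E).prod 𝓘(ℝ, ℝ × ℝ)) (fun z => (z, T z)) y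
      ((ContinuousLinearMap.id ℝ (TangentSpace 𝓘(ℝ, E) y)).prod
        (mfderiv 𝓘(ℝ, E) 𝓘(ℝ, ℝ × ℝ) T y)) :=
    (hasMFDerivAt_id y).prodMk hT.hasMFDerivAt
  have h2 := HasMFDerivAt.comp y (g := fun p : M × (ℝ × ℝ) => L.Ξ p.1 p.2)
    (f := fun z => (z, T z)) hΞ.hasMFDerivAt hpair
  have h3 := DFunLike.congr_fun h2.mfderiv u
  have h4 := mfderiv_prod_eq_add_apply (f := fun p : M × (ℝ × ℝ) => L.Ξ p.1 p.2) (p := (y, T y))
    (v := ((u, mfderiv 𝓘(ℝ, E) 𝓘(ℝ, ℝ × ℝ) T y u) :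
      TangentSpace (𝓘(ℝ, E).prod 𝓘(ℝ, ℝ × ℝ)) (y, T y))) hΞ
  have h5 : (u : E) = (mfderiv 𝓘(ℝ, E) 𝓘(ℝ, E) (fun z => L.Ξ z (T y)) y u : E) +
      (mfderiv 𝓘(ℝ, ℝ × ℝ) 𝓘(ℝ, E) (L.Ξ y) (T y) (mfderiv 𝓘(ℝ, E) 𝓘(ℝ, ℝ × ℝ) T y u) : E) :=
    h1.symm.trans (h3.trans h4)
  set w : ℝ × ℝ := mfderiv 𝓘(ℝ, E) 𝓘(ℝ, ℝ × ℝ) T y u with hw
  have h6 : (mfderiv 𝓘(ℝ, ℝ × ℝ) 𝓘(ℝ, E) (L.Ξ y) (T y) w : E) =
      w.1 • (R (L.Ξ y (T y)) : E) + w.2 • (L.Z (L.Ξ y (T y)) : E) := L.dΞ y (T y) w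
  have h7 := L.Ξ_pull (T y) y u
  have h8 : β (L.Ξ y (T y)) (w.1 • R (L.Ξ y (T y)) + w.2 • L.Z (L.Ξ y (T y))) = w.1 := by
    rw [map_add, map_smul, map_smul, c.reeb.unit, L.β_Z, smul_zero, add_zero, smul_eq_mul, mul_one]
  have h9 : β (L.Ξ y (T y)) u = β y u := by
    have h10 : ∀ z : M, z = y → β z (u : E) = β y (u : E) := by rintro _ rfl; rfl
    exact h10 _ hy
  have h10 : β (L.Ξ y (T y)) u =
      β (L.Ξ y (T y)) (mfderiv 𝓘(ℝ, E) 𝓘(ℝ, E) (fun z => L.Ξ z (T y)) y u) +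
      β (L.Ξ y (T y)) (w.1 • R (L.Ξ y (T y)) + w.2 • L.Z (L.Ξ y (T y))) := by
    have h11 := congrArg (fun z : E => β (L.Ξ y (T y)) z) h5
    refine h11.trans ?_
    refine (map_add (β (L.Ξ y (T y))) _ _).trans ?_
    congr 1
    exact congrArg (fun z : E => β (L.Ξ y (T y)) z) h6
  rw [h9, h7, h8] at h10
  linarith

end LF

/-! ### Local constancy -/

lemma chart_nhds (x : M) {S : Set M} (hS : S ∈ 𝓝 x) :
    ∃ U ∈ 𝓝 x, U ⊆ S ∧ ∀ y ∈ U, ∃ (g : E → M) (B : Set E), Convex ℝ B ∧ IsOpen B ∧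
      ContMDiffOn 𝓘(ℝ, E) 𝓘(ℝ, E) ∞ g B ∧ MapsTo g B U ∧ x ∈ g '' B ∧ y ∈ g '' B := by
  set χ := extChartAt 𝓘(ℝ, E) x with hχ
  have hsrc : x ∈ χ.source := mem_extChartAt_source x
  have hc : ContinuousAt χ.symm (χ x) := continuousAt_extChartAt_symm x
  have h1 : χ.symm ⁻¹' S ∈ 𝓝 (χ x) := by
    apply hc
    rw [hχ, extChartAt_to_inv]
    exact hS
  have h2 : χ.target ∈ 𝓝 (χ x) := extChartAt_target_mem_nhds x
  obtain ⟨r, hr, hrs⟩ := Metric.mem_nhds_iff.1 (Filter.inter_mem h1 h2)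
  have hcx : ContinuousAt χ x := continuousAt_extChartAt x
  refine ⟨χ.source ∩ χ ⁻¹' (ball (χ x) r), Filter.inter_mem (extChartAt_source_mem_nhds x)
    (hcx (ball_mem_nhds _ hr)), ?_, ?_⟩
  · rintro y ⟨hy1, hy2⟩
    have h3 := (hrs hy2).1
    rw [mem_preimage, χ.left_inv hy1] at h3
    exact h3
  · rintro y ⟨hy1, hy2⟩
    refine ⟨χ.symm, ball (χ x) r, convex_ball _ _, isOpen_ball,
      (contMDiffOn_extChartAt_symm x).mono fun z hz => (hrs hz).2, ?_, ?_, ?_⟩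
    · intro z hz
      have h3 := (hrs hz).2
      refine ⟨χ.map_target h3, ?_⟩
      rw [mem_preimage, χ.right_inv h3]
      exact hz
    · exact ⟨χ x, mem_ball_self hr, χ.left_inv hsrc⟩
    · exact ⟨χ y, hy2, χ.left_inv hy1⟩

variable (E) in
include E in
/-- a continuous function with irrational values is locally constant -/
lemma const_of_irrational {x : M} {f : M → ℝ} (hc : ∀ᶠ y in 𝓝 x, ContinuousAt f y)
    (hi : ∀ᶠ y in 𝓝 x, Irrational (f y)) : ∀ᶠ y in 𝓝 x, f y = f x := by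
  obtain ⟨U, hU, hUS, hg⟩ := chart_nhds (E := E) x (hc.and hi)
  filter_upwards [hU] with y hy
  obtain ⟨g, B, hB, hBo, hgs, hgU, ⟨a, ha, rfl⟩, ⟨b, hb, rfl⟩⟩ := hg y hy
  by_contra hne
  have hcont : ContinuousOn (fun z => f (g z)) B := by
    intro z hz
    have h1 : ContinuousAt f (g z) := (hUS (hgU hz)).1
    exact ContinuousAt.comp_continuousWithinAt (g := f) h1 (hgs.continuousOn z hz)
  have hpre : IsPreconnected ((fun z => f (g z)) '' B) := hB.isPreconnected.image _ hcont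
  rcases lt_or_gt_of_ne hne with h | h
  · obtain ⟨q, hq1, hq2⟩ := exists_rat_btwn h
    have h1 := hpre.ordConnected.out (mem_image_of_mem (fun z => f (g z)) hb)
      (mem_image_of_mem (fun z => f (g z)) ha) ⟨hq1.le, hq2.le⟩
    obtain ⟨z, hz, hzq⟩ := h1
    exact (hUS (hgU hz)).2 ⟨q, hzq.symm⟩
  · obtain ⟨q, hq1, hq2⟩ := exists_rat_btwn h
    have h1 := hpre.ordConnected.out (mem_image_of_mem (fun z => f (g z)) ha)
      (mem_image_of_mem (fun z => f (g z)) hb) ⟨hq1.le, hq2.le⟩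
    obtain ⟨z, hz, hzq⟩ := h1
    exact (hUS (hgU hz)).2 ⟨q, hzq.symm⟩

/-- a function with vanishing derivative is locally constant -/
lemma const_of_mfderiv {x : M} {f : M → ℝ}
    (hd : ∀ᶠ y in 𝓝 x, MDifferentiableAt 𝓘(ℝ, E) 𝓘(ℝ, ℝ) f y)
    (h0 : ∀ᶠ y in 𝓝 x, ∀ u : TangentSpace 𝓘(ℝ, E) y,
      (mfderiv 𝓘(ℝ, E) 𝓘(ℝ, ℝ) f y u : ℝ) = 0) : ∀ᶠ y in 𝓝 x, f y = f x := by
  obtain ⟨U, hU, hUS, hg⟩ := chart_nhds (E := E) x (hd.and h0)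
  filter_upwards [hU] with y hy
  obtain ⟨g, B, hB, hBo, hgs, hgU, ⟨a, ha, rfl⟩, ⟨b, hb, rfl⟩⟩ := hg y hy
  have hder : ∀ z ∈ B, HasFDerivWithinAt (fun z => f (g z)) (0 : E →L[ℝ] ℝ) B z := by
    intro z hz
    have h1 : MDifferentiableAt 𝓘(ℝ, E) 𝓘(ℝ, ℝ) f (g z) := (hUS (hgU hz)).1
    have h2 : ContMDiffAt 𝓘(ℝ, E) 𝓘(ℝ, E) ∞ g z := hgs.contMDiffAt (hBo.mem_nhds hz)
    have h3 := HasMFDerivAt.comp z (g := f) (f := g) h1.hasMFDerivAt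
      (h2.mdifferentiableAt (by simp)).hasMFDerivAt
    have h4 : HasFDerivAt (fun z => f (g z)) (0 : E →L[ℝ] ℝ) z := by
      have h5 := hasMFDerivAt_iff_hasFDerivAt.mp h3
      refine h5.congr_fderiv ?_
      refine ContinuousLinearMap.ext fun w => ?_
      exact (hUS (hgU hz)).2 _
    exact h4.hasFDerivWithinAt
  exact hB.is_const_of_fderivWithin_eq_zero (𝕜 := ℝ) (f := fun z => f (g z))
    (fun z hz => (hder z hz).differentiableWithinAt)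
    (fun z hz => (hder z hz).fderivWithin (hBo.uniqueDiffWithinAt hz)) hb ha

end Q169.SI
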