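import Mathlib
import Pool.Agent.Q169.SI.Der

/-! The relation between the periods of the leaves and the contradiction. -/

open scoped Topology ContDiff Manifold
open Set Metric Bundle Pool.Agent.Helper186 Pool.Agent.H826R2.Wein

noncomputable section

namespace Q169.SI

set_option linter.unusedSectionVars false

universe u

variable {E : Type u} [NormedAddCommGroup E] [NormedSpace ℝ E] [FiniteDimensional ℝ E]
  {M : Type*} [TopologicalSpace M] [ChartedSpace E M] [IsManifold 𝓘(ℝ, E) ∞ M]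
  {β : (x : M) → TangentSpace 𝓘(ℝ, E) x →L[ℝ] ℝ} {R : (x : M) → TangentSpace 𝓘(ℝ, E) x}
  {c : CD β R} [T2Space M] [CompactSpace M]

lemma irr_lin {r : ℝ} (hr : Irrational r) {a b : ℚ} (h : (a:ℝ) + b * r = 0) : a = 0 ∧ b = 0 := by
  have hb : b = 0 := by
    by_contra hb
    apply hr
    refine ⟨-a / b, ?_⟩
    have hb' : (b:ℝ) ≠ 0 := by exact_mod_cast hb
    push_cast
    rw [div_eq_iff hb']
    linarith
  refine ⟨?_, hb⟩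
  rw [hb] at h
  have : (a:ℝ) = 0 := by
    rw [← h]; push_cast; ring
  exact_mod_cast this

/-- Critical points of local maxima. -/
lemma mfderiv_zero_of_localMax {f : M → ℝ} {y : M} (h : ∀ᶠ z in 𝓝 y, f z ≤ f y)
    (hd : MDifferentiableAt 𝓘(ℝ, E) 𝓘(ℝ, ℝ) f y) (u : TangentSpace 𝓘(ℝ, E) y) :
    (mfderiv 𝓘(ℝ, E) 𝓘(ℝ, ℝ) f y u : ℝ) = 0 := by
  set χ := extChartAt 𝓘(ℝ, E) y with hχ
  have h1 := hd.mfderiv
  have h2 : IsLocalMax (fun ξ => f (χ.symm ξ)) (χ y) := by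
    have hc : ContinuousAt χ.symm (χ y) := continuousAt_extChartAt_symm y
    have h3 : Filter.Tendsto χ.symm (𝓝 (χ y)) (𝓝 y) := by
      have h4 : Filter.Tendsto χ.symm (𝓝 (χ y)) (𝓝 (χ.symm (χ y))) := hc
      rwa [hχ, extChartAt_to_inv] at h4
    filter_upwards [h3.eventually h] with ξ hξ
    rw [hχ, extChartAt_to_inv]
    exact hξ
  have h3 := h2.fderiv_eq_zero
  have h4 : fderivWithin ℝ (writtenInExtChartAt 𝓘(ℝ, E) 𝓘(ℝ, ℝ) y f) (range 𝓘(ℝ, E)) (χ y) =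
      fderiv ℝ (fun ξ => f (χ.symm ξ)) (χ y) := by
    rw [modelWithCornersSelf_coe, range_id, fderivWithin_univ]
    rfl
  rw [h4, h3] at h1
  rw [h1]
  rfl

namespace LF

variable (L : LF c)

lemma isOpen_Z : IsOpen {y : M | L.Z y ≠ 0} := by
  have h : {y : M | L.Z y ≠ 0} = ⋃ s : ℝ, {y | L.ψ y s ≠ y} := by
    ext y
    rw [mem_iUnion]
    constructor
    · intro hy
      by_contra hno
      push Not at hno
      apply hy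
      have h1 : ∀ s, L.ψ y s = y := by
        intro s
        have := hno s
        simpa using this
      have h2 : L.ψ y = fun _ => y := funext h1
      have h3 := L.ψ_int y 0
      rw [h2] at h3
      have h4 := hasMFDerivAt_unique h3 (hasMFDerivAt_const (I := 𝓘(ℝ, ℝ)) (I' := 𝓘(ℝ, E)) y (0:ℝ))
      have h5 := DFunLike.congr_fun h4 (1:ℝ)
      have h6 : (1:ℝ) • (L.Z y : E) = 0 := h5
      rw [one_smul] at h6
      exact h6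
    · rintro ⟨s, hs⟩ h0
      exact hs (L.ψ_const h0 s)
  rw [h]
  exact isOpen_iUnion fun s => isOpen_ne_fun (L.smooth_ψt s).continuous continuous_id

end LF

/-- the relation -/
def Rel (c : CD β R) (r κ : ℝ) (y : M) (τ : ℝ) : Prop :=
  ∃ L : LF c, L.Z y ≠ 0 ∧ ∃ w : ℝ, w ≠ 0 ∧ ((τ, w) : ℝ × ℝ) ∈ L.Λ y ∧
    ((r * τ + κ, r * w) : ℝ × ℝ) ∈ L.Λ y

namespace Hyp

variable {N : ℕ} (H : Hyp c N)

include H

lemma change (L L' : LF c) {y : M} (hL : L.Z y ≠ 0) (hL' : L'.Z y ≠ 0) :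
    ∃ ρ : ℝ, ρ ≠ 0 ∧ ∀ v : ℝ × ℝ, v ∈ L'.Λ y → (v.1, ρ * v.2) ∈ L.Λ y := by
  obtain ⟨ρ, h1, h2⟩ := H.scale L L' hL
  refine ⟨ρ, ?_, fun v hv => ?_⟩
  · rintro rfl
    rw [zero_smul] at h1
    exact hL' h1
  · show φ c (L.ψ y (ρ * v.2)) v.1 = y
    rw [← h2]
    exact hv

lemma rel_iff (L : LF c) {y : M} (hL : L.Z y ≠ 0) {r κ τ : ℝ} (h : Rel c r κ y τ) :
    ∃ w : ℝ, w ≠ 0 ∧ ((τ, w) : ℝ × ℝ) ∈ L.Λ y ∧ ((r * τ + κ, r * w) : ℝ × ℝ) ∈ L.Λ y := by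
  obtain ⟨L', hL', w, hw, h1, h2⟩ := h
  obtain ⟨ρ, hρ, h3⟩ := H.change L L' hL hL'
  refine ⟨ρ * w, mul_ne_zero hρ hw, h3 _ h1, ?_⟩
  have h4 := h3 _ h2
  have e : ρ * (r * w) = r * (ρ * w) := by ring
  dsimp only at h4
  rwa [e] at h4

lemma rel_unique {r κ : ℝ} (hr : Irrational r) (hκ : κ ≠ 0) {y : M} {τ τ' : ℝ}
    (h : Rel c r κ y τ) (h' : Rel c r κ y τ') : τ' = τ := by
  obtain ⟨L, hL⟩ := H.exists_LF y
  obtain ⟨w, hw, h1, h2⟩ := H.rel_iff L hL h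
  obtain ⟨w', hw', h1', h2'⟩ := H.rel_iff L hL h'
  have hd : LF.det (r * τ + κ, r * w) (τ, w) ≠ 0 := by
    unfold LF.det
    have : (r * τ + κ) * w - r * w * τ = κ * w := by ring
    dsimp only
    rw [this]
    exact mul_ne_zero hκ hw
  obtain ⟨a, b, hab⟩ := H.rational L hL h2 h1 hd h1'
  obtain ⟨d, e, hde⟩ := H.rational L hL h2 h1 hd h2'
  have e1 : τ' = a * (r * τ + κ) + b * τ := congrArg Prod.fst hab
  have e2 : w' = a * (r * w) + b * w := congrArg Prod.snd hab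
  have e3 : r * τ' + κ = d * (r * τ + κ) + e * τ := congrArg Prod.fst hde
  have e4 : r * w' = d * (r * w) + e * w := congrArg Prod.snd hde
  have e5 : r * (a * r + b) = d * r + e := by
    apply mul_right_cancel₀ hw
    have : r * (a * r + b) * w = r * w' := by rw [e2]; ring
    rw [this, e4]; ring
  have e6 : κ * (a * r + 1 - d) = 0 := by
    have h3 : r * (a * (r * τ + κ) + b * τ) + κ = d * (r * τ + κ) + e * τ := by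
      rw [← e1, e3]
    have h4 : (r * (a * r + b)) * τ = (d * r + e) * τ := by rw [e5]
    linarith
  have e7 : ((1 - d : ℚ) : ℝ) + a * r = 0 := by
    rcases mul_eq_zero.1 e6 with h | h
    · exact absurd h hκ
    · push_cast; linarith
  obtain ⟨h7, h8⟩ := irr_lin hr e7
  have hd1 : d = 1 := by linarith
  rw [h8, hd1] at e5
  have e8 : ((-e : ℚ) : ℝ) + ((b - 1 : ℚ) : ℝ) * r = 0 := by
    push_cast
    push_cast at e5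
    linarith
  obtain ⟨h9, h10⟩ := irr_lin hr e8
  have hb1 : b = 1 := by linarith
  rw [e1, h8, hb1]
  push_cast
  ring

/-- two independent periods satisfy an affine relation near the point -/
lemma local_rel (hcount : (PS c).Countable) (L : LF c) {x : M} (hx : L.Z x ≠ 0)
    {T₁ T₂ : M → ℝ × ℝ} (hT₁ : ContMDiffAt 𝓘(ℝ, E) 𝓘(ℝ, ℝ × ℝ) ∞ T₁ x)
    (hT₂ : ContMDiffAt 𝓘(ℝ, E) 𝓘(ℝ, ℝ × ℝ) ∞ T₂ x)
    (hΛ₁ : ∀ᶠ y in 𝓝 x, T₁ y ∈ L.Λ y) (hΛ₂ : ∀ᶠ y in 𝓝 x, T₂ y ∈ L.Λ y)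
    (hd : LF.det (T₁ x) (T₂ x) ≠ 0) :
    ∀ᶠ y in 𝓝 x, L.Z y ≠ 0 ∧ (T₂ y).2 ≠ 0 ∧
      (T₁ y).2 = ((T₁ x).2 / (T₂ x).2) * (T₂ y).2 ∧
      (T₁ y).1 = ((T₁ x).2 / (T₂ x).2) * (T₂ y).1 +
        ((T₁ x).1 - ((T₁ x).2 / (T₂ x).2) * (T₂ x).1) := by
  have : IsManifold 𝓘(ℝ, E) 1 M := IsManifold.of_le (n := ∞) (by simp)
  set ρ := (T₁ x).2 / (T₂ x).2 with hρ
  have hZ : ∀ᶠ y in 𝓝 x, L.Z y ≠ 0 := L.isOpen_Z.mem_nhds hx
  have hs₁ : ∀ᶠ y in 𝓝 x, ContMDiffAt 𝓘(ℝ, E) 𝓘(ℝ, ℝ × ℝ) 1 T₁ y :=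
    contMDiffAt_iff_contMDiffAt_nhds (n := 1) (by simp) |>.1 (hT₁.of_le (by simp))
  have hs₂ : ∀ᶠ y in 𝓝 x, ContMDiffAt 𝓘(ℝ, E) 𝓘(ℝ, ℝ × ℝ) 1 T₂ y :=
    contMDiffAt_iff_contMDiffAt_nhds (n := 1) (by simp) |>.1 (hT₂.of_le (by simp))
  have hdc : ContinuousAt (fun y => LF.det (T₁ y) (T₂ y)) x := by
    unfold LF.det
    have h1 := hT₁.continuousAt
    have h2 := hT₂.continuousAt
    exact (h1.fst.mul h2.snd).sub (h1.snd.mul h2.fst)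
  have hdet : ∀ᶠ y in 𝓝 x, LF.det (T₁ y) (T₂ y) ≠ 0 := hdc.eventually_ne hd
  have hne : ∀ᶠ y in 𝓝 x, (T₂ y).2 ≠ 0 := by
    filter_upwards [hZ, hΛ₂, hdet] with y h1 h2 h3
    refine H.snd_ne hcount L h1 (v := T₂ y) (w := T₁ y) h2 ?_
    intro h
    apply h3
    unfold LF.det at h ⊢
    linarith
  have hirr : ∀ᶠ y in 𝓝 x, Irrational ((T₁ y).2 / (T₂ y).2) := by
    filter_upwards [hZ, hΛ₁, hΛ₂, hdet] with y h1 h2 h3 h4
    exact H.irr hcount L h1 h2 h3 h4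
  have hcont : ∀ᶠ y in 𝓝 x, ContinuousAt (fun y => (T₁ y).2 / (T₂ y).2) y := by
    filter_upwards [hs₁, hs₂, hne] with y h1 h2 h3
    exact (h1.continuousAt.snd).div (h2.continuousAt.snd) h3
  have hc1 := const_of_irrational E hcont hirr
  have hrel : ∀ᶠ y in 𝓝 x, (T₁ y).2 = ρ * (T₂ y).2 := by
    filter_upwards [hc1, hne] with y h1 h2
    rw [div_eq_iff h2] at h1
    exact h1
  -- the second relation
  have hdif : ∀ᶠ y in 𝓝 x, MDifferentiableAt 𝓘(ℝ, E) 𝓘(ℝ, ℝ) (fun y => (T₁ y).1 - ρ * (T₂ y).1) y ∧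
      ∀ u : TangentSpace 𝓘(ℝ, E) y,
        (mfderiv 𝓘(ℝ, E) 𝓘(ℝ, ℝ) (fun y => (T₁ y).1 - ρ * (T₂ y).1) y u : ℝ) = 0 := by
    filter_upwards [hs₁, hs₂, hrel, hΛ₁.eventually_nhds, hΛ₂.eventually_nhds] with y h1 h2 h3 h4 h5
    have d1 := h1.mdifferentiableAt (by simp)
    have d2 := h2.mdifferentiableAt (by simp)
    let p : ℝ × ℝ →L[ℝ] ℝ := ContinuousLinearMap.fst ℝ ℝ ℝ
    have m1 : HasMFDerivAt 𝓘(ℝ, E) 𝓘(ℝ, ℝ) (fun y => (T₁ y).1) y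
        (p.comp (mfderiv 𝓘(ℝ, E) 𝓘(ℝ, ℝ × ℝ) T₁ y)) :=
      HasMFDerivAt.comp y (g := p) (f := T₁) p.hasFDerivAt.hasMFDerivAt d1.hasMFDerivAt
    have m2 : HasMFDerivAt 𝓘(ℝ, E) 𝓘(ℝ, ℝ) (fun y => (T₂ y).1) y
        (p.comp (mfderiv 𝓘(ℝ, E) 𝓘(ℝ, ℝ × ℝ) T₂ y)) :=
      HasMFDerivAt.comp y (g := p) (f := T₂) p.hasFDerivAt.hasMFDerivAt d2.hasMFDerivAt
    have m3 : HasMFDerivAt 𝓘(ℝ, E) 𝓘(ℝ, ℝ) (fun y => (T₁ y).1 - ρ * (T₂ y).1) y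
        ((p.comp (mfderiv 𝓘(ℝ, E) 𝓘(ℝ, ℝ × ℝ) T₁ y) : E →L[ℝ] ℝ) -
          ρ • (p.comp (mfderiv 𝓘(ℝ, E) 𝓘(ℝ, ℝ × ℝ) T₂ y) : E →L[ℝ] ℝ)) :=
      m1.sub (m2.const_smul ρ)
    refine ⟨m3.mdifferentiableAt, fun u => ?_⟩
    rw [m3.mfderiv]
    have k1 := L.deriv_period d1 h4 u
    have k2 := L.deriv_period d2 h5 u
    show (mfderiv 𝓘(ℝ, E) 𝓘(ℝ, ℝ × ℝ) T₁ y u : ℝ × ℝ).1 -
      ρ * (mfderiv 𝓘(ℝ, E) 𝓘(ℝ, ℝ × ℝ) T₂ y u : ℝ × ℝ).1 = 0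
    rw [k1, k2, h3]
    ring
  have hc2 := const_of_mfderiv (hdif.mono fun y h => h.1) (hdif.mono fun y h => h.2)
  filter_upwards [hZ, hne, hrel, hc2] with y h1 h2 h3 h4
  refine ⟨h1, h2, h3, ?_⟩
  linarith

/-- **the relation propagates** -/
lemma rel_open (hcount : (PS c).Countable) {r κ : ℝ} (hκ : κ ≠ 0) {y : M} {τ : ℝ}
    (h : Rel c r κ y τ) : ∃ T : M → ℝ, MDifferentiableAt 𝓘(ℝ, E) 𝓘(ℝ, ℝ) T y ∧ T y = τ ∧
      (∀ᶠ z in 𝓝 y, Rel c r κ z (T z)) ∧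
      ∃ u : TangentSpace 𝓘(ℝ, E) y, (mfderiv 𝓘(ℝ, E) 𝓘(ℝ, ℝ) T y u : ℝ) ≠ 0 := by
  obtain ⟨L, hL, w, hw, h1, h2⟩ := h
  obtain ⟨T₁, s₁, e₁, l₁, -⟩ := H.cont L hL h2
  obtain ⟨T₂, s₂, e₂, l₂, -⟩ := H.cont L hL h1
  have hd : LF.det (T₁ y) (T₂ y) ≠ 0 := by
    rw [e₁, e₂]
    unfold LF.det
    have : (r * τ + κ) * w - r * w * τ = κ * w := by ring
    dsimp only
    rw [this]
    exact mul_ne_zero hκ hw
  have hloc := H.local_rel hcount L hL s₁ s₂ l₁ l₂ hd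
  rw [e₁, e₂] at hloc
  have hr : r * w / w = r := by field_simp
  dsimp only at hloc
  rw [hr] at hloc
  have hκ' : r * τ + κ - r * τ = κ := by ring
  rw [hκ'] at hloc
  have d2 : MDifferentiableAt 𝓘(ℝ, E) 𝓘(ℝ, ℝ × ℝ) T₂ y := s₂.mdifferentiableAt (by simp)
  let p : ℝ × ℝ →L[ℝ] ℝ := ContinuousLinearMap.fst ℝ ℝ ℝ
  have m2 : HasMFDerivAt 𝓘(ℝ, E) 𝓘(ℝ, ℝ) (fun y => (T₂ y).1) y
      (p.comp (mfderiv 𝓘(ℝ, E) 𝓘(ℝ, ℝ × ℝ) T₂ y)) :=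
    HasMFDerivAt.comp y (g := p) (f := T₂) p.hasFDerivAt.hasMFDerivAt d2.hasMFDerivAt
  refine ⟨fun z => (T₂ z).1, m2.mdifferentiableAt, ?_, ?_, ?_⟩
  · dsimp only
    rw [e₂]
  · filter_upwards [hloc, l₁, l₂] with z k1 k2 k3
    refine ⟨L, k1.1, (T₂ z).2, k1.2.1, k3, ?_⟩
    rw [← k1.2.2.1, ← k1.2.2.2]
    exact k2
  · obtain ⟨u, hu⟩ : ∃ u, L.mu y u ≠ 0 := by
      by_contra hno
      push Not at hno
      exact hL (L.Z_zero hno)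
    refine ⟨u, ?_⟩
    rw [m2.mfderiv]
    have k := L.deriv_period d2 l₂ u
    have k' : (T₂ y).2 = w := by rw [e₂]
    rw [k'] at k
    intro h0
    exact mul_ne_zero hw hu (k.symm.trans h0)

/-- **the relation is closed** -/
lemma rel_closed (hcount : (PS c).Countable) {r κ : ℝ} (hr : Irrational r) :
    IsClosed {y : M | ∃ τ, Rel c r κ y τ} := by
  rw [← closure_subset_iff_isClosed]
  intro y hy
  obtain ⟨L, hL⟩ := H.exists_LF y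
  obtain ⟨v₁, hv₁, v₂, hv₂, hd⟩ := H.exists_indep L hL
  obtain ⟨T₁, s₁, e₁, l₁, -⟩ := H.cont L hL hv₁
  obtain ⟨T₂, s₂, e₂, l₂, -⟩ := H.cont L hL hv₂
  have hd' : LF.det (T₁ y) (T₂ y) ≠ 0 := by rw [e₁, e₂]; exact hd
  have hloc := H.local_rel hcount L hL s₁ s₂ l₁ l₂ hd'
  set ρ := (T₁ y).2 / (T₂ y).2 with hρ
  set κ₀ := (T₁ y).1 - ρ * (T₂ y).1 with hκ₀
  have hT2y : (T₂ y).2 ≠ 0 := hloc.self_of_nhds.2.1
  have hκ₀0 : κ₀ ≠ 0 := by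
    intro h
    apply hd'
    have h1 : (T₁ y).2 = ρ * (T₂ y).2 := hloc.self_of_nhds.2.2.1
    have h2 : (T₁ y).1 = ρ * (T₂ y).1 := by linarith
    unfold LF.det
    rw [h1, h2]; ring
  have hdc : ContinuousAt (fun y => LF.det (T₁ y) (T₂ y)) y := by
    unfold LF.det
    have h1 := s₁.continuousAt
    have h2 := s₂.continuousAt
    exact (h1.fst.mul h2.snd).sub (h1.snd.mul h2.fst)
  have hdet : ∀ᶠ z in 𝓝 y, LF.det (T₁ z) (T₂ z) ≠ 0 := hdc.eventually_ne hd'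
  -- coefficients at nearby points
  have hcoef : ∀ᶠ z in 𝓝 y, (∃ τ, Rel c r κ z τ) → ∃ m₁ n₁ m₂ n₂ : ℚ,
      (m₁:ℝ) * ρ + n₁ = r * (m₂ * ρ + n₂) ∧ (m₁ - r * m₂) * κ₀ = κ ∧ (m₂:ℝ) * ρ + n₂ ≠ 0 ∧
      (m₂:ℝ) • T₁ z + (n₂:ℝ) • T₂ z ∈ L.Λ z ∧ (m₁:ℝ) • T₁ z + (n₁:ℝ) • T₂ z ∈ L.Λ z := by
    filter_upwards [hloc, l₁, l₂, hdet] with z k1 k2 k3 k4
    rintro ⟨τ, hτ⟩
    obtain ⟨w, hw, h1, h2⟩ := H.rel_iff L k1.1 hτ
    obtain ⟨m₂, n₂, h3⟩ := H.rational L k1.1 k2 k3 k4 h1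
    obtain ⟨m₁, n₁, h4⟩ := H.rational L k1.1 k2 k3 k4 h2
    have f1 : τ = m₂ * (T₁ z).1 + n₂ * (T₂ z).1 := congrArg Prod.fst h3
    have f2 : w = m₂ * (T₁ z).2 + n₂ * (T₂ z).2 := congrArg Prod.snd h3
    have f3 : r * τ + κ = m₁ * (T₁ z).1 + n₁ * (T₂ z).1 := congrArg Prod.fst h4
    have f4 : r * w = m₁ * (T₁ z).2 + n₁ * (T₂ z).2 := congrArg Prod.snd h4
    obtain ⟨-, k5, k6, k7⟩ := k1
    rw [k7] at f1 f3
    rw [k6] at f2 f4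
    have g1 : (m₁:ℝ) * ρ + n₁ = r * (m₂ * ρ + n₂) := by
      apply mul_right_cancel₀ k5
      have : r * (m₂ * ρ + n₂) * (T₂ z).2 = r * w := by rw [f2]; ring
      rw [this, f4]; ring
    refine ⟨m₁, n₁, m₂, n₂, g1, ?_, ?_, ?_, ?_⟩
    · have g2 : r * (m₂ * (ρ * (T₂ z).1 + κ₀) + n₂ * (T₂ z).1) + κ =
        m₁ * (ρ * (T₂ z).1 + κ₀) + n₁ * (T₂ z).1 := by rw [← f1, f3]
      have g3 : (m₁:ℝ) * ρ * (T₂ z).1 + n₁ * (T₂ z).1 = r * (m₂ * ρ + n₂) * (T₂ z).1 := by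
        rw [← g1]; ring
      linarith
    · intro h
      apply hw
      rw [f2]
      have : (m₂:ℝ) * (ρ * (T₂ z).2) + n₂ * (T₂ z).2 = (m₂ * ρ + n₂) * (T₂ z).2 := by ring
      rw [this, h, zero_mul]
    · rw [← h3]; exact h1
    · rw [← h4]; exact h2
  have hfreq : ∃ᶠ z in 𝓝 y, ∃ τ, Rel c r κ z τ := mem_closure_iff_frequently.1 hy
  obtain ⟨z₀, hz₀, hz₀'⟩ := (hfreq.and_eventually hcoef).exists
  obtain ⟨m₁, n₁, m₂, n₂, g1, g2, g3, -, -⟩ := hz₀' hz₀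
  -- uniqueness of the coefficients
  have huniq : ∀ᶠ z in 𝓝 y, (∃ τ, Rel c r κ z τ) →
      (m₂:ℝ) • T₁ z + (n₂:ℝ) • T₂ z ∈ L.Λ z ∧ (m₁:ℝ) • T₁ z + (n₁:ℝ) • T₂ z ∈ L.Λ z := by
    filter_upwards [hcoef] with z hz hzR
    obtain ⟨m₁', n₁', m₂', n₂', g1', g2', -, g4', g5'⟩ := hz hzR
    have q1 : ((m₁ - m₁' : ℚ) : ℝ) + ((m₂' - m₂ : ℚ) : ℝ) * r = 0 := by
      have : ((m₁ - r * m₂) - (m₁' - r * m₂')) * κ₀ = 0 := by
        rw [sub_mul, g2, g2', sub_self]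
      rcases mul_eq_zero.1 this with h | h
      · push_cast; linarith
      · exact absurd h hκ₀0
    obtain ⟨q2, q3⟩ := irr_lin hr q1
    have q4 : m₁' = m₁ := by linarith
    have q5 : m₂' = m₂ := by linarith
    rw [q4, q5] at g1'
    have q6 : ((n₁ - n₁' : ℚ) : ℝ) + ((n₂' - n₂ : ℚ) : ℝ) * r = 0 := by
      push_cast; linarith
    obtain ⟨q7, q8⟩ := irr_lin hr q6
    have q9 : n₁' = n₁ := by linarith
    have q10 : n₂' = n₂ := by linarith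
    rw [q5, q10] at g4'
    rw [q4, q9] at g5'
    exact ⟨g4', g5'⟩
  have hlim : ∀ a b : ℝ, (∃ᶠ z in 𝓝 y, a • T₁ z + b • T₂ z ∈ L.Λ z) →
      a • T₁ y + b • T₂ y ∈ L.Λ y := by
    intro a b hf
    rw [LF.mem_Λ]
    by_contra hne
    have hc1 : ContinuousAt (fun z => a • T₁ z + b • T₂ z) y :=
      (s₁.continuousAt.const_smul a).add (s₂.continuousAt.const_smul b)
    have hc2 : ContinuousAt (fun z => L.Ξ z (a • T₁ z + b • T₂ z)) y :=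
      ContinuousAt.comp (g := fun p : M × (ℝ × ℝ) => L.Ξ p.1 p.2)
        (f := fun z => (z, a • T₁ z + b • T₂ z)) L.smooth_Ξ.continuous.continuousAt
        (continuousAt_id.prodMk hc1)
    have hev : ∀ᶠ z in 𝓝 y, L.Ξ z (a • T₁ z + b • T₂ z) ≠ z :=
      hc2.ne_iff_eventually_ne continuousAt_id |>.1 hne
    obtain ⟨z, h1, h2⟩ := (hf.and_eventually hev).exists
    exact h2 h1
  have hA := hlim m₂ n₂ ((hfreq.and_eventually huniq).mono fun z h => (h.2 h.1).1)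
  have hB := hlim m₁ n₁ ((hfreq.and_eventually huniq).mono fun z h => (h.2 h.1).2)
  obtain ⟨-, -, k6, k7⟩ := hloc.self_of_nhds
  refine ⟨m₂ * (T₁ y).1 + n₂ * (T₂ y).1, L, hL, m₂ * (T₁ y).2 + n₂ * (T₂ y).2, ?_, hA, ?_⟩
  · rw [k6]
    have : (m₂:ℝ) * (ρ * (T₂ y).2) + n₂ * (T₂ y).2 = (m₂ * ρ + n₂) * (T₂ y).2 := by ring
    rw [this]
    exact mul_ne_zero g3 hT2y
  · have e1 : r * (m₂ * (T₁ y).1 + n₂ * (T₂ y).1) + κ = m₁ * (T₁ y).1 + n₁ * (T₂ y).1 := by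
      rw [k7, ← g2]
      have g4 : ((m₁:ℝ) * ρ + n₁) * (T₂ y).1 = r * (m₂ * ρ + n₂) * (T₂ y).1 := by rw [g1]
      linarith
    have e2 : r * (m₂ * (T₁ y).2 + n₂ * (T₂ y).2) = m₁ * (T₁ y).2 + n₁ * (T₂ y).2 := by
      rw [k6]
      have g4 : ((m₁:ℝ) * ρ + n₁) * (T₂ y).2 = r * (m₂ * ρ + n₂) * (T₂ y).2 := by rw [g1]
      linarith
    rw [e1, e2]
    exact hB

/-- **The contradiction.** -/
theorem absurd_of_countable [Nonempty M] (hcount : (PS c).Countable) : False := by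
  obtain ⟨x₀⟩ := ‹Nonempty M›
  obtain ⟨L, hL⟩ := H.exists_LF x₀
  obtain ⟨v₁, hv₁, v₂, hv₂, hd⟩ := H.exists_indep L hL
  have hr := H.irr hcount L hL hv₁ hv₂ hd
  set r := v₁.2 / v₂.2 with hrdef
  have hv2 : v₂.2 ≠ 0 := by
    refine H.snd_ne hcount L hL (v := v₂) (w := v₁) hv₂ ?_
    intro h
    apply hd
    unfold LF.det at h ⊢
    linarith
  set κ := v₁.1 - r * v₂.1 with hκdef
  have h1 : v₁.2 = r * v₂.2 := by rw [hrdef, div_mul_cancel₀ _ hv2]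
  have hκ : κ ≠ 0 := by
    intro h
    apply hd
    have h2 : v₁.1 = r * v₂.1 := by linarith
    unfold LF.det
    rw [h1, h2]; ring
  have hrel : Rel c r κ x₀ v₂.1 := by
    refine ⟨L, hL, v₂.2, hv2, hv₂, ?_⟩
    have e1 : r * v₂.1 + κ = v₁.1 := by rw [hκdef]; ring
    rw [e1, ← h1]
    exact hv₁
  have hcl := H.rel_closed hcount (κ := κ) hr
  have hK : IsCompact {y : M | ∃ τ, Rel c r κ y τ} := hcl.isCompact
  classical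
  let f : M → ℝ := fun y => if h : ∃ τ, Rel c r κ y τ then h.choose else 0
  have hf : ∀ y τ, Rel c r κ y τ → f y = τ := by
    intro y τ h
    have hex : ∃ τ, Rel c r κ y τ := ⟨τ, h⟩
    have h2 : f y = hex.choose := dif_pos hex
    rw [h2]
    exact H.rel_unique hr hκ h hex.choose_spec
  have hfc : ContinuousOn f {y : M | ∃ τ, Rel c r κ y τ} := by
    rintro y ⟨τ, hτ⟩
    obtain ⟨T, t1, t2, t3, t4⟩ := H.rel_open hcount hκ hτ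
    have h2 : f =ᶠ[𝓝 y] T := t3.mono fun z hz => hf z _ hz
    exact (t1.continuousAt.congr h2.symm).continuousWithinAt
  obtain ⟨y, ⟨τ, hτ⟩, hmax⟩ := hK.exists_isMaxOn ⟨x₀, _, hrel⟩ hfc
  obtain ⟨T, t1, t2, t3, u, t4⟩ := H.rel_open hcount hκ hτ
  apply t4
  apply mfderiv_zero_of_localMax _ t1
  filter_upwards [t3] with z hz
  have h2 : f z ≤ f y := hmax ⟨_, hz⟩
  rw [hf z _ hz, hf y _ hτ] at h2
  rw [t2]
  exact h2

end Hyp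

end Q169.SI
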