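import Mathlib
import Pool.Agent.Q169.SI.Rel
import Pool.Agent.H826R2.Wein.Bridge

/-! Reeb fields with many first integrals. -/

open scoped Topology ContDiff Manifold
open Set Pool.Agent.Helper186 Pool.Agent.H826R2.Wein

noncomputable section

namespace Q169.SI

set_option linter.unusedSectionVars false

universe u v w

variable {E : Type u} [NormedAddCommGroup E] [NormedSpace ℝ E] [FiniteDimensional ℝ E]
  {M : Type v} [TopologicalSpace M] [ChartedSpace E M] [IsManifold 𝓘(ℝ, E) ∞ M]
  {β : (x : M) → TangentSpace 𝓘(ℝ, E) x →L[ℝ] ℝ} {R : (x : M) → TangentSpace 𝓘(ℝ, E) x}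

/-- an independent subfamily of given length -/
lemma exists_sub {V : Type*} [AddCommGroup V] [Module ℝ V] [FiniteDimensional ℝ V] {ι : Type w}
    (g : ι → V) {N : ℕ} (h : N ≤ Module.finrank ℝ (Submodule.span ℝ (range g))) :
    ∃ k : Fin N → ι, LinearIndependent ℝ (fun i => g (k i)) := by
  classical
  obtain ⟨b, hbS, hbs, hbi⟩ := exists_linearIndependent ℝ (range g)
  have hfin : Finite b := hbi.finite
  have := Fintype.ofFinite b
  have hcard : Module.finrank ℝ (Submodule.span ℝ b) = Fintype.card b := by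
    rw [finrank_span_set_eq_card hbi, toFinset_card]
  rw [← hbs, hcard] at h
  have h2 : Fintype.card (Fin N) ≤ Fintype.card b := by rwa [Fintype.card_fin]
  obtain ⟨e⟩ := Function.Embedding.nonempty_of_card_le h2
  have h3 : ∀ i : Fin N, ∃ j : ι, g j = (e i : V) := fun i => hbS (e i).2
  choose k hk using h3
  refine ⟨k, ?_⟩
  have h4 : (fun i => g (k i)) = (fun i : b => (i : V)) ∘ e := by
    funext i
    exact hk i
  rw [h4]
  exact hbi.comp _ e.injective

theorem uncountable_PS [T2Space M] [CompactSpace M] [Nonempty M] (c : CD β R)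
    (hE : 1 < Module.finrank ℝ E) {ι : Type w} (f : ι → M → ℝ) (hf : ∀ i, RI R (f i))
    (hrank : ∀ x, Module.finrank ℝ E ≤
      Module.finrank ℝ (Submodule.span ℝ (range fun i => dl (E := E) (f i) x)) + 2) :
    ¬ (PS c).Countable := by
  intro hcount
  obtain ⟨N, hN⟩ : ∃ N, Module.finrank ℝ E = N + 2 := ⟨Module.finrank ℝ E - 2, by omega⟩
  have H : Hyp c N := by
    refine ⟨hN, fun x => ?_, fun x J hJ hli => ?_⟩
    · have h1 : N ≤ Module.finrank ℝ (Submodule.span ℝ (range fun i => dl (E := E) (f i) x)) := by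
        have := hrank x
        omega
      obtain ⟨k, hk⟩ := exists_sub (fun i => dl (E := E) (f i) x) h1
      exact ⟨fun i => f (k i), fun i => hf _, hk⟩
    · exact uncountable_of_regular c (k := N + 1) hN (Nat.succ_pos N) hJ hli hcount
  exact H.absurd_of_countable hcount

end Q169.SI

namespace Pool.Agent.H826R2.WStmt

open Q169.SI

universe u v w

variable {E : Type u} [NormedAddCommGroup E] [NormedSpace ℝ E] [FiniteDimensional ℝ E]
  {M : Type v} [TopologicalSpace M] [ChartedSpace E M] [IsManifold 𝓘(ℝ, E) ∞ M]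

theorem uncountable_of_integrals [T2Space M] [CompactSpace M] [Nonempty M]
    (hE : 1 < Module.finrank ℝ E)
    (α : M → Cov E) (hα : IsContact α) (R : M → E) (hR : IsReeb α R)
    {ι : Type w} (f : ι → M → ℝ) (hf : ∀ i, ContMDiff 𝓘(ℝ, E) 𝓘(ℝ, ℝ) ∞ (f i))
    (hfR : ∀ i x, D (E' := ℝ) (f i) x (R x) = 0)
    (hrank : ∀ x, Module.finrank ℝ E ≤
      Module.finrank ℝ (Submodule.span ℝ (range fun i => D (E := E) (E' := ℝ) (f i) x)) + 2) :
    ¬ {O : Set M | ∃ c T, IsPeriodicOrbit R c T ∧ O = range c}.Countable := by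
  intro hcount
  have c : CD (toForm α) (fun x => (R x : TangentSpace 𝓘(ℝ, E) x)) := ⟨hα.toWein, hR.toWein⟩
  refine uncountable_PS c hE f (fun i => ⟨hf i, fun x => hfR i x⟩) hrank ?_
  refine hcount.mono ?_
  rintro O ⟨x, T, hT, hxT, rfl⟩
  refine ⟨φ c x, T, ⟨hT, φ_int c x, fun t => ?_⟩, rfl⟩
  have h1 := (φ_add c x T t).trans (congrArg (fun z => φ c z t) hxT)
  rw [add_comm T t] at h1
  exact h1

end Pool.Agent.H826R2.WStmt
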